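import Pool.Agent.H83.VS.Conformal

/-!
# The Hessian of the conformal factor of the first Vaidya-Shah class

Everything is pulled back to the source of the conformal map and written in a differential ring.
-/

namespace Pool.Agent.H83.VS

/-- A conformal map to Minkowski space together with the pulled back functions of a metric of
the first Vaidya-Shah class. -/
structure VSRing (A : Type*) [CommRing A] [Algebra ℝ A] extends ConfData A where
  t : A
  m : A
  R : A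
  Rinv : A
  u : A
  κ : A
  κinv : A
  π : A
  π' : A
  W : A
  E : A
  h : A
  h' : A
  hR : R ^ 2 = X ^ 2 + Y ^ 2 + Z ^ 2
  hRinv : R * Rinv = 1
  hκinv : κ * κinv = 1
  hEW : E * W = 1
  hT : ∀ v, D v T = D v u + D v R
  hu : ∀ v, D v u = - κ * D v m
  hκ : ∀ v, 2 * D v κ = - π * κ * D v m
  hπ : ∀ v, D v π = π' * D v m
  ht : ∀ v, 2 * (W ^ 2 * D v t) = π * R * D v u + 2 * κ * D v T
  hW : ∀ v, D v W = h * (W ^ 2 * D v t)
  hh : ∀ v, D v h = h' * D v t

namespace VSRing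

variable {A : Type*} [CommRing A] [Algebra ℝ A] (C : VSRing A)

/-- The pulled back one-form `e^{-ψ} dt`. -/
def γ (v : Fin 4 → ℝ) : A := C.W ^ 2 * C.D v C.t

omit C in
theorem two_cancel {x y : A} (h : 2 * x = 2 * y) : x = y := by
  have : ∀ z : A, algebraMap ℝ A (1 / 2) * (2 * z) = z := by
    intro z
    rw [← mul_assoc, ← map_ofNat (algebraMap ℝ A) 2, ← map_mul]
    norm_num
  rw [← this x, h, this]

theorem D_R (v : Fin 4 → ℝ) :
    C.R * C.D v C.R = C.X * C.D v C.X + C.Y * C.D v C.Y + C.Z * C.D v C.Z := by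
  have h := congrArg (C.D v) C.hR
  simp only [pow_two, map_add, Derivation.leibniz, smul_eq_mul] at h
  apply two_cancel
  linear_combination h

theorem hess_R {v w : Fin 4 → ℝ} (hvw : eta v w = 0) :
    C.R * (C.ρ * C.D v (C.D w C.R) + C.D v C.ρ * C.D w C.R + C.D w C.ρ * C.D v C.R)
      = C.ρ * (C.D v C.T * C.D w C.T - C.D v C.R * C.D w C.R) := by
  have h := congrArg (C.D v) (C.D_R w)
  simp only [map_add, Derivation.leibniz, smul_eq_mul] at h
  obtain ⟨hT, hX, hY, hZ⟩ := C.hess_map hvw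
  have hc := C.conf v w
  rw [hvw, map_zero, zero_mul] at hc
  linear_combination C.ρ * h + C.D v C.ρ * C.D_R w + C.D w C.ρ * C.D_R v
    + C.X * hX + C.Y * hY + C.Z * hZ - C.ρ * hc

theorem hess_rho_W {v w : Fin 4 → ℝ} (hvw : eta v w = 0) :
    2 * C.D v (C.D w (C.ρ * C.W)) = C.ρ * (2 * C.h' * C.E ^ 2 * C.γ v * C.γ w
      - C.h * C.π' * C.R * C.κinv * C.D v C.u * C.D w C.u) := by
  have h0 := C.hess_rho v w
  rw [hvw, map_zero, zero_mul] at h0
  obtain ⟨hT, -, -, -⟩ := C.hess_map hvw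
  have hR := C.hess_R hvw
  have hTv := C.hT v
  have hTw := C.hT w
  have hTvw := congrArg (C.D v) (C.hT w)
  rw [map_add] at hTvw
  have huv := C.hu v
  have hκv := C.hκ v
  have hπv := C.hπ v
  have hγv : C.γ v = C.W ^ 2 * C.D v C.t := rfl
  have hγw : C.γ w = C.W ^ 2 * C.D w C.t := rfl
  have htw : 2 * C.γ w = C.π * C.R * C.D w C.u + 2 * C.κ * C.D w C.T := C.ht w
  have htv : 2 * C.γ v = C.π * C.R * C.D v C.u + 2 * C.κ * C.D v C.T := C.ht v
  have hWv : C.D v C.W = C.h * C.γ v := C.hW v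
  have hWw : C.D w C.W = C.h * C.γ w := C.hW w
  have htvw := congrArg (C.D v) htw
  rw [two_mul, map_add, map_add, ← two_mul] at htvw
  have h2 : C.D v (2 : A) = 0 := by
    have := (C.D v).map_algebraMap (2 : ℝ)
    rwa [map_ofNat] at this
  simp only [Derivation.leibniz, smul_eq_mul, h2] at htvw
  have hWvw := congrArg (C.D v) hWw
  rw [Derivation.leibniz, smul_eq_mul, smul_eq_mul, C.hh v] at hWvw
  have hW2 : C.D v C.t = C.E ^ 2 * C.γ v := by
    rw [hγv]
    linear_combination - C.D v C.t * (C.E * C.W + 1) * C.hEW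
  have hm : C.D v C.m = - C.κinv * C.D v C.u := by
    rw [huv]
    linear_combination - C.D v C.m * C.hκinv
  have e1 : C.D v (C.D w (C.ρ * C.W)) = C.D v C.ρ * C.D w C.W + C.D w C.ρ * C.D v C.W
      + C.ρ * C.D v (C.D w C.W) + C.W * C.D v (C.D w C.ρ) := by
    simp only [map_add, Derivation.leibniz, smul_eq_mul]
    ring
  linear_combination 2 * e1 + 2 * C.W * h0 + 2 * C.D v C.ρ * hWw + 2 * C.D w C.ρ * hWv
    + 2 * C.ρ * hWvw + 2 * C.ρ * C.γ w * C.h' * hW2 + C.h * C.D v C.ρ * htw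
    + C.h * C.D w C.ρ * htv + C.h * C.ρ * htvw + 2 * C.h * C.κ * hT + C.h * C.π * C.R * hT
    - C.h * C.π * hR - C.h * C.π * C.R * C.D v C.ρ * hTw - C.h * C.π * C.R * C.D w C.ρ * hTv
    - C.h * C.π * C.R * C.ρ * hTvw + C.h * C.ρ * C.D w C.T * hκv
    - C.h * C.ρ * C.D w C.T * C.π * huv + C.h * C.ρ * C.D w C.u * C.R * hπv
    + C.h * C.ρ * C.D w C.u * C.R * C.π' * hm - C.h * C.ρ * C.π * C.D v C.R * hTw
    - C.h * C.ρ * C.π * C.D w C.T * hTv

theorem dual_R (g : A) : C.R * C.dual C.R g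
    = C.X * C.dual C.X g + C.Y * C.dual C.Y g + C.Z * C.dual C.Z g := by
  unfold ConfData.dual
  linear_combination C.D (bv 0) g * C.D_R (bv 0) - C.D (bv 1) g * C.D_R (bv 1)
    - C.D (bv 2) g * C.D_R (bv 2) - C.D (bv 3) g * C.D_R (bv 3)

omit C in
theorem dual_comm (C : ConfData A) (f g : A) : C.dual f g = C.dual g f := by
  unfold ConfData.dual; ring

theorem dual_RT : C.dual C.R C.T = 0 := by
  have h := C.dual_R C.T
  rw [dual_comm _ C.X, dual_comm _ C.Y, dual_comm _ C.Z, C.dual_TX, C.dual_TY, C.dual_TZ] at h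
  linear_combination C.Rinv * h - C.dual C.R C.T * C.hRinv

theorem dual_RR : C.dual C.R C.R = - C.s := by
  have h := C.dual_R C.R
  have hX := C.dual_R C.X
  have hY := C.dual_R C.Y
  have hZ := C.dual_R C.Z
  rw [C.dual_XX, dual_comm _ C.Y, C.dual_XY, dual_comm _ C.Z, C.dual_XZ] at hX
  rw [C.dual_YY, C.dual_XY, dual_comm _ C.Z, C.dual_YZ] at hY
  rw [C.dual_ZZ, C.dual_XZ, C.dual_YZ] at hZ
  rw [dual_comm _ C.R] at hX hY hZ
  have h2 : C.R ^ 2 * C.dual C.R C.R = C.R ^ 2 * (- C.s) := by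
    linear_combination C.R * h + C.X * hX + C.Y * hY + C.Z * hZ + C.s * C.hR
  have hR2 : C.R ^ 2 * C.Rinv ^ 2 = 1 := by
    rw [← mul_pow, C.hRinv, one_pow]
  linear_combination C.Rinv ^ 2 * h2 - (C.dual C.R C.R + C.s) * hR2

theorem dual_uT : C.dual C.u C.T = C.s := by
  have h1 := C.dual_RT
  have h2 := C.dual_TT
  unfold ConfData.dual at *
  linear_combination h2 - h1 - C.D (bv 0) C.T * C.hT (bv 0) + C.D (bv 1) C.T * C.hT (bv 1)
    + C.D (bv 2) C.T * C.hT (bv 2) + C.D (bv 3) C.T * C.hT (bv 3)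

theorem dual_uR : C.dual C.u C.R = C.s := by
  have h1 := C.dual_RR
  have h2 := C.dual_RT
  unfold ConfData.dual at *
  linear_combination h2 - h1 - C.D (bv 0) C.R * C.hT (bv 0) + C.D (bv 1) C.R * C.hT (bv 1)
    + C.D (bv 2) C.R * C.hT (bv 2) + C.D (bv 3) C.R * C.hT (bv 3)

theorem dual_uu : C.dual C.u C.u = 0 := by
  have h1 := C.dual_uT
  have h2 := C.dual_uR
  unfold ConfData.dual at *
  linear_combination h1 - h2 - C.D (bv 0) C.u * C.hT (bv 0) + C.D (bv 1) C.u * C.hT (bv 1)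
    + C.D (bv 2) C.u * C.hT (bv 2) + C.D (bv 3) C.u * C.hT (bv 3)

theorem dual_γγ : C.γ (bv 0) ^ 2 - C.γ (bv 1) ^ 2 - C.γ (bv 2) ^ 2 - C.γ (bv 3) ^ 2
    = C.κ * C.s * (C.π * C.R + C.κ) := by
  have h1 := C.dual_uT
  have h2 := C.dual_uu
  have h3 := C.dual_TT
  unfold ConfData.dual at *
  have e : ∀ v, 2 * C.γ v = C.π * C.R * C.D v C.u + 2 * C.κ * C.D v C.T := C.ht
  apply two_cancel
  apply two_cancel
  linear_combination
    (2 * C.γ (bv 0) + C.π * C.R * C.D (bv 0) C.u + 2 * C.κ * C.D (bv 0) C.T) * e (bv 0)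
    - (2 * C.γ (bv 1) + C.π * C.R * C.D (bv 1) C.u + 2 * C.κ * C.D (bv 1) C.T) * e (bv 1)
    - (2 * C.γ (bv 2) + C.π * C.R * C.D (bv 2) C.u + 2 * C.κ * C.D (bv 2) C.T) * e (bv 2)
    - (2 * C.γ (bv 3) + C.π * C.R * C.D (bv 3) C.u + 2 * C.κ * C.D (bv 3) C.T) * e (bv 3)
    + (C.π * C.R) ^ 2 * h2 + 4 * C.κ * C.π * C.R * h1 + 4 * C.κ ^ 2 * h3

end VSRing

end Pool.Agent.H83.VS
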