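import Pool.Agent.H83.VS.Quadratic
import Pool.Agent.H83.VS.Hess

/-!
# No conformal map relates the two conformal factors

The contradiction, from the data in the differential ring of smooth functions.
-/

open scoped ContDiff Topology

namespace Pool.Agent.H83.VS

open Sm

/-- The conformal factor `N = a t² + b |X|²` in the ring of smooth functions. -/
noncomputable def Nring (Ω : TopologicalSpace.Opens (Fin 4 → ℝ)) (a b : ℝ) : Sm Ω :=
  algebraMap ℝ (Sm Ω) a * (coord 0 * coord 0)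
    + algebraMap ℝ (Sm Ω) b * (coord 1 * coord 1 + coord 2 * coord 2 + coord 3 * coord 3)

theorem ev_N {Ω : TopologicalSpace.Opens (Fin 4 → ℝ)} (a b : ℝ) (x : Ω) :
    ev x (Nring Ω a b) = a * (x : Fin 4 → ℝ) 0 ^ 2
      + b * ((x : Fin 4 → ℝ) 1 ^ 2 + (x : Fin 4 → ℝ) 2 ^ 2 + (x : Fin 4 → ℝ) 3 ^ 2) := by
  unfold Nring
  simp only [map_add, map_mul, ev_coord, AlgHom.commutes, Algebra.algebraMap_self,
    RingHom.id_apply]
  ring

/-- The one form `θ` in the ring. -/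
noncomputable def thr (Ω : TopologicalSpace.Opens (Fin 4 → ℝ)) (a b : ℝ) (v : Fin 4 → ℝ) :
    Sm Ω :=
  algebraMap ℝ (Sm Ω) (a * v 0) * coord 0
    + (algebraMap ℝ (Sm Ω) (b * v 1) * coord 1 + algebraMap ℝ (Sm Ω) (b * v 2) * coord 2
      + algebraMap ℝ (Sm Ω) (b * v 3) * coord 3)

theorem ev_thr {Ω : TopologicalSpace.Opens (Fin 4 → ℝ)} (a b : ℝ) (x : Ω) (v : Fin 4 → ℝ) :
    ev x (thr Ω a b v) = dot (th a b x) v := by
  unfold thr
  simp only [map_add, map_mul, ev_coord, AlgHom.commutes, Algebra.algebraMap_self,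
    RingHom.id_apply]
  simp [dot, th]
  ring

theorem D_N {Ω : TopologicalSpace.Opens (Fin 4 → ℝ)} (a b : ℝ) (v : Fin 4 → ℝ) :
    D v (Nring Ω a b) = 2 * thr Ω a b v := by
  apply Sm.ext
  intro x
  unfold Nring thr
  simp only [map_add, map_mul, ev_coord, AlgHom.commutes, Algebra.algebraMap_self,
    RingHom.id_apply, Derivation.leibniz, smul_eq_mul, D_coord, Derivation.map_algebraMap,
    map_zero, map_ofNat]
  ring

theorem D_thr {Ω : TopologicalSpace.Opens (Fin 4 → ℝ)} (a b : ℝ) (v w : Fin 4 → ℝ) :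
    D v (thr Ω a b w) = algebraMap ℝ (Sm Ω) ((a + b) * (v 0 * w 0) - b * eta v w) := by
  apply Sm.ext
  intro x
  unfold thr
  simp only [map_add, map_mul, ev_coord, AlgHom.commutes, Algebra.algebraMap_self,
    RingHom.id_apply, Derivation.leibniz, smul_eq_mul, D_coord, Derivation.map_algebraMap,
    map_zero, map_sub, eta]
  ring

theorem two_cancel' {A : Type*} [CommRing A] [Algebra ℝ A] {x y : A} (h : 2 * x = 2 * y) :
    x = y := VSRing.two_cancel h

section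

variable {Ω : TopologicalSpace.Opens (Fin 4 → ℝ)} (C : VSRing (Sm Ω))
  (hD : ∀ v f, C.D v f = Sm.D v f) (a b : ℝ) (f : Sm Ω) (hf : f ^ 2 * Nring Ω a b = 1)
  (hρ : C.ρ = f * C.E)

include hD hf

theorem D_f (v : Fin 4 → ℝ) : C.D v f = - f ^ 3 * thr Ω a b v := by
  have h := congrArg (C.D v) hf
  rw [Derivation.map_one_eq_zero, pow_two, Derivation.leibniz, Derivation.leibniz] at h
  simp only [smul_eq_mul] at h
  have hN : C.D v (Nring Ω a b) = 2 * thr Ω a b v := by rw [hD, D_N]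
  rw [hN] at h
  apply two_cancel'
  linear_combination f * h - 2 * C.D v f * hf

theorem DD_f {v w : Fin 4 → ℝ} (hvw : eta v w = 0) :
    C.D v (C.D w f) = f ^ 5 * (3 * thr Ω a b v * thr Ω a b w
      - Nring Ω a b * algebraMap ℝ (Sm Ω) ((a + b) * (v 0 * w 0))) := by
  have h := congrArg (C.D v) (D_f C hD a b f hf w)
  rw [h]
  have e : C.D v (thr Ω a b w) = algebraMap ℝ (Sm Ω) ((a + b) * (v 0 * w 0)) := by
    rw [hD, D_thr, hvw, mul_zero, sub_zero]
  have e1 : C.D v (- f ^ 3 * thr Ω a b w)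
      = - f ^ 3 * C.D v (thr Ω a b w) - 3 * f ^ 2 * C.D v f * thr Ω a b w := by
    simp only [Derivation.leibniz, smul_eq_mul, map_neg, pow_succ, pow_zero, one_mul]
    ring
  rw [e1, e, D_f C hD a b f hf v]
  linear_combination f ^ 3 * algebraMap ℝ (Sm Ω) ((a + b) * (v 0 * w 0)) * hf

include hρ

theorem ring_identity {v w : Fin 4 → ℝ} (hvw : eta v w = 0) :
    3 * thr Ω a b v * thr Ω a b w
      - algebraMap ℝ (Sm Ω) (a + b) * Nring Ω a b * algebraMap ℝ (Sm Ω) (v 0 * w 0)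
    = (Nring Ω a b ^ 2 * C.E ^ 3 * C.h') * C.γ v * C.γ w
      + (algebraMap ℝ (Sm Ω) (-1 / 2) * Nring Ω a b ^ 2 * C.E * C.h * C.π' * C.R * C.κinv)
        * C.D v C.u * C.D w C.u := by
  have h1 := C.hess_rho_W hvw
  have h2 : C.ρ * C.W = f := by
    rw [hρ]; linear_combination f * C.hEW
  rw [h2, DD_f C hD a b f hf hvw, hρ] at h1
  have h3 : algebraMap ℝ (Sm Ω) ((a + b) * (v 0 * w 0))
      = algebraMap ℝ (Sm Ω) (a + b) * algebraMap ℝ (Sm Ω) (v 0 * w 0) := map_mul _ _ _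
  rw [h3] at h1
  have h4 : algebraMap ℝ (Sm Ω) (-1 / 2) * 2 = -1 := by
    rw [← map_ofNat (algebraMap ℝ (Sm Ω)) 2, ← map_mul]
    norm_num
  have hf' : f ^ 5 * Nring Ω a b ^ 2 = f := by
    linear_combination (f ^ 3 * Nring Ω a b + f) * hf
  have hf'' : f ^ 6 * Nring Ω a b ^ 3 = 1 := by
    linear_combination (f ^ 4 * Nring Ω a b ^ 2 + f ^ 2 * Nring Ω a b + 1) * hf
  apply two_cancel'
  linear_combination (f * Nring Ω a b ^ 3) * h1
    - 2 * (3 * thr Ω a b v * thr Ω a b w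
      - algebraMap ℝ (Sm Ω) (a + b) * Nring Ω a b * algebraMap ℝ (Sm Ω) (v 0 * w 0)) * hf''
    + Nring Ω a b ^ 2 * C.E * (2 * C.h' * C.E ^ 2 * C.γ v * C.γ w
      - C.h * C.π' * C.R * C.κinv * C.D v C.u * C.D w C.u) * hf
    - Nring Ω a b ^ 2 * C.E * C.h * C.π' * C.R * C.κinv * C.D v C.u * C.D w C.u * h4

theorem zeta_identity (v : Fin 4 → ℝ) :
    C.ρ * thr Ω a b v + Nring Ω a b * C.D v C.ρ
      = - (Nring Ω a b * C.E * C.ρ * C.h) * C.γ v := by
  have h2 : C.ρ * C.W = f := by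
    rw [hρ]; linear_combination f * C.hEW
  have h3 := congrArg (C.D v) h2
  rw [D_f C hD a b f hf v, Derivation.leibniz, smul_eq_mul, smul_eq_mul] at h3
  have hW : C.D v C.W = C.h * C.γ v := C.hW v
  rw [hW] at h3
  linear_combination (Nring Ω a b * C.E) * h3 + thr Ω a b v * hρ
    - thr Ω a b v * f * C.E * hf - Nring Ω a b * C.D v C.ρ * C.hEW

end

theorem dot_of_linear {Ω : TopologicalSpace.Opens (Fin 4 → ℝ)} (C : ConfData (Sm Ω))
    (g c : Sm Ω) (x : Ω) (v : Fin 4 → ℝ) :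
    dot (fun i => ev x (c * C.D (bv i) g)) v = ev x (c * C.D v g) := by
  rw [C.D_eq v g]
  simp only [dot, map_mul, map_add, AlgHom.commutes, Algebra.algebraMap_self, RingHom.id_apply]
  ring

/-- The main contradiction for `b ≠ 0`, `a + b ≠ 0`. -/
theorem no_vsring {Ω : TopologicalSpace.Opens (Fin 4 → ℝ)}
    (hc : IsPreconnected (Ω : Set (Fin 4 → ℝ))) (x₀ : Ω) (C : VSRing (Sm Ω))
    (hD : ∀ v f, C.D v f = Sm.D v f) (a b : ℝ) (hb : b ≠ 0) (hab : a + b ≠ 0)
    (f : Sm Ω) (hf : f ^ 2 * Nring Ω a b = 1) (hρ : C.ρ = f * C.E)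
    (hq : ∀ x : Ω, (x : Fin 4 → ℝ) 1 ^ 2 + (x : Fin 4 → ℝ) 2 ^ 2 + (x : Fin 4 → ℝ) 3 ^ 2 ≠ 0) :
    False := by
  obtain ⟨α, lm, β, hαβ⟩ := rho_quadratic hc C.toConfData hD
  have hNne : ∀ x : Ω, ev x (Nring Ω a b) ≠ 0 := by
    intro x h0
    have := congrArg (ev x) hf
    rw [map_mul, h0, mul_zero, map_one] at this
    exact zero_ne_one this
  have hρne : ∀ x : Ω, ev x C.ρ ≠ 0 := by
    intro x h0
    have := congrArg (ev x) C.hρ
    rw [map_mul, map_pow, h0, map_one] at this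
    norm_num at this
  let N : (Fin 4 → ℝ) → ℝ := fun x =>
    a * x 0 ^ 2 + b * (x 1 ^ 2 + x 2 ^ 2 + x 3 ^ 2)
  let ρ : (Fin 4 → ℝ) → ℝ := fun x => α + dot β x + lm / 2 * eta x x
  let ζ : (Fin 4 → ℝ) → Fin 4 → ℝ := fun x i =>
    ρ x * dot (th a b x) (bv i) + N x * (dot β (bv i) + lm * eta x (bv i))
  have hζ : ∀ x v, dot (ζ x) v
      = ρ x * dot (th a b x) v + N x * (dot β v + lm * eta x v) := by
    intro x v
    simp [ζ, dot, th, eta, bv]
    ring
  have hpt : ∀ x : Ω, (∀ w, w 0 = 0 →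
      (x : Fin 4 → ℝ) 1 * w 1 + (x : Fin 4 → ℝ) 2 * w 2 + (x : Fin 4 → ℝ) 3 * w 3 = 0 →
        dot (ζ x) w = 0) ∧
      ∃ τ ξ : ℝ, ξ ≠ 0 ∧ τ ^ 2 = ξ ^ 2 * ((x : Fin 4 → ℝ) 1 ^ 2 + (x : Fin 4 → ℝ) 2 ^ 2
        + (x : Fin 4 → ℝ) 3 ^ 2) ∧
      ζ x 0 * (3 * (a * (x : Fin 4 → ℝ) 0 * τ + b * ξ * ((x : Fin 4 → ℝ) 1 ^ 2
          + (x : Fin 4 → ℝ) 2 ^ 2 + (x : Fin 4 → ℝ) 3 ^ 2)) * b
          * ((x : Fin 4 → ℝ) 1 ^ 2 + (x : Fin 4 → ℝ) 2 ^ 2 + (x : Fin 4 → ℝ) 3 ^ 2))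
        = ((x : Fin 4 → ℝ) 1 * ζ x 1 + (x : Fin 4 → ℝ) 2 * ζ x 2 + (x : Fin 4 → ℝ) 3 * ζ x 3) *
          (3 * (a * (x : Fin 4 → ℝ) 0 * τ + b * ξ * ((x : Fin 4 → ℝ) 1 ^ 2
          + (x : Fin 4 → ℝ) 2 ^ 2 + (x : Fin 4 → ℝ) 3 ^ 2)) * (a * (x : Fin 4 → ℝ) 0)
            - (a + b) * N x * τ) := by
    intro x
    have hNx : N x = ev x (Nring Ω a b) := (ev_N a b x).symm
    have hρx : ρ x = ev x C.ρ := ((hαβ x).1).symm
    have hγ : ∀ v, dot (fun i => ev x (C.γ (bv i))) v = ev x (C.γ v) := fun v =>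
      dot_of_linear C.toConfData C.t (C.W ^ 2) x v
    have hn : ∀ v, dot (fun i => ev x (C.D (bv i) C.u)) v = ev x (C.D v C.u) := by
      intro v
      have := dot_of_linear C.toConfData C.u 1 x v
      simpa only [one_mul] using this
    apply pointwise_main a b ((a + b) * N x) (ev x (Nring Ω a b ^ 2 * C.E ^ 3 * C.h'))
      (ev x (algebraMap ℝ (Sm Ω) (-1 / 2) * Nring Ω a b ^ 2 * C.E * C.h * C.π' * C.R * C.κinv))
      x (fun i => ev x (C.γ (bv i))) (fun i => ev x (C.D (bv i) C.u)) (ζ x)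
      (ev x (- (Nring Ω a b * C.E * C.ρ * C.h))) hb
      (mul_ne_zero hab (by rw [hNx]; exact hNne x)) (hq x)
    · have h := congrArg (ev x) C.dual_uu
      unfold ConfData.dual at h
      simp only [map_sub, map_mul, map_zero] at h
      linear_combination h
    · intro h0
      have h := congrArg (ev x) C.dual_uT
      unfold ConfData.dual at h
      have e : ∀ i, ev x (C.D (bv i) C.u) = 0 := fun i => congrFun h0 i
      simp only [map_sub, map_mul, e, zero_mul, sub_zero] at h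
      have hs := congrArg (ev x) C.hρ
      rw [map_mul, ← h, mul_zero, map_one] at hs
      exact zero_ne_one hs
    · intro v
      rw [hζ, hγ, ← map_mul, ← zeta_identity C hD a b f hf hρ v, map_add, map_mul, map_mul,
        ev_thr, (hαβ x).2 v, hNx, hρx]
    · intro v w hvw
      rw [hγ, hγ, hn, hn, ← ev_thr, ← ev_thr, hNx]
      have h := congrArg (ev x) (ring_identity C hD a b f hf hρ hvw)
      simp only [map_sub, map_add, map_mul, AlgHom.commutes, Algebra.algebraMap_self,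
        RingHom.id_apply, map_ofNat] at h ⊢
      linear_combination h
  exact final_contra a b α lm β hb hab Ω Ω.2 x₀ x₀.2 N ρ ζ (fun x _ => rfl) (fun x _ => rfl)
    (fun x hx => by
      have := hNne ⟨x, hx⟩
      rwa [ev_N] at this)
    (fun x hx => by
      have := hρne ⟨x, hx⟩
      rwa [(hαβ ⟨x, hx⟩).1] at this)
    (fun x hx => hq ⟨x, hx⟩) (fun x _ v => hζ x v)
    (fun x hx => (hpt ⟨x, hx⟩).1) (fun x hx => (hpt ⟨x, hx⟩).2)

/-- The contradiction for `a + b = 0`, `a < 0`. -/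
theorem no_vsring_aux {Ω : TopologicalSpace.Opens (Fin 4 → ℝ)} (x : Ω) (C : VSRing (Sm Ω))
    (hD : ∀ v f, C.D v f = Sm.D v f) (a b : ℝ) (ha : a < 0) (hab : a + b = 0)
    (f : Sm Ω) (hf : f ^ 2 * Nring Ω a b = 1) (hρ : C.ρ = f * C.E)
    (hN : 0 < ev x (Nring Ω a b)) (hs : 0 < ev x C.s)
    (hp : 0 < ev x (C.κ * (C.π * C.R + C.κ))) : False := by
  have hγ : ∀ v, dot (fun i => ev x (C.γ (bv i))) v = ev x (C.γ v) := fun v =>
    dot_of_linear C.toConfData C.t (C.W ^ 2) x v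
  have hn : ∀ v, dot (fun i => ev x (C.D (bv i) C.u)) v = ev x (C.D v C.u) := by
    intro v
    have := dot_of_linear C.toConfData C.u 1 x v
    simpa only [one_mul] using this
  have hb : b = -a := by linarith
  rw [ev_N] at hN
  apply pointwise_aux (ev x (Nring Ω a b ^ 2 * C.E ^ 3 * C.h'))
      (ev x (algebraMap ℝ (Sm Ω) (-1 / 2) * Nring Ω a b ^ 2 * C.E * C.h * C.π' * C.R * C.κinv))
      (th a b x) (fun i => ev x (C.γ (bv i))) (fun i => ev x (C.D (bv i) C.u))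
  · simp only [th, Matrix.cons_val_zero, Matrix.cons_val_one, Matrix.cons_val]
    rw [hb] at hN ⊢
    nlinarith
  · have h := congrArg (ev x) C.dual_uu
    unfold ConfData.dual at h
    simp only [map_sub, map_mul, map_zero] at h
    linear_combination h
  · intro h0
    have h := congrArg (ev x) C.dual_uT
    unfold ConfData.dual at h
    have e : ∀ i, ev x (C.D (bv i) C.u) = 0 := fun i => congrFun h0 i
    simp only [map_sub, map_mul, e, zero_mul, sub_zero] at h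
    have hs := congrArg (ev x) C.hρ
    rw [map_mul, ← h, mul_zero, map_one] at hs
    exact zero_ne_one hs
  · have h := congrArg (ev x) C.dual_γγ
    have e : C.κ * C.s * (C.π * C.R + C.κ) = C.s * (C.κ * (C.π * C.R + C.κ)) := by ring
    rw [e, map_mul _ C.s] at h
    simp only [map_sub, map_pow] at h
    have := mul_pos hs hp
    rw [← h] at this
    linarith
  · intro v w hvw
    rw [hγ, hγ, hn, hn, ← ev_thr, ← ev_thr]
    have h := congrArg (ev x) (ring_identity C hD a b f hf hρ hvw)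
    rw [hab] at h
    simp only [map_sub, map_add, map_mul, AlgHom.commutes, Algebra.algebraMap_self,
      RingHom.id_apply, map_ofNat] at h ⊢
    linear_combination h

end Pool.Agent.H83.VS
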