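import Pool.Agent.H83.VS.Defs

/-!
# The two families that are subcases
-/

open scoped ContDiff Topology

namespace Pool.Agent.H83.VS

theorem fderiv_comp_apply {e : (Fin 4 → ℝ) → (Fin 4 → ℝ)} {x : Fin 4 → ℝ}
    (h : DifferentiableAt ℝ e x) (v : Fin 4 → ℝ) (i : Fin 4) :
    (fderiv ℝ e x v) i = fderiv ℝ (fun x => e x i) x v := by
  have := (ContinuousLinearMap.proj (R := ℝ) (φ := fun _ : Fin 4 => ℝ) i).hasFDerivAt.comp x
    h.hasFDerivAt
  have h2 : fderiv ℝ (fun p => e p i) x = _ := this.fderiv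
  rw [h2]
  rfl

theorem hasFDerivAt_coord (i : Fin 4) (x : Fin 4 → ℝ) :
    HasFDerivAt (fun x : Fin 4 → ℝ => x i)
      (ContinuousLinearMap.proj (R := ℝ) (φ := fun _ : Fin 4 => ℝ) i) x :=
  (ContinuousLinearMap.proj (R := ℝ) (φ := fun _ : Fin 4 => ℝ) i).hasFDerivAt

section flat

variable (a : ℝ)

/-- The data of the flat FLRW metric. -/
noncomputable def flatData (ha : 0 < a) : VSData where
  I := Set.Ioi 0
  J := Set.univ
  U := Set.Ioi 0 ×ˢ Set.univ
  ψ := fun s => Real.log a + 2 / 3 * Real.log (3 * s / a)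
  P := fun _ => 0
  F := fun _ => 0
  m := fun p => p.2 - Real.exp (Real.log (3 * p.1 / a) / 3)
  isOpen_I := isOpen_Ioi
  isOpen_J := isOpen_univ
  isOpen_U := isOpen_Ioi.prod isOpen_univ
  nonempty_U := ⟨(1, 0), by simp⟩
  smooth_ψ := by
    intro s hs
    have hs' : (0 : ℝ) < s := hs
    have hne : 3 * s / a ≠ 0 := by positivity
    apply ContDiffAt.contDiffWithinAt
    fun_prop (disch := assumption)
  smooth_P := contDiffOn_const
  hasDerivAt_F := fun y _ => hasDerivAt_const _ _
  smooth_m := by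
    intro s hs
    have hs' : (0 : ℝ) < s.1 := hs.1
    have hne : 3 * s.1 / a ≠ 0 := by positivity
    apply ContDiffAt.contDiffWithinAt
    fun_prop (disch := assumption)
  mem_I := fun p hp => hp.1
  mem_J := fun p _ => trivial
  pos := fun p _ => by simp
  deriv_r := fun p _ => by
    have := (hasDerivAt_id p.2).sub_const (Real.exp (Real.log (3 * p.1 / a) / 3))
    simpa using this
  deriv_t := fun p hp => by
    have hp' : (0 : ℝ) < p.1 := hp.1
    have hne : 3 * p.1 / a ≠ 0 := by positivity
    have h1 : HasDerivAt (fun t : ℝ => 3 * t / a) (3 / a) p.1 := by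
      simpa using ((hasDerivAt_id p.1).const_mul 3).div_const a
    have h2 := ((h1.log hne).div_const 3).exp
    have h3 := h2.const_sub p.2
    refine h3.congr_deriv ?_
    have e1 : Real.exp (-(Real.log a + 2 / 3 * Real.log (3 * p.1 / a)))
        = Real.exp (Real.log (3 * p.1 / a) / 3) * (3 * p.1 / a)⁻¹ * a⁻¹ := by
      rw [show -(Real.log a + 2 / 3 * Real.log (3 * p.1 / a))
        = Real.log (3 * p.1 / a) / 3 + - Real.log (3 * p.1 / a) + - Real.log a by ring,
        Real.exp_add, Real.exp_add, Real.exp_neg, Real.exp_neg, Real.exp_log (by positivity),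
        Real.exp_log ha]
    rw [e1]
    simp
    field_simp

/-- The coordinate change in the flat case. -/
noncomputable def flatMap (ha : 0 < a) : OpenPartialHomeomorph (Fin 4 → ℝ) (Fin 4 → ℝ) where
  toFun := fun x => ![a * x 0 ^ 3 / 3, x 1, x 2, x 3]
  invFun := fun y => ![Real.exp (Real.log (3 * y 0 / a) / 3), y 1, y 2, y 3]
  source := {x | 0 < x 0 ∧ x 1 ≠ 0 ∧ Real.sin (x 2) ≠ 0}
  target := {x | 0 < x 0 ∧ x 1 ≠ 0 ∧ Real.sin (x 2) ≠ 0}
  map_source' := by
    rintro x ⟨h0, h1, h2⟩
    exact ⟨by simp; positivity, h1, h2⟩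
  map_target' := by
    rintro x ⟨h0, h1, h2⟩
    exact ⟨by simp; positivity, h1, h2⟩
  left_inv' := by
    rintro x ⟨h0, h1, h2⟩
    ext i
    fin_cases i
    · simp only [Fin.zero_eta, Matrix.cons_val_zero]
      rw [show 3 * (a * x 0 ^ 3 / 3) / a = x 0 ^ 3 by field_simp, Real.log_pow]
      rw [show ((3 : ℕ) : ℝ) * Real.log (x 0) / 3 = Real.log (x 0) by push_cast; ring,
        Real.exp_log h0]
    · rfl
    · rfl
    · rfl
  right_inv' := by
    rintro y ⟨h0, h1, h2⟩
    ext i
    fin_cases i
    · simp only [Fin.zero_eta, Matrix.cons_val_zero]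
      rw [← Real.exp_nat_mul,
        show ((3 : ℕ) : ℝ) * (Real.log (3 * y 0 / a) / 3) = Real.log (3 * y 0 / a) by
          push_cast; ring, Real.exp_log (by positivity)]
      field_simp
    · rfl
    · rfl
    · rfl
  open_source := by
    apply (isOpen_lt continuous_const (continuous_apply 0)).inter
    apply (isOpen_ne_fun (continuous_apply 1) continuous_const).inter
    exact isOpen_ne_fun (Real.continuous_sin.comp (continuous_apply 2)) continuous_const
  open_target := by
    apply (isOpen_lt continuous_const (continuous_apply 0)).inter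
    apply (isOpen_ne_fun (continuous_apply 1) continuous_const).inter
    exact isOpen_ne_fun (Real.continuous_sin.comp (continuous_apply 2)) continuous_const
  continuousOn_toFun := by
    apply Continuous.continuousOn
    rw [continuous_pi_iff]
    intro i
    fin_cases i <;> simp <;> fun_prop
  continuousOn_invFun := by
    rw [continuousOn_pi]
    intro i
    fin_cases i
    · intro x hx
      have h0 : 0 < x 0 := hx.1
      have hne : 3 * x 0 / a ≠ 0 := by positivity
      have ha' : a ≠ 0 := ha.ne'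
      have h3 : (3 : ℝ) ≠ 0 := by norm_num
      apply ContinuousAt.continuousWithinAt
      simp only [Fin.zero_eta, Matrix.cons_val_zero]
      apply ContDiffAt.continuousAt (n := ∞) (𝕜 := ℝ)
      fun_prop (disch := assumption)
    · exact (continuous_apply 1).continuousOn
    · exact (continuous_apply 2).continuousOn
    · exact (continuous_apply 3).continuousOn

theorem isSubcase_flat (ha : 0 < a) : IsSubcase a 0 := by
  have hsm : ContDiff ℝ ∞ (flatMap a ha) := by
    show ContDiff ℝ ∞ (fun x : Fin 4 → ℝ => ![a * x 0 ^ 3 / 3, x 1, x 2, x 3])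
    rw [contDiff_pi]
    intro i
    fin_cases i <;> simp <;> fun_prop
  refine ⟨flatData a ha, flatMap a ha, ⟨![1, 1, Real.pi / 2, 0], ?_⟩, ?_, ?_, hsm.contDiffOn,
    ?_, ?_⟩
  · simp [flatMap]
  · rintro x ⟨h0, h1, h2⟩
    exact ⟨by positivity, h1, h2⟩
  · rintro x ⟨h0, h1, h2⟩
    exact ⟨⟨h0, trivial⟩, h1, h2⟩
  · show ContDiffOn ℝ ∞
      (fun y : Fin 4 → ℝ => ![Real.exp (Real.log (3 * y 0 / a) / 3), y 1, y 2, y 3]) _
    rw [contDiffOn_pi]
    intro i
    fin_cases i
    · intro x hx
      have h0 : 0 < x 0 := hx.1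
      have hne : 3 * x 0 / a ≠ 0 := by positivity
      apply ContDiffAt.contDiffWithinAt
      simp only [Fin.zero_eta, Matrix.cons_val_zero]
      fun_prop (disch := assumption)
    · simp; fun_prop
    · simp; fun_prop
    · simp; fun_prop
  · rintro x ⟨h0, h1, h2⟩ v w
    have hd : DifferentiableAt ℝ (flatMap a ha) x := hsm.differentiable (by simp) x
    have e0 : ∀ v, (fderiv ℝ (flatMap a ha) x v) 0 = a * x 0 ^ 2 * v 0 := by
      intro v
      rw [fderiv_comp_apply hd]
      have h := (((hasFDerivAt_coord 0 x).pow 3).const_mul a).mul_const (1 / 3)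
      have hfun : (fun x => flatMap a ha x 0)
          = fun x : Fin 4 → ℝ => a * x 0 ^ 3 * (1 / 3) := by
        ext x
        simp [flatMap]
        ring
      rw [hfun, h.fderiv]
      simp
      ring
    have e1 : ∀ v, (fderiv ℝ (flatMap a ha) x v) 1 = v 1 := by
      intro v
      rw [fderiv_comp_apply hd]
      exact congrArg (fun L => L v) (hasFDerivAt_coord 1 x).fderiv
    have e2 : ∀ v, (fderiv ℝ (flatMap a ha) x v) 2 = v 2 := by
      intro v
      rw [fderiv_comp_apply hd]
      exact congrArg (fun L => L v) (hasFDerivAt_coord 2 x).fderiv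
    have e3 : ∀ v, (fderiv ℝ (flatMap a ha) x v) 3 = v 3 := by
      intro v
      rw [fderiv_comp_apply hd]
      exact congrArg (fun L => L v) (hasFDerivAt_coord 3 x).fderiv
    have hψ : Real.exp (((flatData a ha).ψ (flatMap a ha x 0)
        - (flatData a ha).F ((flatData a ha).m (flatMap a ha x 0, flatMap a ha x 1))) / 2) ^ 2
        = a * x 0 ^ 2 := by
      rw [← Real.exp_nat_mul]
      have : ((2 : ℕ) : ℝ) * (((flatData a ha).ψ (flatMap a ha x 0)
        - (flatData a ha).F ((flatData a ha).m (flatMap a ha x 0, flatMap a ha x 1))) / 2)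
        = Real.log a + ((2 : ℕ) : ℝ) * Real.log (x 0) := by
        have hx : flatMap a ha x 0 = a * x 0 ^ 3 / 3 := rfl
        have hl : Real.log (3 * (a * x 0 ^ 3 / 3) / a) = 3 * Real.log (x 0) := by
          rw [show 3 * (a * x 0 ^ 3 / 3) / a = x 0 ^ 3 by field_simp, Real.log_pow]
          push_cast; ring
        rw [hx]
        show ((2 : ℕ) : ℝ) * ((Real.log a + 2 / 3 * Real.log (3 * (a * x 0 ^ 3 / 3) / a) - 0) / 2)
          = _
        rw [hl]
        push_cast
        ring
      rw [this, Real.exp_add, Real.exp_log ha, Real.exp_nat_mul, Real.exp_log h0]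
    have hr : (flatData a ha).rbar (flatMap a ha x) ^ 2 = x 1 ^ 2 * (a * x 0 ^ 2) := by
      rw [VSData.rbar, mul_pow, hψ]
      rfl
    have hx1 : flatMap a ha x 1 = x 1 := rfl
    have hx2 : flatMap a ha x 2 = x 2 := rfl
    have hP : 1 + (flatData a ha).P
        ((flatData a ha).m (flatMap a ha x 0, x 1)) * x 1 = 1 := by
      show 1 + 0 * x 1 = 1
      ring
    rw [VSData.metric, hx2, div_pow, div_pow, hr, hx1, hP, e0, e0, e1, e1, e2, e2, e3, e3, soMetric]
    field_simp
    ring

end flat

section open_case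

variable (a : ℝ)

/-- The data of the open FLRW metric. -/
noncomputable def openData (ha : 0 < a) : VSData where
  I := Set.Ioi 0
  J := Set.univ
  U := Set.Ioi 0 ×ˢ Set.Ioi 0
  ψ := fun s => Real.log (4 * a * s) / 2
  P := fun _ => 2
  F := fun y => 2 * y
  m := fun p => - Real.log (4 * p.1 / a) / 4 + Real.log (1 + 2 * p.2) / 2
  isOpen_I := isOpen_Ioi
  isOpen_J := isOpen_univ
  isOpen_U := isOpen_Ioi.prod isOpen_Ioi
  nonempty_U := ⟨(1, 1), by simp⟩
  smooth_ψ := by
    intro s hs
    have hs' : (0 : ℝ) < s := hs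
    have hne : 4 * a * s ≠ 0 := by positivity
    apply ContDiffAt.contDiffWithinAt
    fun_prop (disch := assumption)
  smooth_P := contDiffOn_const
  hasDerivAt_F := fun y _ => by simpa using (hasDerivAt_id y).const_mul 2
  smooth_m := by
    intro s hs
    have hs' : (0 : ℝ) < s.1 := hs.1
    have hs'' : (0 : ℝ) < s.2 := hs.2
    have hne : 4 * s.1 / a ≠ 0 := by positivity
    have hne' : 1 + 2 * s.2 ≠ 0 := by positivity
    apply ContDiffAt.contDiffWithinAt
    fun_prop (disch := assumption)
  mem_I := fun p hp => hp.1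
  mem_J := fun p _ => trivial
  pos := fun p hp => by
    have : (0 : ℝ) < p.2 := hp.2
    positivity
  deriv_r := fun p hp => by
    have hp' : (0 : ℝ) < p.2 := hp.2
    have hne : 1 + 2 * p.2 ≠ 0 := by positivity
    have h1 : HasDerivAt (fun r : ℝ => 1 + 2 * r) 2 p.2 := by
      simpa using ((hasDerivAt_id p.2).const_mul 2).const_add 1
    have h2 := ((h1.log hne).div_const 2).const_add (- Real.log (4 * p.1 / a) / 4)
    refine h2.congr_deriv ?_
    field_simp
  deriv_t := fun p hp => by
    have hp' : (0 : ℝ) < p.1 := hp.1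
    have hp'' : (0 : ℝ) < p.2 := hp.2
    have hne : 4 * p.1 / a ≠ 0 := by positivity
    have h1 : HasDerivAt (fun t : ℝ => 4 * t / a) (4 / a) p.1 := by
      simpa using ((hasDerivAt_id p.1).const_mul 4).div_const a
    have h2 := (((h1.log hne).fun_neg).div_const 4).add_const (Real.log (1 + 2 * p.2) / 2)
    refine h2.congr_deriv ?_
    have e1 : Real.exp (-(Real.log (4 * a * p.1) / 2)) *
        Real.exp (2 * (- Real.log (4 * p.1 / a) / 4 + Real.log (1 + 2 * p.2) / 2))
        = (4 * p.1)⁻¹ * (1 + 2 * p.2) := by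
      rw [← Real.exp_add]
      have e2 : Real.log (4 * a * p.1) = Real.log (4 * p.1) + Real.log a := by
        rw [← Real.log_mul (by positivity) (by positivity)]
        congr 1; ring
      have e3 : Real.log (4 * p.1 / a) = Real.log (4 * p.1) - Real.log a :=
        Real.log_div (by positivity) (by positivity)
      rw [e2, e3, show -((Real.log (4 * p.1) + Real.log a) / 2)
          + 2 * (-(Real.log (4 * p.1) - Real.log a) / 4 + Real.log (1 + 2 * p.2) / 2)
          = - Real.log (4 * p.1) + Real.log (1 + 2 * p.2) by ring, Real.exp_add, Real.exp_neg,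
        Real.exp_log (by positivity), Real.exp_log (by positivity)]
    have e4 : -(Real.exp (-(Real.log (4 * a * p.1) / 2)) * (1 + 2 * p.2)⁻¹ *
        Real.exp (2 * (- Real.log (4 * p.1 / a) / 4 + Real.log (1 + 2 * p.2) / 2)))
        = - (4 * p.1)⁻¹ := by
      rw [mul_right_comm, e1]
      field_simp
    rw [e4]
    field_simp

/-- The coordinate change in the open case. -/
noncomputable def openMap (ha : 0 < a) : OpenPartialHomeomorph (Fin 4 → ℝ) (Fin 4 → ℝ) where
  toFun := fun x => ![a * (x 0 ^ 2 - x 1 ^ 2) ^ 2 / 4, x 1 / (x 0 - x 1), x 2, x 3]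
  invFun := fun y =>
    ![(Real.exp (Real.log (4 * y 0 / a) / 4 - Real.log (1 + 2 * y 1) / 2)
        + Real.exp (Real.log (4 * y 0 / a) / 4 + Real.log (1 + 2 * y 1) / 2)) / 2,
      (Real.exp (Real.log (4 * y 0 / a) / 4 + Real.log (1 + 2 * y 1) / 2)
        - Real.exp (Real.log (4 * y 0 / a) / 4 - Real.log (1 + 2 * y 1) / 2)) / 2, y 2, y 3]
  source := {x | 0 < x 1 ∧ x 1 < x 0 ∧ Real.sin (x 2) ≠ 0}
  target := {x | 0 < x 0 ∧ 0 < x 1 ∧ Real.sin (x 2) ≠ 0}
  map_source' := by
    rintro x ⟨h0, h1, h2⟩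
    have h3 : 0 < x 0 - x 1 := by linarith
    have h4 : 0 < x 0 ^ 2 - x 1 ^ 2 := by nlinarith
    exact ⟨by simp; positivity, by simp; positivity, h2⟩
  map_target' := by
    rintro y ⟨h0, h1, h2⟩
    have hM : 0 < Real.log (1 + 2 * y 1) := Real.log_pos (by linarith)
    refine ⟨?_, ?_, h2⟩
    · simp only [Matrix.cons_val_one, Matrix.cons_val_zero]
      have : Real.exp (Real.log (4 * y 0 / a) / 4 - Real.log (1 + 2 * y 1) / 2)
        < Real.exp (Real.log (4 * y 0 / a) / 4 + Real.log (1 + 2 * y 1) / 2) :=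
        Real.exp_lt_exp.2 (by linarith)
      linarith
    · simp only [Matrix.cons_val_one, Matrix.cons_val_zero]
      have := Real.exp_pos (Real.log (4 * y 0 / a) / 4 - Real.log (1 + 2 * y 1) / 2)
      linarith
  left_inv' := by
    rintro x ⟨h0, h1, h2⟩
    have h3 : 0 < x 0 - x 1 := by linarith
    have h4 : 0 < x 0 + x 1 := by linarith
    have hL : Real.log (4 * (a * (x 0 ^ 2 - x 1 ^ 2) ^ 2 / 4) / a)
        = 2 * (Real.log (x 0 - x 1) + Real.log (x 0 + x 1)) := by
      rw [← Real.log_mul h3.ne' h4.ne', show 4 * (a * (x 0 ^ 2 - x 1 ^ 2) ^ 2 / 4) / a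
        = ((x 0 - x 1) * (x 0 + x 1)) ^ 2 by field_simp; ring, Real.log_pow]
      push_cast; ring
    have hM : Real.log (1 + 2 * (x 1 / (x 0 - x 1)))
        = Real.log (x 0 + x 1) - Real.log (x 0 - x 1) := by
      rw [← Real.log_div h4.ne' h3.ne']
      congr 1
      field_simp
      ring
    have e1 : Real.exp (Real.log (4 * (a * (x 0 ^ 2 - x 1 ^ 2) ^ 2 / 4) / a) / 4
        - Real.log (1 + 2 * (x 1 / (x 0 - x 1))) / 2) = x 0 - x 1 := by
      rw [hL, hM, show 2 * (Real.log (x 0 - x 1) + Real.log (x 0 + x 1)) / 4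
        - (Real.log (x 0 + x 1) - Real.log (x 0 - x 1)) / 2 = Real.log (x 0 - x 1) by ring,
        Real.exp_log h3]
    have e2 : Real.exp (Real.log (4 * (a * (x 0 ^ 2 - x 1 ^ 2) ^ 2 / 4) / a) / 4
        + Real.log (1 + 2 * (x 1 / (x 0 - x 1))) / 2) = x 0 + x 1 := by
      rw [hL, hM, show 2 * (Real.log (x 0 - x 1) + Real.log (x 0 + x 1)) / 4
        + (Real.log (x 0 + x 1) - Real.log (x 0 - x 1)) / 2 = Real.log (x 0 + x 1) by ring,
        Real.exp_log h4]
    ext i
    fin_cases i
    · simp only [Fin.zero_eta, Matrix.cons_val_zero, Matrix.cons_val_one]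
      rw [e1, e2]
      ring
    · simp only [Fin.mk_one, Matrix.cons_val_zero, Matrix.cons_val_one]
      rw [e1, e2]
      ring
    · rfl
    · rfl
  right_inv' := by
    rintro y ⟨h0, h1, h2⟩
    have h3 : 0 < 4 * y 0 / a := by positivity
    have h4 : 0 < 1 + 2 * y 1 := by positivity
    set U := Real.exp (Real.log (4 * y 0 / a) / 4 - Real.log (1 + 2 * y 1) / 2) with hU
    set V := Real.exp (Real.log (4 * y 0 / a) / 4 + Real.log (1 + 2 * y 1) / 2) with hV
    have hUpos : 0 < U := Real.exp_pos _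
    have hUV : (U * V) ^ 2 = 4 * y 0 / a := by
      rw [hU, hV, ← Real.exp_add, ← Real.exp_nat_mul,
        show ((2 : ℕ) : ℝ) * (Real.log (4 * y 0 / a) / 4 - Real.log (1 + 2 * y 1) / 2
          + (Real.log (4 * y 0 / a) / 4 + Real.log (1 + 2 * y 1) / 2))
          = Real.log (4 * y 0 / a) by push_cast; ring, Real.exp_log h3]
    have hVU : V = U * (1 + 2 * y 1) := by
      rw [hU, hV, show Real.log (4 * y 0 / a) / 4 + Real.log (1 + 2 * y 1) / 2
        = (Real.log (4 * y 0 / a) / 4 - Real.log (1 + 2 * y 1) / 2)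
          + Real.log (1 + 2 * y 1) by ring, Real.exp_add, Real.exp_log h4]
    ext i
    fin_cases i
    · simp only [Fin.zero_eta, Matrix.cons_val_zero, Matrix.cons_val_one]
      rw [show ((U + V) / 2) ^ 2 - ((V - U) / 2) ^ 2 = U * V by ring, hUV]
      field_simp
    · simp only [Fin.mk_one, Matrix.cons_val_zero, Matrix.cons_val_one]
      rw [show (U + V) / 2 - (V - U) / 2 = U by ring, hVU]
      field_simp
      ring
    · rfl
    · rfl
  open_source := by
    apply (isOpen_lt continuous_const (continuous_apply 1)).inter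
    apply (isOpen_lt (continuous_apply 1) (continuous_apply 0)).inter
    exact isOpen_ne_fun (Real.continuous_sin.comp (continuous_apply 2)) continuous_const
  open_target := by
    apply (isOpen_lt continuous_const (continuous_apply 0)).inter
    apply (isOpen_lt continuous_const (continuous_apply 1)).inter
    exact isOpen_ne_fun (Real.continuous_sin.comp (continuous_apply 2)) continuous_const
  continuousOn_toFun := by
    rw [continuousOn_pi]
    intro i
    fin_cases i
    · simp; fun_prop
    · intro x hx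
      have h3 : x 0 - x 1 ≠ 0 := (sub_pos.2 hx.2.1).ne'
      apply ContinuousAt.continuousWithinAt
      simp only [Fin.mk_one, Matrix.cons_val_one, Matrix.cons_val_zero]
      apply ContDiffAt.continuousAt (n := ∞) (𝕜 := ℝ)
      fun_prop (disch := assumption)
    · exact (continuous_apply 2).continuousOn
    · exact (continuous_apply 3).continuousOn
  continuousOn_invFun := by
    rw [continuousOn_pi]
    intro i
    fin_cases i
    · intro x hx
      have h0 : 0 < x 0 := hx.1
      have h1 : 0 < x 1 := hx.2.1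
      have hne : 4 * x 0 / a ≠ 0 := by positivity
      have hne' : 1 + 2 * x 1 ≠ 0 := by positivity
      apply ContinuousAt.continuousWithinAt
      simp only [Fin.zero_eta, Matrix.cons_val_zero]
      apply ContDiffAt.continuousAt (n := ∞) (𝕜 := ℝ)
      fun_prop (disch := assumption)
    · intro x hx
      have h0 : 0 < x 0 := hx.1
      have h1 : 0 < x 1 := hx.2.1
      have hne : 4 * x 0 / a ≠ 0 := by positivity
      have hne' : 1 + 2 * x 1 ≠ 0 := by positivity
      apply ContinuousAt.continuousWithinAt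
      simp only [Fin.mk_one, Matrix.cons_val_one, Matrix.cons_val_zero]
      apply ContDiffAt.continuousAt (n := ∞) (𝕜 := ℝ)
      fun_prop (disch := assumption)
    · exact (continuous_apply 2).continuousOn
    · exact (continuous_apply 3).continuousOn

theorem isSubcase_open (ha : 0 < a) : IsSubcase a (-a) := by
  have hsm : ContDiffOn ℝ ∞ (openMap a ha) (openMap a ha).source := by
    show ContDiffOn ℝ ∞
      (fun x : Fin 4 → ℝ => ![a * (x 0 ^ 2 - x 1 ^ 2) ^ 2 / 4, x 1 / (x 0 - x 1), x 2, x 3]) _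
    rw [contDiffOn_pi]
    intro i
    fin_cases i
    · simp; fun_prop
    · intro x hx
      have h3 : x 0 - x 1 ≠ 0 := (sub_pos.2 hx.2.1).ne'
      apply ContDiffAt.contDiffWithinAt
      simp only [Fin.mk_one, Matrix.cons_val_one, Matrix.cons_val_zero]
      fun_prop (disch := assumption)
    · simp; fun_prop
    · simp; fun_prop
  refine ⟨openData a ha, openMap a ha, ⟨![2, 1, Real.pi / 2, 0], ?_⟩, ?_, ?_, hsm,
    ?_, ?_⟩
  · simp [openMap]
  · rintro x ⟨h0, h1, h2⟩
    have h3 : 0 < x 0 - x 1 := by linarith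
    refine ⟨?_, h0.ne', h2⟩
    have h4 : 0 < x 0 ^ 2 - x 1 ^ 2 := by nlinarith
    have h5 := mul_pos ha h4
    nlinarith
  · rintro x ⟨h0, h1, h2⟩
    exact ⟨⟨h0, h1⟩, h1.ne', h2⟩
  · show ContDiffOn ℝ ∞ (fun y : Fin 4 → ℝ =>
      ![(Real.exp (Real.log (4 * y 0 / a) / 4 - Real.log (1 + 2 * y 1) / 2)
        + Real.exp (Real.log (4 * y 0 / a) / 4 + Real.log (1 + 2 * y 1) / 2)) / 2,
      (Real.exp (Real.log (4 * y 0 / a) / 4 + Real.log (1 + 2 * y 1) / 2)
        - Real.exp (Real.log (4 * y 0 / a) / 4 - Real.log (1 + 2 * y 1) / 2)) / 2, y 2, y 3]) _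
    rw [contDiffOn_pi]
    intro i
    fin_cases i
    · intro x hx
      have h0 : 0 < x 0 := hx.1
      have h1 : 0 < x 1 := hx.2.1
      have hne : 4 * x 0 / a ≠ 0 := by positivity
      have hne' : 1 + 2 * x 1 ≠ 0 := by positivity
      apply ContDiffAt.contDiffWithinAt
      simp only [Fin.zero_eta, Matrix.cons_val_zero]
      fun_prop (disch := assumption)
    · intro x hx
      have h0 : 0 < x 0 := hx.1
      have h1 : 0 < x 1 := hx.2.1
      have hne : 4 * x 0 / a ≠ 0 := by positivity
      have hne' : 1 + 2 * x 1 ≠ 0 := by positivity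
      apply ContDiffAt.contDiffWithinAt
      simp only [Fin.mk_one, Matrix.cons_val_one, Matrix.cons_val_zero]
      fun_prop (disch := assumption)
    · simp; fun_prop
    · simp; fun_prop
  · rintro x ⟨h0, h1, h2⟩ v w
    have hA : 0 < x 0 - x 1 := by linarith
    have hB : 0 < x 0 + x 1 := by linarith
    have hd : DifferentiableAt ℝ (openMap a ha) x :=
      ((hsm.contDiffAt ((openMap a ha).open_source.mem_nhds ⟨h0, h1, h2⟩))).differentiableAt
        (by simp)
    have e0 : ∀ v, (fderiv ℝ (openMap a ha) x v) 0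
        = a * (x 0 ^ 2 - x 1 ^ 2) * (x 0 * v 0 - x 1 * v 1) := by
      intro v
      rw [fderiv_comp_apply hd]
      have h := (((((hasFDerivAt_coord 0 x).pow 2).fun_sub ((hasFDerivAt_coord 1 x).pow 2)).pow
        2).const_mul a).mul_const (1 / 4)
      have hfun : (fun x => openMap a ha x 0)
          = fun x : Fin 4 → ℝ => a * (x 0 ^ 2 - x 1 ^ 2) ^ 2 * (1 / 4) := by
        ext x
        simp [openMap]
        ring
      rw [hfun, h.fderiv]
      simp
      ring
    have e1 : ∀ v, (fderiv ℝ (openMap a ha) x v) 1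
        = (x 0 * v 1 - x 1 * v 0) / (x 0 - x 1) ^ 2 := by
      intro v
      rw [fderiv_comp_apply hd]
      have hq : DifferentiableAt ℝ (fun x => openMap a ha x 1) x :=
        differentiableAt_pi.1 hd 1
      have hs : HasFDerivAt (fun x : Fin 4 → ℝ => x 0 - x 1)
          (ContinuousLinearMap.proj (R := ℝ) (φ := fun _ : Fin 4 => ℝ) 0
            - ContinuousLinearMap.proj (R := ℝ) (φ := fun _ : Fin 4 => ℝ) 1) x :=
        (hasFDerivAt_coord 0 x).fun_sub (hasFDerivAt_coord 1 x)
      have h := HasFDerivAt.fun_mul hq.hasFDerivAt hs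
      have heq : (fun x : Fin 4 → ℝ => openMap a ha x 1 * (x 0 - x 1))
          =ᶠ[𝓝 x] fun x : Fin 4 → ℝ => x 1 := by
        filter_upwards [(openMap a ha).open_source.mem_nhds ⟨h0, h1, h2⟩] with y hy
        have h3 : y 0 - y 1 ≠ 0 := (sub_pos.2 hy.2.1).ne'
        show y 1 / (y 0 - y 1) * (y 0 - y 1) = y 1
        field_simp
      have h' := Filter.EventuallyEq.fderiv_eq (𝕜 := ℝ) heq
      rw [h.fderiv, (hasFDerivAt_coord 1 x).fderiv] at h'
      have h'' := congrArg (fun L => L v) h'
      have hx : openMap a ha x 1 = x 1 / (x 0 - x 1) := rfl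
      simp only [hx, add_apply, smul_apply,
        sub_apply, ContinuousLinearMap.proj_apply, smul_eq_mul] at h''
      rw [eq_div_iff (pow_ne_zero 2 hA.ne')]
      have h3 : x 1 / (x 0 - x 1) * (x 0 - x 1) = x 1 := by field_simp
      linear_combination (x 0 - x 1) * h'' - (v 0 - v 1) * h3
    have e2 : ∀ v, (fderiv ℝ (openMap a ha) x v) 2 = v 2 := by
      intro v
      rw [fderiv_comp_apply hd]
      exact congrArg (fun L => L v) (hasFDerivAt_coord 2 x).fderiv
    have e3 : ∀ v, (fderiv ℝ (openMap a ha) x v) 3 = v 3 := by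
      intro v
      rw [fderiv_comp_apply hd]
      exact congrArg (fun L => L v) (hasFDerivAt_coord 3 x).fderiv
    have hx0 : openMap a ha x 0 = a * (x 0 ^ 2 - x 1 ^ 2) ^ 2 / 4 := rfl
    have hx1 : openMap a ha x 1 = x 1 / (x 0 - x 1) := rfl
    have hx2 : openMap a ha x 2 = x 2 := rfl
    have hψ : Real.exp (((openData a ha).ψ (openMap a ha x 0)
        - (openData a ha).F ((openData a ha).m (openMap a ha x 0, openMap a ha x 1))) / 2) ^ 2
        = a * (x 0 - x 1) ^ 3 * (x 0 + x 1) := by
      rw [← Real.exp_nat_mul]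
      have : ((2 : ℕ) : ℝ) * (((openData a ha).ψ (openMap a ha x 0)
        - (openData a ha).F ((openData a ha).m (openMap a ha x 0, openMap a ha x 1))) / 2)
        = Real.log a + ((3 : ℕ) : ℝ) * Real.log (x 0 - x 1) + Real.log (x 0 + x 1) := by
        rw [hx0, hx1]
        show ((2 : ℕ) : ℝ) * ((Real.log (4 * a * (a * (x 0 ^ 2 - x 1 ^ 2) ^ 2 / 4)) / 2
          - 2 * (- Real.log (4 * (a * (x 0 ^ 2 - x 1 ^ 2) ^ 2 / 4) / a) / 4
            + Real.log (1 + 2 * (x 1 / (x 0 - x 1))) / 2)) / 2) = _
        have hL1 : Real.log (4 * a * (a * (x 0 ^ 2 - x 1 ^ 2) ^ 2 / 4))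
            = 2 * (Real.log a + Real.log (x 0 - x 1) + Real.log (x 0 + x 1)) := by
          rw [← Real.log_mul ha.ne' hA.ne', ← Real.log_mul (mul_pos ha hA).ne' hB.ne',
            show 4 * a * (a * (x 0 ^ 2 - x 1 ^ 2) ^ 2 / 4)
            = (a * (x 0 - x 1) * (x 0 + x 1)) ^ 2 by ring, Real.log_pow]
          push_cast; ring
        have hL : Real.log (4 * (a * (x 0 ^ 2 - x 1 ^ 2) ^ 2 / 4) / a)
            = 2 * (Real.log (x 0 - x 1) + Real.log (x 0 + x 1)) := by
          rw [← Real.log_mul hA.ne' hB.ne', show 4 * (a * (x 0 ^ 2 - x 1 ^ 2) ^ 2 / 4) / a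
            = ((x 0 - x 1) * (x 0 + x 1)) ^ 2 by field_simp; ring, Real.log_pow]
          push_cast; ring
        have hM : Real.log (1 + 2 * (x 1 / (x 0 - x 1)))
            = Real.log (x 0 + x 1) - Real.log (x 0 - x 1) := by
          rw [← Real.log_div hB.ne' hA.ne']
          congr 1
          field_simp
          ring
        rw [hL1, hL, hM]
        push_cast
        ring
      rw [this, Real.exp_add, Real.exp_add, Real.exp_log ha, Real.exp_nat_mul, Real.exp_log hA,
        Real.exp_log hB]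
    have hr : (openData a ha).rbar (openMap a ha x) ^ 2
        = (x 1 / (x 0 - x 1)) ^ 2 * (a * (x 0 - x 1) ^ 3 * (x 0 + x 1)) := by
      rw [VSData.rbar, mul_pow, hψ]
      rfl
    have hP : 1 + (openData a ha).P
        ((openData a ha).m (openMap a ha x 0, x 1 / (x 0 - x 1))) * (x 1 / (x 0 - x 1))
        = (x 0 + x 1) / (x 0 - x 1) := by
      show 1 + 2 * (x 1 / (x 0 - x 1)) = _
      field_simp
      ring
    have hxx : x 0 ^ 2 - x 1 ^ 2 = (x 0 - x 1) * (x 0 + x 1) := by ring
    rw [VSData.metric, hx2, div_pow, div_pow, hr, hx1, hP, e0, e0, e1, e1, e2, e2, e3, e3,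
      soMetric, hxx]
    have h0' := h0.ne'
    generalize hAA : x 0 - x 1 = A at *
    generalize hBB : x 0 + x 1 = B at *
    have hA' := hA.ne'
    have hB' := hB.ne'
    have hx0' : x 0 = (A + B) / 2 := by rw [← hAA, ← hBB]; ring
    have hx1' : x 1 = (B - A) / 2 := by rw [← hAA, ← hBB]; ring
    field_simp
    rw [hx0', hx1']
    ring

end open_case

theorem isSubcase_of {a b : ℝ} (ha : 0 < a) (h : b = 0 ∨ a + b = 0) : IsSubcase a b := by
  rcases h with h | h
  · rw [h]; exact isSubcase_flat a ha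
  · rw [show b = -a by linarith]; exact isSubcase_open a ha

end Pool.Agent.H83.VS
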