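import Pool.Agent.H83.VS.Hess

/-!
# The conformally flat coordinates of the first Vaidya-Shah class

From the pulled back coordinates `(t, r, ϑ, φ)` and functions of a first-class metric we build the
conformal map `(T, X, Y, Z)`, `T = u + R`, `R = r e^{-F/2}`, `du = - e^{-F/2} dm`.
-/

namespace Pool.Agent.H83.VS

/-- Sines, cosines and angles in a differential ring. -/
structure Angles (A : Type*) [CommRing A] [Algebra ℝ A]
    (D : (Fin 4 → ℝ) →ₗ[ℝ] Derivation ℝ A A) where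
  ϑ : A
  φ : A
  sϑ : A
  cϑ : A
  sφ : A
  cφ : A
  hsϑ : ∀ v, D v sϑ = cϑ * D v ϑ
  hcϑ : ∀ v, D v cϑ = - sϑ * D v ϑ
  hsφ : ∀ v, D v sφ = cφ * D v φ
  hcφ : ∀ v, D v cφ = - sφ * D v φ
  pϑ : sϑ ^ 2 + cϑ ^ 2 = 1
  pφ : sφ ^ 2 + cφ ^ 2 = 1

namespace Angles

variable {A : Type*} [CommRing A] [Algebra ℝ A] {D : (Fin 4 → ℝ) →ₗ[ℝ] Derivation ℝ A A}
  (G : Angles A D)

/-- The metric of the unit sphere. -/
def ang (v w : Fin 4 → ℝ) : A := D v G.ϑ * D w G.ϑ + G.sϑ ^ 2 * (D v G.φ * D w G.φ)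

theorem sphere (R : A) :
    R ^ 2 = (R * G.sϑ * G.cφ) ^ 2 + (R * G.sϑ * G.sφ) ^ 2 + (R * G.cϑ) ^ 2 := by
  linear_combination (- R ^ 2) * G.pϑ - (R * G.sϑ) ^ 2 * G.pφ

theorem metric (R : A) (v w : Fin 4 → ℝ) :
    D v (R * G.sϑ * G.cφ) * D w (R * G.sϑ * G.cφ)
      + D v (R * G.sϑ * G.sφ) * D w (R * G.sϑ * G.sφ)
      + D v (R * G.cϑ) * D w (R * G.cϑ)
    = D v R * D w R + R ^ 2 * G.ang v w := by
  have e1 : ∀ v, D v (R * G.sϑ * G.cφ)
      = D v R * G.sϑ * G.cφ + R * (G.cϑ * D v G.ϑ) * G.cφ - R * G.sϑ * (G.sφ * D v G.φ) := by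
    intro v
    simp only [Derivation.leibniz, smul_eq_mul, G.hsϑ, G.hcφ]
    ring
  have e2 : ∀ v, D v (R * G.sϑ * G.sφ)
      = D v R * G.sϑ * G.sφ + R * (G.cϑ * D v G.ϑ) * G.sφ + R * G.sϑ * (G.cφ * D v G.φ) := by
    intro v
    simp only [Derivation.leibniz, smul_eq_mul, G.hsϑ, G.hsφ]
    ring
  have e3 : ∀ v, D v (R * G.cϑ) = D v R * G.cϑ - R * (G.sϑ * D v G.ϑ) := by
    intro v
    simp only [Derivation.leibniz, smul_eq_mul, G.hcϑ]
    ring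
  rw [e1, e1, e2, e2, e3, e3, ang]
  have p1 := G.pϑ
  have p2 := G.pφ
  linear_combination
    ((D v R * G.sϑ + R * (G.cϑ * D v G.ϑ)) * (D w R * G.sϑ + R * (G.cϑ * D w G.ϑ))
      + R ^ 2 * G.sϑ ^ 2 * D v G.φ * D w G.φ) * p2
    + (D v R * D w R + R ^ 2 * D v G.ϑ * D w G.ϑ) * p1

end Angles

/-- The pulled back coordinates and functions of a first-class metric. -/
structure PreVS (A : Type*) [CommRing A] [Algebra ℝ A] where
  D : (Fin 4 → ℝ) →ₗ[ℝ] Derivation ℝ A A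
  comm : ∀ v w f, D v (D w f) = D w (D v f)
  G : Angles A D
  N : A
  f : A
  hf : f ^ 2 * N = 1
  t : A
  r : A
  rinv : A
  m : A
  u : A
  κ : A
  κinv : A
  π : A
  π' : A
  W : A
  E : A
  h : A
  h' : A
  jinv : A
  hj : (1 + π * r) * jinv = 1
  hrinv : r * rinv = 1
  hκinv : κ * κinv = 1
  hEW : E * W = 1
  hm : ∀ v, (1 + π * r) * D v m = D v r - κinv ^ 2 * W ^ 2 * D v t
  hu : ∀ v, D v u = - κ * D v m
  hκ : ∀ v, 2 * D v κ = - π * κ * D v m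
  hπ : ∀ v, D v π = π' * D v m
  hW : ∀ v, D v W = h * (W ^ 2 * D v t)
  hh : ∀ v, D v h = h' * D v t
  hg : ∀ v w, κinv ^ 2 * W ^ 2 * D v t * D w t - E ^ 2 * κ ^ 2 * D v r * D w r
    = (1 + π * r) * (N * algebraMap ℝ A (eta v w) + E ^ 2 * (r * κ) ^ 2 * G.ang v w)

namespace PreVS

variable {A : Type*} [CommRing A] [Algebra ℝ A] (B : PreVS A)

theorem conf_aux (v w : Fin 4 → ℝ) :
    B.D v (B.u + B.r * B.κ) * B.D w (B.u + B.r * B.κ)
      - (B.D v (B.r * B.κ) * B.D w (B.r * B.κ) + (B.r * B.κ) ^ 2 * B.G.ang v w)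
    = algebraMap ℝ A (eta v w) * (B.N * B.W ^ 2) := by
  have hg := B.hg v w
  have hm1 := B.hm v
  have hm2 := B.hm w
  have hu1 := B.hu v
  have hu2 := B.hu w
  have hk1 := B.hκ v
  have hk2 := B.hκ w
  have hEW := B.hEW
  have hκinv := B.hκinv
  have hj := B.hj
  simp only [map_add, Derivation.leibniz, smul_eq_mul]
  rw [hu1, hu2]
  -- the left side is `κ² (j m_v m_w - m_v r_w - m_w r_v) - R² ang`
  have e1 : (-B.κ * B.D v B.m + (B.r * B.D v B.κ + B.κ * B.D v B.r))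
        * (-B.κ * B.D w B.m + (B.r * B.D w B.κ + B.κ * B.D w B.r))
      - ((B.r * B.D v B.κ + B.κ * B.D v B.r) * (B.r * B.D w B.κ + B.κ * B.D w B.r)
        + (B.r * B.κ) ^ 2 * B.G.ang v w)
      = B.κ ^ 2 * ((1 + B.π * B.r) * B.D v B.m * B.D w B.m - B.D v B.m * B.D w B.r
        - B.D w B.m * B.D v B.r) - (B.r * B.κ) ^ 2 * B.G.ang v w := by
    apply VSRing.two_cancel
    linear_combination (- B.κ * B.r * B.D v B.m) * hk2 - (B.κ * B.r * B.D w B.m) * hk1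
  rw [e1]
  have e2 : (1 + B.π * B.r) * (B.κ ^ 2 * ((1 + B.π * B.r) * B.D v B.m * B.D w B.m
        - B.D v B.m * B.D w B.r - B.D w B.m * B.D v B.r) - (B.r * B.κ) ^ 2 * B.G.ang v w)
      = (1 + B.π * B.r) * (algebraMap ℝ A (eta v w) * (B.N * B.W ^ 2)) := by
    have e3 : B.κ ^ 2 * B.κinv ^ 2 = 1 := by rw [← mul_pow, hκinv, one_pow]
    have e4 : B.E ^ 2 * B.W ^ 2 = 1 := by rw [← mul_pow, hEW, one_pow]
    have e5 : B.κ ^ 2 * ((1 + B.π * B.r) * B.D v B.m * ((1 + B.π * B.r) * B.D w B.m)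
          - (1 + B.π * B.r) * B.D v B.m * B.D w B.r - (1 + B.π * B.r) * B.D w B.m * B.D v B.r)
        = B.W ^ 2 * (B.κinv ^ 2 * B.W ^ 2 * B.D v B.t * B.D w B.t
          - B.E ^ 2 * B.κ ^ 2 * B.D v B.r * B.D w B.r) := by
      rw [hm1, hm2]
      linear_combination (B.κinv ^ 2 * B.W ^ 4 * B.D v B.t * B.D w B.t) * e3
        + (B.κ ^ 2 * B.D v B.r * B.D w B.r) * e4
    rw [hg] at e5
    linear_combination e5 + (1 + B.π * B.r) * (B.r * B.κ) ^ 2 * B.G.ang v w * e4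
  linear_combination B.jinv * e2 - (B.κ ^ 2 * ((1 + B.π * B.r) * B.D v B.m * B.D w B.m
        - B.D v B.m * B.D w B.r - B.D w B.m * B.D v B.r) - (B.r * B.κ) ^ 2 * B.G.ang v w
        - algebraMap ℝ A (eta v w) * (B.N * B.W ^ 2)) * hj

/-- The conformally flat coordinates. -/
def toVSRing : VSRing A where
  D := B.D
  comm := B.comm
  T := B.u + B.r * B.κ
  X := B.r * B.κ * B.G.sϑ * B.G.cφ
  Y := B.r * B.κ * B.G.sϑ * B.G.sφ
  Z := B.r * B.κ * B.G.cϑ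
  s := B.N * B.W ^ 2
  ρ := B.f * B.E
  hρ := by
    have e : (B.E * B.W) ^ 2 = 1 := by rw [B.hEW, one_pow]
    linear_combination (B.f ^ 2 * B.N) * e + B.hf
  conf := fun v w => by
    rw [← B.conf_aux v w, ← B.G.metric (B.r * B.κ) v w]
    ring
  t := B.t
  m := B.m
  R := B.r * B.κ
  Rinv := B.rinv * B.κinv
  u := B.u
  κ := B.κ
  κinv := B.κinv
  π := B.π
  π' := B.π'
  W := B.W
  E := B.E
  h := B.h
  h' := B.h'
  hR := B.G.sphere _
  hRinv := by linear_combination B.hrinv * B.κ * B.κinv + B.hκinv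
  hκinv := B.hκinv
  hEW := B.hEW
  hT := fun v => map_add _ _ _
  hu := B.hu
  hκ := B.hκ
  hπ := B.hπ
  ht := fun v => by
    have h1 := B.hm v
    have h2 := B.hu v
    have h3 := B.hκ v
    have e3 : B.κ ^ 2 * B.κinv ^ 2 = 1 := by rw [← mul_pow, B.hκinv, one_pow]
    rw [map_add, Derivation.leibniz, smul_eq_mul, smul_eq_mul]
    linear_combination (2 * B.κ ^ 2) * h1 - (2 * B.W ^ 2 * B.D v B.t) * e3
      - (2 * B.κ + B.π * B.r * B.κ) * h2 - (B.κ * B.r) * h3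
  hW := B.hW
  hh := B.hh

end PreVS

end Pool.Agent.H83.VS
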