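import Pool.Agent.H83.VS.Conformal

/-!
# Linear algebra at a point

Comparison of the trace-free Hessians of the two conformal factors at one point of Minkowski
space.
-/

namespace Pool.Agent.H83.VS

/-- The pairing of a covector with a vector. -/
def dot (p v : Fin 4 → ℝ) : ℝ := p 0 * v 0 + p 1 * v 1 + p 2 * v 2 + p 3 * v 3

/-- A symmetric matrix whose bilinear form vanishes on all orthogonal pairs is a multiple of the
Minkowski form. -/
theorem exists_mu (α : Fin 4 → Fin 4 → ℝ) (hs : ∀ i j, α i j = α j i)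
    (h : ∀ v w, eta v w = 0 → ∑ i, ∑ j, α i j * v i * w j = 0) :
    ∃ μ : ℝ, ∀ v w, ∑ i, ∑ j, α i j * v i * w j = μ * eta v w := by
  have h01 : α 0 1 = 0 := by
    simpa [eta, Fin.sum_univ_four] using h ![1, 0, 0, 0] ![0, 1, 0, 0] (by simp [eta])
  have h02 : α 0 2 = 0 := by
    simpa [eta, Fin.sum_univ_four] using h ![1, 0, 0, 0] ![0, 0, 1, 0] (by simp [eta])
  have h03 : α 0 3 = 0 := by
    simpa [eta, Fin.sum_univ_four] using h ![1, 0, 0, 0] ![0, 0, 0, 1] (by simp [eta])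
  have h12 : α 1 2 = 0 := by
    simpa [eta, Fin.sum_univ_four] using h ![0, 1, 0, 0] ![0, 0, 1, 0] (by simp [eta])
  have h13 : α 1 3 = 0 := by
    simpa [eta, Fin.sum_univ_four] using h ![0, 1, 0, 0] ![0, 0, 0, 1] (by simp [eta])
  have h23 : α 2 3 = 0 := by
    simpa [eta, Fin.sum_univ_four] using h ![0, 0, 1, 0] ![0, 0, 0, 1] (by simp [eta])
  have k1 : α 1 1 = - α 0 0 := by
    have := h ![2, 1, 0, 0] ![1, 2, 0, 0] (by simp [eta])
    simp [Fin.sum_univ_four, h01, hs 1 0] at this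
    linarith
  have k2 : α 2 2 = - α 0 0 := by
    have := h ![2, 0, 1, 0] ![1, 0, 2, 0] (by simp [eta])
    simp [Fin.sum_univ_four, h02, hs 2 0] at this
    linarith
  have k3 : α 3 3 = - α 0 0 := by
    have := h ![2, 0, 0, 1] ![1, 0, 0, 2] (by simp [eta])
    simp [Fin.sum_univ_four, h03, hs 3 0] at this
    linarith
  refine ⟨α 0 0, fun v w => ?_⟩
  simp only [Fin.sum_univ_four, hs 1 0, hs 2 0, hs 3 0, hs 2 1, hs 3 1, hs 3 2, h01, h02, h03,
    h12, h13, h23, k1, k2, k3, eta]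
  ring

/-- The covector with vector dual `n♯`. -/
def sharp (n : Fin 4 → ℝ) : Fin 4 → ℝ := ![n 0, -n 1, -n 2, -n 3]

theorem eta_sharp (n w : Fin 4 → ℝ) : eta (sharp n) w = dot n w := by
  simp [eta, sharp, dot]

/-- Three linear forms on `ℝ⁴` have a common zero. -/
theorem exists_common_zero (a b c : Fin 4 → ℝ) :
    ∃ z : Fin 4 → ℝ, z ≠ 0 ∧ dot a z = 0 ∧ dot b z = 0 ∧ dot c z = 0 := by
  let L : (Fin 4 → ℝ) →ₗ[ℝ] (Fin 3 → ℝ) :=
    { toFun := fun v => ![dot a v, dot b v, dot c v]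
      map_add' := fun v w => by
        ext i
        fin_cases i <;> simp [dot] <;> ring
      map_smul' := fun r v => by
        ext i
        fin_cases i <;> simp [dot] <;> ring }
  have hk : LinearMap.ker L ≠ ⊥ := by
    apply LinearMap.ker_ne_bot_of_finrank_lt
    simp
  obtain ⟨z, hz, hz0⟩ := Submodule.exists_mem_ne_zero_of_ne_bot hk
  have hz' : L z = 0 := hz
  refine ⟨z, hz0, ?_, ?_, ?_⟩
  · simpa [L] using congrFun hz' 0
  · simpa [L] using congrFun hz' 1
  · simpa [L] using congrFun hz' 2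

/-- If the difference of `3 θ⊗θ - s e₀⊗e₀` and `λ₁ p⊗p + λ₂ n⊗n` vanishes on orthogonal pairs
and `n` is null then it vanishes. -/
theorem mu_zero (θ p n : Fin 4 → ℝ) (s l1 l2 : ℝ)
    (hn : n 0 ^ 2 = n 1 ^ 2 + n 2 ^ 2 + n 3 ^ 2)
    (h : ∀ v w, eta v w = 0 →
      3 * dot θ v * dot θ w - s * (v 0 * w 0) = l1 * dot p v * dot p w + l2 * dot n v * dot n w)
    (v w : Fin 4 → ℝ) :
    3 * dot θ v * dot θ w - s * (v 0 * w 0) = l1 * dot p v * dot p w + l2 * dot n v * dot n w := by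
  obtain ⟨μ, hμ⟩ := exists_mu
    (fun i j => 3 * θ i * θ j - s * ((![1, 0, 0, 0] : Fin 4 → ℝ) i * (![1, 0, 0, 0] : Fin 4 → ℝ) j)
      - l1 * p i * p j - l2 * n i * n j) (fun i j => by ring) (by
      intro v w hvw
      have := h v w hvw
      simp [Fin.sum_univ_four, dot] at this ⊢
      linear_combination this)
  have hS : ∀ v w, 3 * dot θ v * dot θ w - s * (v 0 * w 0) - l1 * dot p v * dot p w
      - l2 * dot n v * dot n w = μ * eta v w := by
    intro v w
    rw [← hμ v w]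
    simp [Fin.sum_univ_four, dot]
    ring
  have hμ0 : μ = 0 := by
    by_contra hne
    obtain ⟨z, hz0, hz1, hz2, hz3⟩ := exists_common_zero θ ![1, 0, 0, 0] p
    have hz2' : z 0 = 0 := by simpa [dot] using hz2
    have hnn : dot n (sharp n) = 0 := by
      simp [dot, sharp]
      linear_combination hn
    have h1 := hS (sharp n) z
    rw [hz1, hz3, hz2', hnn, eta_sharp] at h1
    have hnz : dot n z = 0 := by
      have : μ * dot n z = 0 := by linear_combination -h1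
      exact (mul_eq_zero.1 this).resolve_left hne
    have h2 : ∀ w, eta z w = 0 := by
      intro w
      have := hS z w
      rw [hz1, hz3, hz2', hnz] at this
      have h3 : μ * eta z w = 0 := by linear_combination -this
      exact (mul_eq_zero.1 h3).resolve_left hne
    apply hz0
    have e1 := h2 ![0, 1, 0, 0]
    have e2 := h2 ![0, 0, 1, 0]
    have e3 := h2 ![0, 0, 0, 1]
    simp [eta] at e1 e2 e3
    ext i
    fin_cases i <;> simp [hz2', e1, e2, e3]
  have := hS v w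
  rw [hμ0] at this
  linear_combination this

/-- The covector `θ = a t dt + b X·dX` at the point `x`. -/
def th (a b : ℝ) (x : Fin 4 → ℝ) : Fin 4 → ℝ := ![a * x 0, b * x 1, b * x 2, b * x 3]

/-- The main pointwise statement. -/
theorem pointwise_main (a b s l1 l2 : ℝ) (x p n ζ : Fin 4 → ℝ) (c : ℝ)
    (hb : b ≠ 0) (hs : s ≠ 0) (hx : x 1 ^ 2 + x 2 ^ 2 + x 3 ^ 2 ≠ 0)
    (hn : n 0 ^ 2 = n 1 ^ 2 + n 2 ^ 2 + n 3 ^ 2) (hn0 : n ≠ 0)
    (hζ : ∀ v, dot ζ v = c * dot p v)
    (h : ∀ v w, eta v w = 0 →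
      3 * dot (th a b x) v * dot (th a b x) w - s * (v 0 * w 0)
        = l1 * dot p v * dot p w + l2 * dot n v * dot n w) :
    (∀ w, w 0 = 0 → x 1 * w 1 + x 2 * w 2 + x 3 * w 3 = 0 → dot ζ w = 0) ∧
    ∃ τ ξ : ℝ, ξ ≠ 0 ∧ τ ^ 2 = ξ ^ 2 * (x 1 ^ 2 + x 2 ^ 2 + x 3 ^ 2) ∧
      ζ 0 * (3 * (a * x 0 * τ + b * ξ * (x 1 ^ 2 + x 2 ^ 2 + x 3 ^ 2)) * b
          * (x 1 ^ 2 + x 2 ^ 2 + x 3 ^ 2))
        = (x 1 * ζ 1 + x 2 * ζ 2 + x 3 * ζ 3) *
          (3 * (a * x 0 * τ + b * ξ * (x 1 ^ 2 + x 2 ^ 2 + x 3 ^ 2)) * (a * x 0) - s * τ) := by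
  set q := x 1 ^ 2 + x 2 ^ 2 + x 3 ^ 2 with hq
  have hqpos : 0 < q := lt_of_le_of_ne (by positivity) (Ne.symm hx)
  have H := mu_zero (th a b x) p n s l1 l2 hn h
  -- `n 0 ≠ 0`
  have hn00 : n 0 ≠ 0 := by
    intro h0
    apply hn0
    have h1 : n 1 ^ 2 + n 2 ^ 2 + n 3 ^ 2 = 0 := by rw [← hn, h0]; ring
    have e1 : n 1 = 0 := by nlinarith [sq_nonneg (n 1), sq_nonneg (n 2), sq_nonneg (n 3)]
    have e2 : n 2 = 0 := by nlinarith [sq_nonneg (n 1), sq_nonneg (n 2), sq_nonneg (n 3)]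
    have e3 : n 3 = 0 := by nlinarith [sq_nonneg (n 1), sq_nonneg (n 2), sq_nonneg (n 3)]
    ext i
    fin_cases i <;> simp [h0, e1, e2, e3]
  have hnn : dot n (sharp n) = 0 := by
    simp [dot, sharp]
    linear_combination hn
  have hstar : ∀ w, 3 * dot (th a b x) (sharp n) * dot (th a b x) w - s * (n 0 * w 0)
      = l1 * dot p (sharp n) * dot p w := by
    intro w
    have := H (sharp n) w
    rw [hnn] at this
    simp only [sharp] at this ⊢
    simp only [Matrix.cons_val_zero] at this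
    linear_combination this
  -- the two basic vectors
  have eX : dot (th a b x) ![0, x 1, x 2, x 3] = b * q := by
    simp [dot, th, hq]; ring
  have eT : dot (th a b x) ![1, 0, 0, 0] = a * x 0 := by
    simp [dot, th]
  have hX := hstar ![0, x 1, x 2, x 3]
  have hT := hstar ![1, 0, 0, 0]
  rw [eX] at hX
  rw [eT] at hT
  simp only [Matrix.cons_val_zero, mul_zero, sub_zero, mul_one] at hX hT
  have hl1p : l1 * dot p (sharp n) ≠ 0 := by
    intro h0
    rw [h0] at hX hT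
    have h1 : dot (th a b x) (sharp n) = 0 := by
      have : dot (th a b x) (sharp n) * (3 * (b * q)) = 0 := by linear_combination hX
      exact (mul_eq_zero.1 this).resolve_right (by positivity)
    rw [h1] at hT
    have : s * n 0 = 0 := by linear_combination -hT
    exact (mul_ne_zero hs hn00) this
  -- vanishing of `p` on the orthogonal space of `x`
  have hK : ∀ w, w 0 = 0 → x 1 * w 1 + x 2 * w 2 + x 3 * w 3 = 0 → dot (th a b x) w = 0 := by
    intro w h0 h1
    simp [dot, th, h0]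
    linear_combination b * h1
  have hpK : ∀ w, w 0 = 0 → x 1 * w 1 + x 2 * w 2 + x 3 * w 3 = 0 → dot p w = 0 := by
    intro w h0 h1
    have := hstar w
    rw [hK w h0 h1, h0] at this
    have h2 : (l1 * dot p (sharp n)) * dot p w = 0 := by linear_combination -this
    exact (mul_eq_zero.1 h2).resolve_left hl1p
  refine ⟨fun w h0 h1 => by rw [hζ, hpK w h0 h1, mul_zero], ?_⟩
  -- `l2 ≠ 0`
  have hl2 : l2 ≠ 0 := by
    intro h0
    have g1 := H ![1, 0, 0, 0] ![1, 0, 0, 0]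
    have g2 := H ![1, 0, 0, 0] ![0, x 1, x 2, x 3]
    have g3 := H ![0, x 1, x 2, x 3] ![0, x 1, x 2, x 3]
    rw [eX] at g2 g3
    rw [eT] at g1 g2
    simp only [Matrix.cons_val_zero, mul_zero, sub_zero, mul_one, h0, zero_mul, add_zero]
      at g1 g2 g3
    have key : 3 * s * (b * q) ^ 2 = 0 := by
      linear_combination (-(l1 * dot p ![0, x 1, x 2, x 3] ^ 2)) * g1
        - (3 * (a * x 0) * (a * x 0) - s) * g3
        + (3 * (a * x 0) * (b * q) + l1 * dot p ![1, 0, 0, 0] * dot p ![0, x 1, x 2, x 3]) * g2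
    have : 3 * s * (b * q) ^ 2 ≠ 0 := by positivity
    exact this key
  have hnK : ∀ w, w 0 = 0 → x 1 * w 1 + x 2 * w 2 + x 3 * w 3 = 0 → dot n w = 0 := by
    intro w h0 h1
    have := H ![1, 0, 0, 0] w
    rw [hK w h0 h1, h0, hpK w h0 h1] at this
    have e : dot n ![1, 0, 0, 0] = n 0 := by simp [dot]
    rw [e] at this
    have h2 : (l2 * n 0) * dot n w = 0 := by linear_combination -this
    exact (mul_eq_zero.1 h2).resolve_left (mul_ne_zero hl2 hn00)
  -- `n = (n 0, k x)`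
  set k := (n 1 * x 1 + n 2 * x 2 + n 3 * x 3) / q with hk
  have hkq : k * q = n 1 * x 1 + n 2 * x 2 + n 3 * x 3 := by
    rw [hk]; field_simp
  have hw := hnK ![0, n 1 - k * x 1, n 2 - k * x 2, n 3 - k * x 3] (by simp) (by
    simp
    linear_combination -hkq + k * hq)
  have hsum : (n 1 - k * x 1) ^ 2 + (n 2 - k * x 2) ^ 2 + (n 3 - k * x 3) ^ 2 = 0 := by
    simp [dot] at hw
    linear_combination hw + k * (hkq - k * hq)
  have e1 : n 1 - k * x 1 = 0 := by
    nlinarith [sq_nonneg (n 1 - k * x 1), sq_nonneg (n 2 - k * x 2), sq_nonneg (n 3 - k * x 3)]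
  have e2 : n 2 - k * x 2 = 0 := by
    nlinarith [sq_nonneg (n 1 - k * x 1), sq_nonneg (n 2 - k * x 2), sq_nonneg (n 3 - k * x 3)]
  have e3 : n 3 - k * x 3 = 0 := by
    nlinarith [sq_nonneg (n 1 - k * x 1), sq_nonneg (n 2 - k * x 2), sq_nonneg (n 3 - k * x 3)]
  have hn1 : n 1 = k * x 1 := by linarith
  have hn2 : n 2 = k * x 2 := by linarith
  have hn3 : n 3 = k * x 3 := by linarith
  have hτ : n 0 ^ 2 = (-k) ^ 2 * q := by
    rw [hn, hn1, hn2, hn3, hq]; ring
  refine ⟨n 0, -k, ?_, hτ, ?_⟩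
  · intro h0
    rw [h0] at hτ
    apply hn00
    have : n 0 ^ 2 = 0 := by rw [hτ]; ring
    exact pow_eq_zero_iff (two_ne_zero) |>.1 this
  · have hθn : dot (th a b x) (sharp n) = a * x 0 * n 0 + b * (-k) * q := by
      simp [dot, th, sharp, hn1, hn2, hn3, hq]; ring
    rw [hθn] at hX hT
    have z0 : ζ 0 = c * p 0 := by simpa [dot] using hζ ![1, 0, 0, 0]
    have zX : x 1 * ζ 1 + x 2 * ζ 2 + x 3 * ζ 3 = c * dot p ![0, x 1, x 2, x 3] := by
      rw [← hζ]; simp [dot]; ring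
    have pT : dot p ![1, 0, 0, 0] = p 0 := by simp [dot]
    rw [pT] at hT
    rw [zX, z0]
    linear_combination c * p 0 * hX - c * dot p ![0, x 1, x 2, x 3] * hT

/-- The pointwise statement in the case `a + b = 0`: the one-form `θ` is not spacelike. -/
theorem pointwise_aux (l1 l2 : ℝ) (θ p n : Fin 4 → ℝ)
    (hθ : θ 0 ^ 2 < θ 1 ^ 2 + θ 2 ^ 2 + θ 3 ^ 2)
    (hn : n 0 ^ 2 = n 1 ^ 2 + n 2 ^ 2 + n 3 ^ 2) (hn0 : n ≠ 0)
    (hp : p 1 ^ 2 + p 2 ^ 2 + p 3 ^ 2 < p 0 ^ 2)
    (h : ∀ v w, eta v w = 0 →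
      3 * dot θ v * dot θ w = l1 * dot p v * dot p w + l2 * dot n v * dot n w) : False := by
  have H0 := mu_zero θ p n 0 l1 l2 hn (fun v w hvw => by rw [← h v w hvw]; ring)
  have H : ∀ v w, 3 * dot θ v * dot θ w = l1 * dot p v * dot p w + l2 * dot n v * dot n w := by
    intro v w
    rw [← H0 v w]; ring
  have hn00 : n 0 ≠ 0 := by
    intro h0
    apply hn0
    have h1 : n 1 ^ 2 + n 2 ^ 2 + n 3 ^ 2 = 0 := by rw [← hn, h0]; ring
    have e1 : n 1 = 0 := by nlinarith [sq_nonneg (n 1), sq_nonneg (n 2), sq_nonneg (n 3)]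
    have e2 : n 2 = 0 := by nlinarith [sq_nonneg (n 1), sq_nonneg (n 2), sq_nonneg (n 3)]
    have e3 : n 3 = 0 := by nlinarith [sq_nonneg (n 1), sq_nonneg (n 2), sq_nonneg (n 3)]
    ext i
    fin_cases i <;> simp [h0, e1, e2, e3]
  have hnn : dot n (sharp n) = 0 := by
    simp [dot, sharp]
    linear_combination hn
  have hpn : dot p (sharp n) ≠ 0 := by
    intro h0
    have h1 : p 0 * n 0 = p 1 * n 1 + p 2 * n 2 + p 3 * n 3 := by
      simp [dot, sharp] at h0
      linarith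
    have h2 : (p 1 * n 1 + p 2 * n 2 + p 3 * n 3) ^ 2
        ≤ (p 1 ^ 2 + p 2 ^ 2 + p 3 ^ 2) * (n 1 ^ 2 + n 2 ^ 2 + n 3 ^ 2) := by
      nlinarith [sq_nonneg (p 1 * n 2 - p 2 * n 1), sq_nonneg (p 1 * n 3 - p 3 * n 1),
        sq_nonneg (p 2 * n 3 - p 3 * n 2)]
    rw [← h1, ← hn] at h2
    have h3 : 0 < n 0 ^ 2 := by positivity
    nlinarith
  have hstar : ∀ w, 3 * dot θ (sharp n) * dot θ w = l1 * dot p (sharp n) * dot p w := by
    intro w
    have := H (sharp n) w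
    rw [hnn] at this
    linear_combination this
  have hθθ : dot θ (sharp θ) = θ 0 ^ 2 - θ 1 ^ 2 - θ 2 ^ 2 - θ 3 ^ 2 := by
    simp [dot, sharp]; ring
  have hpp : dot p (sharp p) = p 0 ^ 2 - p 1 ^ 2 - p 2 ^ 2 - p 3 ^ 2 := by
    simp [dot, sharp]; ring
  have hsym : ∀ u v : Fin 4 → ℝ, dot u (sharp v) = dot v (sharp u) := by
    intro u v; simp [dot, sharp]; ring
  by_cases hl1 : l1 = 0
  · have h1 : dot θ (sharp n) = 0 := by
      have := hstar (sharp n)
      rw [hl1] at this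
      have h2 : dot θ (sharp n) * dot θ (sharp n) = 0 := by linear_combination this / 3
      exact mul_self_eq_zero.1 h2
    have h3 := H (sharp θ) (sharp θ)
    rw [hl1, hsym n θ, h1] at h3
    have h4 : dot θ (sharp θ) = 0 := by
      have h2 : dot θ (sharp θ) * dot θ (sharp θ) = 0 := by linear_combination h3 / 3
      exact mul_self_eq_zero.1 h2
    rw [hθθ] at h4
    linarith
  · -- `p` is a multiple of `θ`
    have hc : l1 * dot p (sharp n) ≠ 0 := mul_ne_zero hl1 hpn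
    have h1 := hstar (sharp p)
    have h2 := hstar (sharp θ)
    rw [hsym p θ] at h2
    have h3 : (3 * dot θ (sharp n)) ^ 2 * dot θ (sharp θ)
        = (l1 * dot p (sharp n)) ^ 2 * dot p (sharp p) := by
      linear_combination (l1 * dot p (sharp n)) * h1 + (3 * dot θ (sharp n)) * h2
    rw [hθθ, hpp] at h3
    have h4 : 0 < (l1 * dot p (sharp n)) ^ 2 := by positivity
    have h5 : 0 ≤ (3 * dot θ (sharp n)) ^ 2 := by positivity
    nlinarith

end Pool.Agent.H83.VS
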