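import Pool.Agent.H83.VS.SmoothRing
import Pool.Agent.H83.VS.Pointwise

/-!
# The factor `ρ` is a quadratic polynomial, and the final contradiction
-/

open scoped ContDiff Topology

namespace Pool.Agent.H83.VS

namespace Sm

variable {Ω : TopologicalSpace.Opens (Fin 4 → ℝ)}

theorem smooth_coord (i : Fin 4) : ContDiffOn ℝ ∞ (fun x : Fin 4 → ℝ => x i) Ω := by
  fun_prop

/-- The coordinate functions. -/
noncomputable def coord (i : Fin 4) : Sm Ω := of (fun x => x i) (smooth_coord i)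

@[simp] theorem ev_coord (i : Fin 4) (x : Ω) : ev x (coord i) = (x : Fin 4 → ℝ) i := rfl

theorem D_coord (v : Fin 4 → ℝ) (i : Fin 4) :
    D v (coord i : Sm Ω) = algebraMap ℝ (Sm Ω) (v i) := by
  apply ext
  intro x
  unfold coord
  rw [ev_D_of]
  have h : fderiv ℝ (fun x : Fin 4 → ℝ => x i) x = ContinuousLinearMap.proj i := by
    exact (ContinuousLinearMap.proj (R := ℝ) (φ := fun _ : Fin 4 => ℝ) i).fderiv
  rw [h]
  rfl

end Sm

open Sm

theorem rho_quadratic {Ω : TopologicalSpace.Opens (Fin 4 → ℝ)}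
    (hc : IsPreconnected (Ω : Set (Fin 4 → ℝ))) (C : ConfData (Sm Ω))
    (hD : ∀ v f, C.D v f = Sm.D v f) :
    ∃ (α lm : ℝ) (β : Fin 4 → ℝ), ∀ x : Ω,
      ev x C.ρ = α + dot β x + lm / 2 * eta x x ∧
      ∀ v, ev x (C.D v C.ρ) = dot β v + lm * eta x v := by
  obtain ⟨lm, hlm⟩ := const_of_D_eq_zero hc C.lam (fun v => by rw [← hD, C.D_lam])
  have hβ : ∀ i : Fin 4, ∃ c : ℝ,
      C.D (bv i) C.ρ - algebraMap ℝ (Sm Ω) (lm * eta (bv i) (bv i)) * coord i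
        = algebraMap ℝ (Sm Ω) c := by
    intro i
    apply const_of_D_eq_zero hc
    intro v
    rw [map_sub, ← hD, C.hess_rho, hlm, ← hD, C.D_algebraMap_mul, hD, D_coord]
    rw [← map_mul, ← map_mul, ← map_sub]
    have : eta v (bv i) * lm - lm * eta (bv i) (bv i) * v i = 0 := by
      fin_cases i <;> simp [eta, bv] <;> ring
    rw [this, map_zero]
  choose β hβ using hβ
  have hDi : ∀ i (x : Ω), ev x (C.D (bv i) C.ρ)
      = β i + lm * eta (bv i) (bv i) * (x : Fin 4 → ℝ) i := by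
    intro i x
    have := congrArg (ev x) (hβ i)
    rw [map_sub, map_mul, ev_coord, AlgHom.commutes, AlgHom.commutes] at this
    simp only [Algebra.algebraMap_self, RingHom.id_apply] at this
    linarith
  have hDv : ∀ (x : Ω) v, ev x (C.D v C.ρ) = dot β v + lm * eta x v := by
    intro x v
    rw [C.D_eq v C.ρ]
    simp only [map_add, map_mul, hDi, AlgHom.commutes, Algebra.algebraMap_self, RingHom.id_apply]
    simp [eta, bv, dot]
    ring
  obtain ⟨α, hα⟩ := const_of_D_eq_zero hc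
    (C.ρ - (algebraMap ℝ (Sm Ω) (β 0) * coord 0 + algebraMap ℝ (Sm Ω) (β 1) * coord 1
      + algebraMap ℝ (Sm Ω) (β 2) * coord 2 + algebraMap ℝ (Sm Ω) (β 3) * coord 3)
      - algebraMap ℝ (Sm Ω) (lm / 2) *
        (coord 0 * coord 0 - coord 1 * coord 1 - coord 2 * coord 2 - coord 3 * coord 3)) (by
    intro v
    apply Sm.ext
    intro x
    simp only [map_sub, map_add, ← hD, C.D_algebraMap_mul, Derivation.leibniz, smul_eq_mul]
    simp only [hD, D_coord, map_sub, map_add, map_mul, ev_coord, AlgHom.commutes,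
      Algebra.algebraMap_self, RingHom.id_apply, map_zero]
    rw [← hD, hDv]
    simp [eta, dot]
    ring)
  refine ⟨α, lm, β, fun x => ⟨?_, hDv x⟩⟩
  have := congrArg (ev x) hα
  simp only [map_sub, map_add, map_mul, ev_coord, AlgHom.commutes,
      Algebra.algebraMap_self, RingHom.id_apply] at this
  simp only [dot, eta]
  linarith

/-- Small displacements stay in an open set. -/
theorem exists_small {Ω : Set (Fin 4 → ℝ)} (hΩ : IsOpen Ω) {x : Fin 4 → ℝ} (hx : x ∈ Ω)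
    (y : Fin 4 → ℝ) : ∃ ε > 0, ∀ δ : ℝ, |δ| < ε → x + δ • y ∈ Ω := by
  have hcont : Continuous fun δ : ℝ => x + δ • y := by fun_prop
  have ho : IsOpen ((fun δ : ℝ => x + δ • y) ⁻¹' Ω) := hΩ.preimage hcont
  obtain ⟨ε, hε, h⟩ := Metric.isOpen_iff.1 ho 0 (by simpa using hx)
  refine ⟨ε, hε, fun δ hδ => h (by simpa using hδ)⟩

theorem quad_three {c0 c1 c2 q0 q1 q2 : ℝ} (h01 : q0 ≠ q1) (h02 : q0 ≠ q2) (h12 : q1 ≠ q2)
    (e0 : c2 * q0 ^ 2 + c1 * q0 + c0 = 0) (e1 : c2 * q1 ^ 2 + c1 * q1 + c0 = 0)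
    (e2 : c2 * q2 ^ 2 + c1 * q2 + c0 = 0) : c0 = 0 ∧ c1 = 0 ∧ c2 = 0 := by
  have f1 : c2 * (q0 + q1) + c1 = 0 := by
    have : (q0 - q1) * (c2 * (q0 + q1) + c1) = 0 := by linear_combination e0 - e1
    exact (mul_eq_zero.1 this).resolve_left (sub_ne_zero.2 h01)
  have f2 : c2 * (q0 + q2) + c1 = 0 := by
    have : (q0 - q2) * (c2 * (q0 + q2) + c1) = 0 := by linear_combination e0 - e2
    exact (mul_eq_zero.1 this).resolve_left (sub_ne_zero.2 h02)
  have f3 : c2 = 0 := by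
    have : (q1 - q2) * c2 = 0 := by linear_combination f1 - f2
    exact (mul_eq_zero.1 this).resolve_left (sub_ne_zero.2 h12)
  have f4 : c1 = 0 := by rw [f3] at f1; linarith
  refine ⟨?_, f4, f3⟩
  rw [f3, f4] at e0
  linarith

/-- The final contradiction. -/
theorem final_contra (a b α lm : ℝ) (β : Fin 4 → ℝ) (hb : b ≠ 0) (hab : a + b ≠ 0)
    (Ω : Set (Fin 4 → ℝ)) (hΩ : IsOpen Ω) (x₀ : Fin 4 → ℝ) (hx₀ : x₀ ∈ Ω)
    (N ρ : (Fin 4 → ℝ) → ℝ) (ζ : (Fin 4 → ℝ) → Fin 4 → ℝ)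
    (hNdef : ∀ x ∈ Ω, N x = a * x 0 ^ 2 + b * (x 1 ^ 2 + x 2 ^ 2 + x 3 ^ 2))
    (hρdef : ∀ x ∈ Ω, ρ x = α + dot β x + lm / 2 * eta x x)
    (hN : ∀ x ∈ Ω, N x ≠ 0) (hρ : ∀ x ∈ Ω, ρ x ≠ 0)
    (hq : ∀ x ∈ Ω, x 1 ^ 2 + x 2 ^ 2 + x 3 ^ 2 ≠ 0)
    (hζ : ∀ x ∈ Ω, ∀ v, dot (ζ x) v
      = ρ x * dot (th a b x) v + N x * (dot β v + lm * eta x v))
    (h1 : ∀ x ∈ Ω, ∀ w, w 0 = 0 → x 1 * w 1 + x 2 * w 2 + x 3 * w 3 = 0 → dot (ζ x) w = 0)
    (h2 : ∀ x ∈ Ω, ∃ τ ξ : ℝ, ξ ≠ 0 ∧ τ ^ 2 = ξ ^ 2 * (x 1 ^ 2 + x 2 ^ 2 + x 3 ^ 2) ∧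
      ζ x 0 * (3 * (a * x 0 * τ + b * ξ * (x 1 ^ 2 + x 2 ^ 2 + x 3 ^ 2)) * b
          * (x 1 ^ 2 + x 2 ^ 2 + x 3 ^ 2))
        = (x 1 * ζ x 1 + x 2 * ζ x 2 + x 3 * ζ x 3) *
          (3 * (a * x 0 * τ + b * ξ * (x 1 ^ 2 + x 2 ^ 2 + x 3 ^ 2)) * (a * x 0)
            - (a + b) * N x * τ)) : False := by
  -- the space part of `β` vanishes
  have hβw : ∀ x ∈ Ω, ∀ w : Fin 4 → ℝ, w 0 = 0 → x 1 * w 1 + x 2 * w 2 + x 3 * w 3 = 0 →
      dot β w = 0 := by
    intro x hx w h0 hw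
    have e := h1 x hx w h0 hw
    rw [hζ x hx] at e
    have e2 : dot (th a b x) w = 0 := by
      simp [dot, th, h0]; linear_combination b * hw
    have e3 : eta x w = 0 := by
      simp [eta, h0]; linear_combination -hw
    rw [e2, e3] at e
    have : N x * dot β w = 0 := by linear_combination e
    exact (mul_eq_zero.1 this).resolve_left (hN x hx)
  have r12 : ∀ x ∈ Ω, - x 2 * β 1 + x 1 * β 2 = 0 := by
    intro x hx
    have := hβw x hx ![0, - x 2, x 1, 0] (by simp) (by simp; ring)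
    simp [dot] at this
    linarith
  have r13 : ∀ x ∈ Ω, - x 3 * β 1 + x 1 * β 3 = 0 := by
    intro x hx
    have := hβw x hx ![0, - x 3, 0, x 1] (by simp) (by simp; ring)
    simp [dot] at this
    linarith
  have hβ1 : β 1 = 0 := by
    obtain ⟨ε, hε, hs⟩ := exists_small hΩ hx₀ ![0, 0, 1, 0]
    have e1 := r12 x₀ hx₀
    have e2 := r12 _ (hs (ε / 2) (by rw [abs_of_pos (by positivity)]; linarith))
    simp at e2
    have : ε / 2 * β 1 = 0 := by linarith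
    exact (mul_eq_zero.1 this).resolve_left (by positivity)
  have hβ2 : β 2 = 0 := by
    obtain ⟨ε, hε, hs⟩ := exists_small hΩ hx₀ ![0, 1, 0, 0]
    have e1 := r12 x₀ hx₀
    have e2 := r12 _ (hs (ε / 2) (by rw [abs_of_pos (by positivity)]; linarith))
    simp at e2
    have : ε / 2 * β 2 = 0 := by linarith
    exact (mul_eq_zero.1 this).resolve_left (by positivity)
  have hβ3 : β 3 = 0 := by
    obtain ⟨ε, hε, hs⟩ := exists_small hΩ hx₀ ![0, 1, 0, 0]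
    have e1 := r13 x₀ hx₀
    have e2 := r13 _ (hs (ε / 2) (by rw [abs_of_pos (by positivity)]; linarith))
    simp at e2
    have : ε / 2 * β 3 = 0 := by linarith
    exact (mul_eq_zero.1 this).resolve_left (by positivity)
  -- the polynomial identity
  have key : ∀ x ∈ Ω,
      ((a + b) * (ρ x * b - N x * lm) + 3 * a * x 0 * (b * β 0 + lm * (a + b) * x 0)) ^ 2
        = 9 * b ^ 2 * (x 1 ^ 2 + x 2 ^ 2 + x 3 ^ 2)
          * (b * β 0 + lm * (a + b) * x 0) ^ 2 := by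
    intro x hx
    obtain ⟨τ, ξ, hξ, hτ, h⟩ := h2 x hx
    have z0 : ζ x 0 = ρ x * (a * x 0) + N x * (β 0 + lm * x 0) := by
      have := hζ x hx ![1, 0, 0, 0]
      simpa [dot, th, eta] using this
    have zX : x 1 * ζ x 1 + x 2 * ζ x 2 + x 3 * ζ x 3
        = ρ x * b * (x 1 ^ 2 + x 2 ^ 2 + x 3 ^ 2)
          - N x * lm * (x 1 ^ 2 + x 2 ^ 2 + x 3 ^ 2) := by
      have := hζ x hx ![0, x 1, x 2, x 3]
      simp [dot, th, eta, hβ1, hβ2, hβ3] at this
      linear_combination this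
    rw [z0, zX] at h
    have hqx := hq x hx
    have hNx := hN x hx
    set q := x 1 ^ 2 + x 2 ^ 2 + x 3 ^ 2 with hqdef
    set M := b * β 0 + lm * (a + b) * x 0 with hM
    have h3 : q * N x * (τ * ((a + b) * (ρ x * b - N x * lm) + 3 * a * x 0 * M)
        + 3 * b * ξ * q * M) = 0 := by
      rw [hM]
      linear_combination h
    have h4 : τ * ((a + b) * (ρ x * b - N x * lm) + 3 * a * x 0 * M)
        + 3 * b * ξ * q * M = 0 := (mul_eq_zero.1 h3).resolve_left (mul_ne_zero hqx hNx)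
    set Q := (a + b) * (ρ x * b - N x * lm) + 3 * a * x 0 * M with hQ
    have h5 : ξ ^ 2 * q * (Q ^ 2 - 9 * b ^ 2 * q * M ^ 2) = 0 := by
      linear_combination (τ * Q - 3 * b * ξ * q * M) * h4 - Q ^ 2 * hτ
    have h6 := (mul_eq_zero.1 h5).resolve_left (mul_ne_zero (pow_ne_zero 2 hξ) hqx)
    linarith
  -- vary the radius at fixed time
  obtain ⟨ε, hε, hs⟩ := exists_small hΩ hx₀ ![0, x₀ 1, x₀ 2, x₀ 3]
  set q₀ := x₀ 1 ^ 2 + x₀ 2 ^ 2 + x₀ 3 ^ 2 with hq₀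
  have hq0 : q₀ ≠ 0 := hq x₀ hx₀
  have hq0' : 0 < q₀ := lt_of_le_of_ne (by positivity) (Ne.symm hq0)
  set M := b * β 0 + lm * (a + b) * x₀ 0 with hM
  set A0 := (a + b) * (b * (α + β 0 * x₀ 0 + lm / 2 * x₀ 0 ^ 2) - a * x₀ 0 ^ 2 * lm)
    + 3 * a * x₀ 0 * M with hA0
  set A1 := - (3 / 2) * (a + b) * b * lm with hA1
  have hpoly : ∀ δ : ℝ, |δ| < ε →
      A1 ^ 2 * ((1 + δ) ^ 2 * q₀) ^ 2 + (2 * A0 * A1 - 9 * b ^ 2 * M ^ 2) * ((1 + δ) ^ 2 * q₀)
        + A0 ^ 2 = 0 := by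
    intro δ hδ
    have hx := hs δ hδ
    have e := key _ hx
    rw [hρdef _ hx, hNdef _ hx] at e
    simp [dot, eta, hβ1, hβ2, hβ3] at e
    rw [hA0, hA1, hM, hq₀]
    linear_combination e
  obtain ⟨δ1, hδ1, hδ1ε, hδ1'⟩ : ∃ δ : ℝ, 0 < δ ∧ |δ| < ε ∧ δ ≤ 1 := by
    refine ⟨min (ε / 2) 1, by positivity, ?_, min_le_right _ _⟩
    rw [abs_of_pos (by positivity)]
    exact lt_of_le_of_lt (min_le_left _ _) (by linarith)
  have p0 := hpoly 0 (by simpa using hε)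
  have p1 := hpoly δ1 hδ1ε
  have p2 := hpoly (δ1 / 2) (by
    rw [abs_of_pos (by positivity)]
    rw [abs_of_pos hδ1] at hδ1ε
    linarith)
  obtain ⟨k0, k1, k2⟩ := quad_three (by
      intro h
      have : q₀ * (δ1 * (2 + δ1)) = 0 := by linear_combination -h
      have h' : 0 < q₀ * (δ1 * (2 + δ1)) := by positivity
      linarith) (by
      intro h
      have : q₀ * (δ1 / 2 * (2 + δ1 / 2)) = 0 := by linear_combination -h
      have h' : 0 < q₀ * (δ1 / 2 * (2 + δ1 / 2)) := by positivity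
      linarith) (by
      intro h
      have : q₀ * (δ1 / 2 * (2 + 3 / 2 * δ1)) = 0 := by linear_combination h
      have h' : 0 < q₀ * (δ1 / 2 * (2 + 3 / 2 * δ1)) := by positivity
      linarith) p0 p1 p2
  have hA1z : A1 = 0 := pow_eq_zero_iff two_ne_zero |>.1 k2
  have hlm : lm = 0 := by
    have : ((a + b) * b) * lm = 0 := by
      rw [hA1] at hA1z
      linear_combination (-2 / 3) * hA1z
    exact (mul_eq_zero.1 this).resolve_left (mul_ne_zero hab hb)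
  have hMz : M = 0 := by
    rw [hA1z] at k1
    have : (3 * b * M) ^ 2 = 0 := by linear_combination -k1
    have h3 := pow_eq_zero_iff two_ne_zero |>.1 this
    exact (mul_eq_zero.1 h3).resolve_left (by simpa using hb)
  have hβ0 : β 0 = 0 := by
    rw [hM, hlm] at hMz
    have : b * β 0 = 0 := by linear_combination hMz
    exact (mul_eq_zero.1 this).resolve_left hb
  have hA0z : A0 = 0 := pow_eq_zero_iff two_ne_zero |>.1 k0
  have hα : α = 0 := by
    rw [hA0, hMz, hlm, hβ0] at hA0z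
    have : (a + b) * b * α = 0 := by linear_combination hA0z
    exact (mul_eq_zero.1 this).resolve_left (mul_ne_zero hab hb)
  apply hρ x₀ hx₀
  rw [hρdef x₀ hx₀]
  simp [dot, hα, hβ0, hβ1, hβ2, hβ3, hlm]

end Pool.Agent.H83.VS
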