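import Pool.Agent.H83.VS.Defs
import Pool.Agent.H83.VS.Quadratic
import Pool.Agent.H83.VS.Build

/-!
# Polar coordinates and one-variable functions in the ring of smooth functions
-/

open scoped ContDiff Topology

namespace Pool.Agent.H83.VS

open Sm

section general

variable {Ω : TopologicalSpace.Opens (Fin 4 → ℝ)}

/-- Chain rule. -/
theorem ev_D_of_comp {φ : ℝ → ℝ} {g : (Fin 4 → ℝ) → ℝ}
    (h : ContDiffOn ℝ ∞ (fun x => φ (g x)) Ω) (hg : ContDiffOn ℝ ∞ g Ω)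
    (v : Fin 4 → ℝ) (x : Ω) {φ' : ℝ} (hφ : HasDerivAt φ φ' (g x)) :
    ev x (D v (of (fun x => φ (g x)) h)) = φ' * ev x (D v (of g hg)) := by
  rw [ev_D_of, ev_D_of]
  have h1 : HasFDerivAt g (fderiv ℝ g x) x := (differentiableAt_of hg x).hasFDerivAt
  have h2 := hφ.comp_hasFDerivAt (x : Fin 4 → ℝ) h1
  have h3 : fderiv ℝ (fun x => φ (g x)) x = φ' • fderiv ℝ g x := h2.fderiv
  rw [h3]
  rfl

/-- The angles structure of two smooth functions. -/
noncomputable def anglesOf (g2 g3 : (Fin 4 → ℝ) → ℝ) (h2 : ContDiffOn ℝ ∞ g2 Ω)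
    (h3 : ContDiffOn ℝ ∞ g3 Ω) : Angles (Sm Ω) DD where
  ϑ := of g2 h2
  φ := of g3 h3
  sϑ := of (fun x => Real.sin (g2 x)) (Real.contDiff_sin.comp_contDiffOn h2)
  cϑ := of (fun x => Real.cos (g2 x)) (Real.contDiff_cos.comp_contDiffOn h2)
  sφ := of (fun x => Real.sin (g3 x)) (Real.contDiff_sin.comp_contDiffOn h3)
  cφ := of (fun x => Real.cos (g3 x)) (Real.contDiff_cos.comp_contDiffOn h3)
  hsϑ := fun v => by
    apply Sm.ext
    intro x
    rw [DD_apply, ev_D_of_comp _ h2 v x (Real.hasDerivAt_sin _), map_mul, ev_of]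
  hcϑ := fun v => by
    apply Sm.ext
    intro x
    rw [DD_apply, ev_D_of_comp _ h2 v x (Real.hasDerivAt_cos _), map_mul, map_neg, ev_of]
  hsφ := fun v => by
    apply Sm.ext
    intro x
    rw [DD_apply, ev_D_of_comp _ h3 v x (Real.hasDerivAt_sin _), map_mul, ev_of]
  hcφ := fun v => by
    apply Sm.ext
    intro x
    rw [DD_apply, ev_D_of_comp _ h3 v x (Real.hasDerivAt_cos _), map_mul, map_neg, ev_of]
  pϑ := by
    apply Sm.ext
    intro x
    rw [map_add, map_pow, map_pow, map_one, ev_of, ev_of]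
    exact Real.sin_sq_add_cos_sq _
  pφ := by
    apply Sm.ext
    intro x
    rw [map_add, map_pow, map_pow, map_one, ev_of, ev_of]
    exact Real.sin_sq_add_cos_sq _

end general

/-- Polar coordinates. -/
noncomputable def polar (p : Fin 4 → ℝ) : Fin 4 → ℝ :=
  ![p 0, p 1 * Real.sin (p 2) * Real.cos (p 3), p 1 * Real.sin (p 2) * Real.sin (p 3),
    p 1 * Real.cos (p 2)]

theorem contDiff_polar : ContDiff ℝ ∞ polar := by
  rw [contDiff_pi]
  intro i
  fin_cases i <;> simp [polar] <;> fun_prop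

theorem fderiv_polar (p v : Fin 4 → ℝ) (i : Fin 4) :
    (fderiv ℝ polar p v) i = fderiv ℝ (fun p => polar p i) p v := by
  have h : DifferentiableAt ℝ polar p := contDiff_polar.differentiable (by simp) p
  have := (ContinuousLinearMap.proj (R := ℝ) (φ := fun _ : Fin 4 => ℝ) i).hasFDerivAt.comp p
    h.hasFDerivAt
  have h2 : fderiv ℝ (fun p => polar p i) p = _ := this.fderiv
  rw [h2]
  rfl

theorem polar_pullback (p v w : Fin 4 → ℝ) :
    eta (fderiv ℝ polar p v) (fderiv ℝ polar p w)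
      = v 0 * w 0 - v 1 * w 1 - p 1 ^ 2 * (v 2 * w 2 + Real.sin (p 2) ^ 2 * (v 3 * w 3)) := by
  let Ω : TopologicalSpace.Opens (Fin 4 → ℝ) := ⊤
  have hp : p ∈ Ω := TopologicalSpace.Opens.mem_top p
  let G : Angles (Sm Ω) DD := anglesOf (fun x => x 2) (fun x => x 3) (smooth_coord 2)
    (smooth_coord 3)
  have h := G.metric (coord 1) v w
  have h' := congrArg (ev (⟨p, hp⟩ : Ω)) h
  have e0 : ∀ v, (fderiv ℝ polar p v) 0 = v 0 := by
    intro v
    rw [fderiv_polar]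
    have := ev_D_of (Ω := Ω) (fun x : Fin 4 → ℝ => x 0) (smooth_coord 0) v ⟨p, hp⟩
    rw [show (fun p => polar p 0) = fun x : Fin 4 → ℝ => x 0 from rfl, ← this]
    have h2 := congrArg (ev (⟨p, hp⟩ : Ω)) (D_coord (Ω := Ω) v 0)
    exact h2
  have e1 : ∀ v, (fderiv ℝ polar p v) 1
      = ev (⟨p, hp⟩ : Ω) (DD v (coord 1 * G.sϑ * G.cφ)) := by
    intro v
    rw [fderiv_polar]
    exact (ev_D_of (Ω := Ω) (fun p => polar p 1)
      ((contDiff_pi.1 contDiff_polar 1).contDiffOn) v ⟨p, hp⟩).symm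
  have e2 : ∀ v, (fderiv ℝ polar p v) 2
      = ev (⟨p, hp⟩ : Ω) (DD v (coord 1 * G.sϑ * G.sφ)) := by
    intro v
    rw [fderiv_polar]
    exact (ev_D_of (Ω := Ω) (fun p => polar p 2)
      ((contDiff_pi.1 contDiff_polar 2).contDiffOn) v ⟨p, hp⟩).symm
  have e3 : ∀ v, (fderiv ℝ polar p v) 3
      = ev (⟨p, hp⟩ : Ω) (DD v (coord 1 * G.cϑ)) := by
    intro v
    rw [fderiv_polar]
    exact (ev_D_of (Ω := Ω) (fun p => polar p 3)
      ((contDiff_pi.1 contDiff_polar 3).contDiffOn) v ⟨p, hp⟩).symm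
  have d1 : ∀ v, ev (⟨p, hp⟩ : Ω) (DD v (coord 1)) = v 1 := fun v => by
    rw [DD_apply, D_coord]; rfl
  have d2 : ∀ v, ev (⟨p, hp⟩ : Ω) (DD v G.ϑ) = v 2 := fun v =>
    congrArg (ev (⟨p, hp⟩ : Ω)) (D_coord (Ω := Ω) v 2)
  have d3 : ∀ v, ev (⟨p, hp⟩ : Ω) (DD v G.φ) = v 3 := fun v =>
    congrArg (ev (⟨p, hp⟩ : Ω)) (D_coord (Ω := Ω) v 3)
  have d4 : ev (⟨p, hp⟩ : Ω) G.sϑ = Real.sin (p 2) := rfl
  rw [Angles.ang] at h'
  simp only [map_add, map_mul, map_pow, ev_coord, d1, d2, d3, d4] at h'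
  rw [eta, e0, e0, e1, e1, e2, e2, e3, e3]
  linear_combination -h'

theorem polar_injective {p : Fin 4 → ℝ} (h1 : p 1 ≠ 0) (h2 : Real.sin (p 2) ≠ 0) :
    Function.Injective (fderiv ℝ polar p) := by
  rw [injective_iff_map_eq_zero]
  intro v hv
  have h := fun w => polar_pullback p v w
  rw [hv] at h
  have e0 := h ![1, 0, 0, 0]
  have e1 := h ![0, 1, 0, 0]
  have e2 := h ![0, 0, 1, 0]
  have e3 := h ![0, 0, 0, 1]
  simp [eta, h1, h2] at e0 e1 e2 e3
  ext i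
  fin_cases i <;> simp [e0, e1, e2, e3]

/-- The derivative of polar coordinates as an equivalence. -/
noncomputable def polarEquiv {p : Fin 4 → ℝ} (h1 : p 1 ≠ 0) (h2 : Real.sin (p 2) ≠ 0) :
    (Fin 4 → ℝ) ≃L[ℝ] (Fin 4 → ℝ) :=
  (LinearEquiv.ofInjectiveEndo (fderiv ℝ polar p : (Fin 4 → ℝ) →ₗ[ℝ] (Fin 4 → ℝ))
    (polar_injective h1 h2)).toContinuousLinearEquiv

theorem polarEquiv_hasFDerivAt {p : Fin 4 → ℝ} (h1 : p 1 ≠ 0) (h2 : Real.sin (p 2) ≠ 0) :
    HasFDerivAt polar (polarEquiv h1 h2 : (Fin 4 → ℝ) →L[ℝ] (Fin 4 → ℝ)) p := by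
  have h : DifferentiableAt ℝ polar p := contDiff_polar.differentiable (by simp) p
  have e : (polarEquiv h1 h2 : (Fin 4 → ℝ) →L[ℝ] (Fin 4 → ℝ)) = fderiv ℝ polar p := by
    ext v : 1
    rfl
  rw [e]
  exact h.hasFDerivAt

/-- Derivative of a function of two variables along two functions. -/
theorem fderiv_two {m : ℝ × ℝ → ℝ} {t r : (Fin 4 → ℝ) → ℝ} {x : Fin 4 → ℝ} {mt mr : ℝ}
    (hm : DifferentiableAt ℝ m (t x, r x)) (ht : DifferentiableAt ℝ t x)
    (hr : DifferentiableAt ℝ r x)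
    (hmr : HasDerivAt (fun s => m (t x, s)) mr (r x))
    (hmt : HasDerivAt (fun s => m (s, r x)) mt (t x)) (v : Fin 4 → ℝ) :
    fderiv ℝ (fun x => m (t x, r x)) x v = mt * fderiv ℝ t x v + mr * fderiv ℝ r x v := by
  have h1 : HasFDerivAt (fun x => m (t x, r x))
      ((fderiv ℝ m (t x, r x)).comp ((fderiv ℝ t x).prod (fderiv ℝ r x))) x :=
    HasFDerivAt.comp x hm.hasFDerivAt (ht.hasFDerivAt.prodMk hr.hasFDerivAt)
  have e1 : fderiv ℝ m (t x, r x) (0, 1) = mr := by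
    have h2 : HasDerivAt (fun s : ℝ => (t x, s)) ((0, 1) : ℝ × ℝ) (r x) :=
      (hasDerivAt_const _ _).prodMk (hasDerivAt_id _)
    have h3 := hm.hasFDerivAt.comp_hasDerivAt (r x) h2
    exact h3.unique hmr
  have e2 : fderiv ℝ m (t x, r x) (1, 0) = mt := by
    have h2 : HasDerivAt (fun s : ℝ => (s, r x)) ((1, 0) : ℝ × ℝ) (t x) :=
      (hasDerivAt_id _).prodMk (hasDerivAt_const _ _)
    have h3 := hm.hasFDerivAt.comp_hasDerivAt (t x) h2
    exact h3.unique hmt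
  rw [h1.fderiv]
  have e3 : ((fderiv ℝ t x).prod (fderiv ℝ r x)) v
      = fderiv ℝ t x v • ((1, 0) : ℝ × ℝ) + fderiv ℝ r x v • ((0, 1) : ℝ × ℝ) := by
    ext <;> simp
  rw [ContinuousLinearMap.comp_apply, e3, map_add, map_smul, map_smul, e1, e2]
  simp only [smul_eq_mul]
  ring

/-- Local primitives. -/
theorem exists_primitive (g : ℝ → ℝ) (c δ : ℝ) (hg : ContinuousOn g (Metric.ball c δ)) :
    ∃ G : ℝ → ℝ, ∀ y ∈ Metric.ball c δ, HasDerivAt G (g y) y := by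
  by_cases hδ : 0 < δ
  swap
  · refine ⟨g, fun y hy => ?_⟩
    rw [Metric.ball_eq_empty.2 (not_lt.1 hδ)] at hy
    exact absurd hy (Set.notMem_empty _)
  refine ⟨fun y => ∫ s in c..y, g s, fun y hy => ?_⟩
  have hc : c ∈ Metric.ball c δ := Metric.mem_ball_self hδ
  have hsub : Set.uIcc c y ⊆ Metric.ball c δ := by
    rw [← segment_eq_uIcc]
    exact (convex_ball c δ).segment_subset hc hy
  apply intervalIntegral.integral_hasDerivAt_right
  · exact (hg.mono hsub).intervalIntegrable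
  · exact hg.stronglyMeasurableAtFilter Metric.isOpen_ball y hy
  · exact hg.continuousAt (Metric.isOpen_ball.mem_nhds hy)

end Pool.Agent.H83.VS
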