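import Mathlib

/-!
# Conformal maps of Minkowski space in a differential ring

The arguments about second and third derivatives of a conformal map, written in a commutative
ring with four commuting derivations.
-/

namespace Pool.Agent.H83.VS

/-- The Minkowski form on `ℝ⁴`. -/
def eta (v w : Fin 4 → ℝ) : ℝ := v 0 * w 0 - v 1 * w 1 - v 2 * w 2 - v 3 * w 3

/-- The standard basis vectors. -/
def bv (i : Fin 4) : Fin 4 → ℝ := Pi.single i 1

/-- Commuting derivations and a conformal map in a commutative ring. -/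
structure ConfData (A : Type*) [CommRing A] [Algebra ℝ A] where
  D : (Fin 4 → ℝ) →ₗ[ℝ] Derivation ℝ A A
  comm : ∀ v w f, D v (D w f) = D w (D v f)
  T : A
  X : A
  Y : A
  Z : A
  s : A
  ρ : A
  hρ : ρ ^ 2 * s = 1
  conf : ∀ v w, D v T * D w T - D v X * D w X - D v Y * D w Y - D v Z * D w Z
    = algebraMap ℝ A (eta v w) * s

namespace ConfData

variable {A : Type*} [CommRing A] [Algebra ℝ A] (C : ConfData A)

theorem eta_comm (v w : Fin 4 → ℝ) : eta v w = eta w v := by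
  unfold eta; ring

theorem koszul (u v w : Fin 4 → ℝ) :
    2 * (C.D u (C.D v C.T) * C.D w C.T - C.D u (C.D v C.X) * C.D w C.X
      - C.D u (C.D v C.Y) * C.D w C.Y - C.D u (C.D v C.Z) * C.D w C.Z)
    = algebraMap ℝ A (eta v w) * C.D u C.s + algebraMap ℝ A (eta u w) * C.D v C.s
      - algebraMap ℝ A (eta u v) * C.D w C.s := by
  have h1 := congrArg (C.D u) (C.conf v w)
  have h2 := congrArg (C.D v) (C.conf u w)
  have h3 := congrArg (C.D w) (C.conf u v)
  simp only [map_sub, Derivation.leibniz, smul_eq_mul, Derivation.map_algebraMap, mul_zero,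
    add_zero] at h1 h2 h3
  rw [C.comm w u, C.comm w v, C.comm w u, C.comm w v, C.comm w u, C.comm w v, C.comm w u,
    C.comm w v] at h3
  rw [C.comm v u, C.comm v u, C.comm v u, C.comm v u] at h2
  linear_combination h1 + h2 - h3

/-- The jacobian matrix. -/
def J : Matrix (Fin 4) (Fin 4) A :=
  Matrix.of fun k i => C.D (bv i) (![C.T, C.X, C.Y, C.Z] k)

/-- The matrix of the Minkowski form. -/
def H (A : Type*) [CommRing A] : Matrix (Fin 4) (Fin 4) A := Matrix.diagonal ![1, -1, -1, -1]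

omit [Algebra ℝ A] in
theorem H_mul_H : H A * H A = 1 := by
  unfold H
  rw [Matrix.diagonal_mul_diagonal]
  ext i j
  fin_cases i <;> fin_cases j <;> simp

theorem eta_bv (i j : Fin 4) :
    algebraMap ℝ A (eta (bv i) (bv j)) = H A i j := by
  unfold H eta bv
  fin_cases i <;> fin_cases j <;> simp

theorem JtHJ : C.J.transpose * H A * C.J = C.s • H A := by
  ext i j
  have h := C.conf (bv i) (bv j)
  rw [eta_bv] at h
  rw [Matrix.mul_apply, Matrix.smul_apply, smul_eq_mul, mul_comm C.s, ← h]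
  simp [Fin.sum_univ_four, H, J, Matrix.mul_apply, Matrix.diagonal]
  ring

theorem JHJt : C.J * H A * C.J.transpose = C.s • H A := by
  have h1 : (C.ρ ^ 2 • (H A * C.J.transpose * H A)) * C.J = 1 := by
    rw [Matrix.smul_mul, Matrix.mul_assoc, Matrix.mul_assoc, ← Matrix.mul_assoc C.J.transpose,
      JtHJ, Matrix.mul_smul, H_mul_H, smul_smul, C.hρ, one_smul]
  have h2 : C.J * (C.ρ ^ 2 • (H A * C.J.transpose * H A)) = 1 := mul_eq_one_comm.1 h1
  have h3 : C.J * (H A * C.J.transpose * H A) = C.s • 1 := by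
    rw [← h2, Matrix.mul_smul, smul_smul, mul_comm C.s, C.hρ, one_smul]
  have h4 : C.J * (H A * C.J.transpose * H A) * H A = C.s • H A := by
    rw [h3, Matrix.smul_mul, one_mul]
  rw [← h4]
  simp only [Matrix.mul_assoc, H_mul_H, mul_one]

/-- The inverse Minkowski form of the differentials of two ring elements. -/
def dual (f g : A) : A :=
  C.D (bv 0) f * C.D (bv 0) g - C.D (bv 1) f * C.D (bv 1) g - C.D (bv 2) f * C.D (bv 2) g
    - C.D (bv 3) f * C.D (bv 3) g

theorem dual_entry (k l : Fin 4) :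
    C.dual (![C.T, C.X, C.Y, C.Z] k) (![C.T, C.X, C.Y, C.Z] l) = C.s * H A k l := by
  have h := congrFun (congrFun C.JHJt k) l
  rw [Matrix.smul_apply, smul_eq_mul] at h
  rw [← h, Matrix.mul_apply]
  simp [Fin.sum_univ_four, H, J, Matrix.mul_apply, Matrix.diagonal, dual]
  ring

theorem dual_TT : C.dual C.T C.T = C.s := by simpa [H] using C.dual_entry 0 0
theorem dual_TX : C.dual C.T C.X = 0 := by simpa [H] using C.dual_entry 0 1
theorem dual_TY : C.dual C.T C.Y = 0 := by simpa [H] using C.dual_entry 0 2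
theorem dual_TZ : C.dual C.T C.Z = 0 := by simpa [H] using C.dual_entry 0 3
theorem dual_XX : C.dual C.X C.X = - C.s := by simpa [H] using C.dual_entry 1 1
theorem dual_XY : C.dual C.X C.Y = 0 := by simpa [H] using C.dual_entry 1 2
theorem dual_XZ : C.dual C.X C.Z = 0 := by simpa [H] using C.dual_entry 1 3
theorem dual_YY : C.dual C.Y C.Y = - C.s := by simpa [H] using C.dual_entry 2 2
theorem dual_YZ : C.dual C.Y C.Z = 0 := by simpa [H] using C.dual_entry 2 3
theorem dual_ZZ : C.dual C.Z C.Z = - C.s := by simpa [H] using C.dual_entry 3 3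

theorem eq_zero_of_s_mul {a : A} (h : C.s * a = 0) : a = 0 := by
  linear_combination C.ρ ^ 2 * h - a * C.hρ

/-- Nondegeneracy of the jacobian. -/
theorem nondeg {a b c d : A}
    (h : ∀ u, a * C.D u C.T - b * C.D u C.X - c * C.D u C.Y - d * C.D u C.Z = 0) :
    a = 0 ∧ b = 0 ∧ c = 0 ∧ d = 0 := by
  have h0 := h (bv 0)
  have h1 := h (bv 1)
  have h2 := h (bv 2)
  have h3 := h (bv 3)
  have eTT := C.dual_TT
  have eTX := C.dual_TX
  have eTY := C.dual_TY
  have eTZ := C.dual_TZ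
  have eXX := C.dual_XX
  have eXY := C.dual_XY
  have eXZ := C.dual_XZ
  have eYY := C.dual_YY
  have eYZ := C.dual_YZ
  have eZZ := C.dual_ZZ
  unfold dual at eTT eTX eTY eTZ eXX eXY eXZ eYY eYZ eZZ
  refine ⟨C.eq_zero_of_s_mul ?_, C.eq_zero_of_s_mul ?_, C.eq_zero_of_s_mul ?_,
    C.eq_zero_of_s_mul ?_⟩
  · linear_combination C.D (bv 0) C.T * h0 - C.D (bv 1) C.T * h1 - C.D (bv 2) C.T * h2
      - C.D (bv 3) C.T * h3 - a * eTT + b * eTX + c * eTY + d * eTZ
  · linear_combination C.D (bv 0) C.X * h0 - C.D (bv 1) C.X * h1 - C.D (bv 2) C.X * h2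
      - C.D (bv 3) C.X * h3 - a * eTX + b * eXX + c * eXY + d * eXZ
  · linear_combination C.D (bv 0) C.Y * h0 - C.D (bv 1) C.Y * h1 - C.D (bv 2) C.Y * h2
      - C.D (bv 3) C.Y * h3 - a * eTY + b * eXY + c * eYY + d * eYZ
  · linear_combination C.D (bv 0) C.Z * h0 - C.D (bv 1) C.Z * h1 - C.D (bv 2) C.Z * h2
      - C.D (bv 3) C.Z * h3 - a * eTZ + b * eXZ + c * eYZ + d * eZZ

theorem D_s (v : Fin 4 → ℝ) : C.ρ * C.D v C.s = - 2 * C.s * C.D v C.ρ := by
  have h := congrArg (C.D v) C.hρ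
  rw [Derivation.map_one_eq_zero, Derivation.leibniz, pow_two, Derivation.leibniz] at h
  simp only [smul_eq_mul] at h
  have h1 := C.hρ
  linear_combination C.s * C.ρ * h - (C.ρ * C.D v C.s + 2 * C.s * C.D v C.ρ) * h1

/-- Second derivatives of a conformal map in orthogonal directions. -/
theorem hess_map {v w : Fin 4 → ℝ} (hvw : eta v w = 0) :
    (C.ρ * C.D v (C.D w C.T) + C.D v C.ρ * C.D w C.T + C.D w C.ρ * C.D v C.T = 0) ∧
    (C.ρ * C.D v (C.D w C.X) + C.D v C.ρ * C.D w C.X + C.D w C.ρ * C.D v C.X = 0) ∧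
    (C.ρ * C.D v (C.D w C.Y) + C.D v C.ρ * C.D w C.Y + C.D w C.ρ * C.D v C.Y = 0) ∧
    (C.ρ * C.D v (C.D w C.Z) + C.D v C.ρ * C.D w C.Z + C.D w C.ρ * C.D v C.Z = 0) := by
  have h : ∀ u,
      2 * ((C.ρ * C.D v (C.D w C.T) + C.D v C.ρ * C.D w C.T + C.D w C.ρ * C.D v C.T) * C.D u C.T
        - (C.ρ * C.D v (C.D w C.X) + C.D v C.ρ * C.D w C.X + C.D w C.ρ * C.D v C.X) * C.D u C.X
        - (C.ρ * C.D v (C.D w C.Y) + C.D v C.ρ * C.D w C.Y + C.D w C.ρ * C.D v C.Y) * C.D u C.Y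
        - (C.ρ * C.D v (C.D w C.Z) + C.D v C.ρ * C.D w C.Z + C.D w C.ρ * C.D v C.Z)
          * C.D u C.Z) = 0 := by
    intro u
    have k := C.koszul v w u
    rw [hvw, map_zero] at k
    have c1 := C.conf w u
    have c2 := C.conf v u
    have d1 := C.D_s v
    have d2 := C.D_s w
    linear_combination C.ρ * k + 2 * C.D v C.ρ * c1 + 2 * C.D w C.ρ * c2
      + algebraMap ℝ A (eta w u) * d1 + algebraMap ℝ A (eta v u) * d2
  have htwo : ∀ x : A, 2 * x = 0 → x = 0 := by
    intro x hx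
    have : algebraMap ℝ A (1 / 2) * (2 * x) = x := by
      rw [← mul_assoc, ← map_ofNat (algebraMap ℝ A) 2, ← map_mul]
      norm_num
    rw [← this, hx, mul_zero]
  exact C.nondeg fun u => htwo _ (h u)

/-- Hessian of `ρ F` in orthogonal directions for a function `F` whose second derivative behaves
like that of a component of the map. -/
theorem hess_rho_mul {v w : Fin 4 → ℝ} (F : A)
    (h : C.ρ * C.D v (C.D w F) + C.D v C.ρ * C.D w F + C.D w C.ρ * C.D v F = 0) :
    C.D v (C.D w (C.ρ * F)) = C.D v (C.D w C.ρ) * F := by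
  simp only [map_add, Derivation.leibniz, smul_eq_mul]
  linear_combination h

theorem third {u v w : Fin 4 → ℝ} (F : A)
    (h : C.D v (C.D w (C.ρ * F)) = C.D v (C.D w C.ρ) * F)
    (h' : C.D u (C.D w (C.ρ * F)) = C.D u (C.D w C.ρ) * F) :
    C.D v (C.D w C.ρ) * C.D u F = C.D u (C.D w C.ρ) * C.D v F := by
  generalize C.D w (C.ρ * F) = G at h h'
  have h1 := congrArg (C.D u) h
  have h2 := congrArg (C.D v) h'
  rw [Derivation.leibniz, smul_eq_mul, smul_eq_mul] at h1 h2
  have h3 := C.comm u v (C.D w C.ρ)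
  have h4 := C.comm u v G
  linear_combination h2 - h1 + h4 - F * h3

/-- Second derivatives of `ρ` in orthogonal directions vanish. -/
theorem rho_orth {u v w : Fin 4 → ℝ} (huw : eta u w = 0) (hvw : eta v w = 0)
    (huv : eta u v = 0) (hv : eta v v ≠ 0) : C.D u (C.D w C.ρ) = 0 := by
  obtain ⟨a1, a2, a3, a4⟩ := C.hess_map hvw
  obtain ⟨b1, b2, b3, b4⟩ := C.hess_map huw
  have t1 := C.third C.T (C.hess_rho_mul _ a1) (C.hess_rho_mul _ b1)
  have t2 := C.third C.X (C.hess_rho_mul _ a2) (C.hess_rho_mul _ b2)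
  have t3 := C.third C.Y (C.hess_rho_mul _ a3) (C.hess_rho_mul _ b3)
  have t4 := C.third C.Z (C.hess_rho_mul _ a4) (C.hess_rho_mul _ b4)
  have c1 := C.conf u v
  have c2 := C.conf v v
  rw [huv, map_zero, zero_mul] at c1
  have key : algebraMap ℝ A (eta v v) * (C.s * C.D u (C.D w C.ρ)) = 0 := by
    linear_combination C.D v (C.D w C.ρ) * c1 - C.D u (C.D w C.ρ) * c2
      - C.D v C.T * t1 + C.D v C.X * t2 + C.D v C.Y * t3 + C.D v C.Z * t4
  have key2 : C.s * C.D u (C.D w C.ρ) = 0 := by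
    have : algebraMap ℝ A (eta v v)⁻¹ * (algebraMap ℝ A (eta v v) * (C.s * C.D u (C.D w C.ρ)))
        = C.s * C.D u (C.D w C.ρ) := by
      rw [← mul_assoc, ← map_mul, inv_mul_cancel₀ hv, map_one, one_mul]
    rw [← this, key, mul_zero]
  exact C.eq_zero_of_s_mul key2

theorem rho_01 : C.D (bv 0) (C.D (bv 1) C.ρ) = 0 := by
  apply C.rho_orth (v := bv 2) <;> simp [eta, bv]
theorem rho_02 : C.D (bv 0) (C.D (bv 2) C.ρ) = 0 := by
  apply C.rho_orth (v := bv 1) <;> simp [eta, bv]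
theorem rho_03 : C.D (bv 0) (C.D (bv 3) C.ρ) = 0 := by
  apply C.rho_orth (v := bv 1) <;> simp [eta, bv]
theorem rho_12 : C.D (bv 1) (C.D (bv 2) C.ρ) = 0 := by
  apply C.rho_orth (v := bv 3) <;> simp [eta, bv]
theorem rho_13 : C.D (bv 1) (C.D (bv 3) C.ρ) = 0 := by
  apply C.rho_orth (v := bv 2) <;> simp [eta, bv]
theorem rho_23 : C.D (bv 2) (C.D (bv 3) C.ρ) = 0 := by
  apply C.rho_orth (v := bv 1) <;> simp [eta, bv]

theorem rho_11_22 : C.D (bv 1) (C.D (bv 1) C.ρ) = C.D (bv 2) (C.D (bv 2) C.ρ) := by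
  have h : C.D (bv 1 + bv 2) (C.D (bv 1 - bv 2) C.ρ) = 0 := by
    apply C.rho_orth (v := bv 3) <;> simp [eta, bv]
  simp only [map_add, map_sub, Derivation.add_apply, Derivation.sub_apply] at h
  linear_combination h - C.comm (bv 2) (bv 1) C.ρ
theorem rho_11_33 : C.D (bv 1) (C.D (bv 1) C.ρ) = C.D (bv 3) (C.D (bv 3) C.ρ) := by
  have h : C.D (bv 1 + bv 3) (C.D (bv 1 - bv 3) C.ρ) = 0 := by
    apply C.rho_orth (v := bv 2) <;> simp [eta, bv]
  simp only [map_add, map_sub, Derivation.add_apply, Derivation.sub_apply] at h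
  linear_combination h - C.comm (bv 3) (bv 1) C.ρ
theorem rho_00_11 : C.D (bv 0) (C.D (bv 0) C.ρ) = - C.D (bv 1) (C.D (bv 1) C.ρ) := by
  have h : C.D ((2 : ℝ) • bv 0 + bv 1) (C.D (bv 0 + (2 : ℝ) • bv 1) C.ρ) = 0 := by
    apply C.rho_orth (v := bv 2) <;> simp [eta, bv]
  have h1 := C.rho_01
  have h2 := C.comm (bv 1) (bv 0) C.ρ
  have htwo : ∀ x : A, (2 : ℝ) • x = 0 → x = 0 := by
    intro x hx
    have : (1 / 2 : ℝ) • ((2 : ℝ) • x) = x := by
      rw [smul_smul]; norm_num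
    rw [← this, hx, smul_zero]
  have h3 := htwo (C.D (bv 0) (C.D (bv 0) C.ρ) + C.D (bv 1) (C.D (bv 1) C.ρ)) (by
    rw [← h, map_add, map_add, map_smul, map_smul]
    simp only [Derivation.add_apply, Derivation.smul_apply, map_add, Derivation.map_smul, h2, h1,
      smul_zero, add_zero, zero_add, smul_add])
  linear_combination h3

/-- The trace function `λ` with `D²ρ = λ η`. -/
def lam : A := C.D (bv 0) (C.D (bv 0) C.ρ)

theorem vec_eq (v : Fin 4 → ℝ) :
    v = v 0 • bv 0 + v 1 • bv 1 + v 2 • bv 2 + v 3 • bv 3 := by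
  ext i
  fin_cases i <;> simp [bv]

theorem D_eq (v : Fin 4 → ℝ) (f : A) :
    C.D v f = algebraMap ℝ A (v 0) * C.D (bv 0) f + algebraMap ℝ A (v 1) * C.D (bv 1) f
      + algebraMap ℝ A (v 2) * C.D (bv 2) f + algebraMap ℝ A (v 3) * C.D (bv 3) f := by
  conv_lhs => rw [vec_eq v]
  rw [map_add, map_add, map_add, map_smul, map_smul, map_smul, map_smul]
  simp only [Derivation.add_apply, Derivation.smul_apply, Algebra.smul_def]

theorem D_algebraMap_mul (v : Fin 4 → ℝ) (c : ℝ) (f : A) :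
    C.D v (algebraMap ℝ A c * f) = algebraMap ℝ A c * C.D v f := by
  rw [Derivation.leibniz, Derivation.map_algebraMap]
  simp

theorem hess_rho (v w : Fin 4 → ℝ) :
    C.D v (C.D w C.ρ) = algebraMap ℝ A (eta v w) * C.lam := by
  have h01 := C.rho_01
  have h02 := C.rho_02
  have h03 := C.rho_03
  have h12 := C.rho_12
  have h13 := C.rho_13
  have h23 := C.rho_23
  have h10 := C.comm (bv 1) (bv 0) C.ρ
  have h20 := C.comm (bv 2) (bv 0) C.ρ
  have h30 := C.comm (bv 3) (bv 0) C.ρ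
  have h21 := C.comm (bv 2) (bv 1) C.ρ
  have h31 := C.comm (bv 3) (bv 1) C.ρ
  have h32 := C.comm (bv 3) (bv 2) C.ρ
  have h00 : C.D (bv 0) (C.D (bv 0) C.ρ) = C.lam := rfl
  have h11 : C.D (bv 1) (C.D (bv 1) C.ρ) = - C.lam := by
    linear_combination C.rho_00_11 - h00
  have h22 : C.D (bv 2) (C.D (bv 2) C.ρ) = - C.lam := by
    linear_combination h11 - C.rho_11_22
  have h33 : C.D (bv 3) (C.D (bv 3) C.ρ) = - C.lam := by
    linear_combination h11 - C.rho_11_33
  rw [C.D_eq w C.ρ, map_add, map_add, map_add]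
  simp only [D_algebraMap_mul]
  rw [C.D_eq v (C.D (bv 0) C.ρ), C.D_eq v (C.D (bv 1) C.ρ), C.D_eq v (C.D (bv 2) C.ρ),
    C.D_eq v (C.D (bv 3) C.ρ)]
  simp only [h10, h20, h30, h21, h31, h32, h01, h02, h03, h12, h13, h23, h00, h11, h22, h33]
  simp only [eta, map_sub, map_mul]
  ring

theorem D_lam (v : Fin 4 → ℝ) : C.D v C.lam = 0 := by
  have h0 : C.D (bv 0) C.lam = 0 := by
    have h11 : C.D (bv 1) (C.D (bv 1) C.ρ) = - C.lam := by
      rw [C.hess_rho]
      simp [eta, bv]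
    have h1 := congrArg (C.D (bv 0)) h11
    rw [C.comm, C.rho_01, map_zero, map_neg] at h1
    linear_combination h1
  have h1 : C.D (bv 1) C.lam = 0 := by
    unfold lam
    rw [C.comm, C.comm (bv 1), C.rho_01, map_zero]
  have h2 : C.D (bv 2) C.lam = 0 := by
    unfold lam
    rw [C.comm, C.comm (bv 2), C.rho_02, map_zero]
  have h3 : C.D (bv 3) C.lam = 0 := by
    unfold lam
    rw [C.comm, C.comm (bv 3), C.rho_03, map_zero]
  rw [C.D_eq, h0, h1, h2, h3]
  ring

end ConfData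

end Pool.Agent.H83.VS
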