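import Mathlib

/-!
# The Siemieniec-Oziebło metric and the first Vaidya-Shah class

Metrics on open sets of `ℝ⁴` with coordinates `(t, r, ϑ, φ)`. A point of `ℝ⁴` is a function
`x : Fin 4 → ℝ` with `x 0 = t`, `x 1 = r`, `x 2 = ϑ`, `x 3 = φ`, and a metric is given by its
value `g x v w` at the point `x` on the tangent vectors `v`, `w`.
-/

open scoped ContDiff

namespace Pool.Agent.H83.VS

/-- The Siemieniec-Oziebło metric
`(a t² + b r²) (dt² - dr² - r² (dϑ² + sin² ϑ dφ²))`. -/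
noncomputable def soMetric (a b : ℝ) (x v w : Fin 4 → ℝ) : ℝ :=
  (a * x 0 ^ 2 + b * x 1 ^ 2) *
    (v 0 * w 0 - v 1 * w 1 - x 1 ^ 2 * (v 2 * w 2 + Real.sin (x 2) ^ 2 * (v 3 * w 3)))

/-- The region `a t² + b r² > 0`, away from the singularities of the polar coordinates. -/
def soRegion (a b : ℝ) : Set (Fin 4 → ℝ) :=
  {x | 0 < a * x 0 ^ 2 + b * x 1 ^ 2 ∧ x 1 ≠ 0 ∧ Real.sin (x 2) ≠ 0}

/-- Admissible data of the first Vaidya-Shah class: `ψ` is smooth on the open set `I`, `P` is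
smooth on the open set `J` with antiderivative `F`, and `m` is smooth on the nonempty open set `U`
of the `(t, r)`-plane, with `1 + P r > 0`, `∂_r m = (1 + P r)⁻¹` and
`∂_t m = - e^{-ψ} (1 + P r)⁻¹ e^{F(m)}` on `U`. -/
structure VSData where
  I : Set ℝ
  J : Set ℝ
  U : Set (ℝ × ℝ)
  ψ : ℝ → ℝ
  P : ℝ → ℝ
  F : ℝ → ℝ
  m : ℝ × ℝ → ℝ
  isOpen_I : IsOpen I
  isOpen_J : IsOpen J
  isOpen_U : IsOpen U
  nonempty_U : U.Nonempty
  smooth_ψ : ContDiffOn ℝ ∞ ψ I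
  smooth_P : ContDiffOn ℝ ∞ P J
  hasDerivAt_F : ∀ y ∈ J, HasDerivAt F (P y) y
  smooth_m : ContDiffOn ℝ ∞ m U
  mem_I : ∀ p ∈ U, p.1 ∈ I
  mem_J : ∀ p ∈ U, m p ∈ J
  pos : ∀ p ∈ U, 0 < 1 + P (m p) * p.2
  deriv_r : ∀ p ∈ U, HasDerivAt (fun r => m (p.1, r)) (1 + P (m p) * p.2)⁻¹ p.2
  deriv_t : ∀ p ∈ U, HasDerivAt (fun t => m (t, p.2))
    (- (Real.exp (- ψ p.1) * (1 + P (m p) * p.2)⁻¹ * Real.exp (F (m p)))) p.1

/-- The function `r̄ = r e^{(ψ - F(m)) / 2}`. -/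
noncomputable def VSData.rbar (D : VSData) (x : Fin 4 → ℝ) : ℝ :=
  x 1 * Real.exp ((D.ψ (x 0) - D.F (D.m (x 0, x 1))) / 2)

/-- The metric of the first Vaidya-Shah class
`(r / r̄)² dt² / (1 + P r) - (r̄ / r)² dr² / (1 + P r) - r̄² (dϑ² + sin² ϑ dφ²)`. -/
noncomputable def VSData.metric (D : VSData) (x v w : Fin 4 → ℝ) : ℝ :=
  (x 1 / D.rbar x) ^ 2 / (1 + D.P (D.m (x 0, x 1)) * x 1) * (v 0 * w 0)
    - (D.rbar x / x 1) ^ 2 / (1 + D.P (D.m (x 0, x 1)) * x 1) * (v 1 * w 1)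
    - D.rbar x ^ 2 * (v 2 * w 2 + Real.sin (x 2) ^ 2 * (v 3 * w 3))

/-- The region of `ℝ⁴` on which the metric lives: `(t, r) ∈ U`, away from the singularities of
the polar coordinates. -/
def VSData.region (D : VSData) : Set (Fin 4 → ℝ) :=
  {x | (x 0, x 1) ∈ D.U ∧ x 1 ≠ 0 ∧ Real.sin (x 2) ≠ 0}

/-- The Siemieniec-Oziebło metric with constants `a`, `b` is a subcase of the first Vaidya-Shah
class: for some admissible data there is a diffeomorphism `e` from a nonempty open subset of the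
region of the former onto an open subset of the region of the latter pulling the first-class
metric back to the Siemieniec-Oziebło metric. -/
def IsSubcase (a b : ℝ) : Prop :=
  ∃ (D : VSData) (e : OpenPartialHomeomorph (Fin 4 → ℝ) (Fin 4 → ℝ)),
    e.source.Nonempty ∧ e.source ⊆ soRegion a b ∧ e.target ⊆ D.region ∧
    ContDiffOn ℝ ∞ e e.source ∧ ContDiffOn ℝ ∞ e.symm e.target ∧
    ∀ x ∈ e.source, ∀ v w : Fin 4 → ℝ,
      D.metric (e x) (fderiv ℝ e x v) (fderiv ℝ e x w) = soMetric a b x v w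

end Pool.Agent.H83.VS
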