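import Pool.Agent.H83.VS.Main

/-!
# Which Siemieniec-Oziebło metrics can be subcases
-/

open scoped ContDiff Topology

namespace Pool.Agent.H83.VS

open Sm

/-- If the Siemieniec-Oziebło metric with constants `a`, `b` is a subcase of the first
Vaidya-Shah class, then `a > 0` and `b = 0` or `a + b = 0`. -/
theorem IsSubcase.imp {a b : ℝ} (h : IsSubcase a b) : 0 < a ∧ (b = 0 ∨ a + b = 0) := by
  obtain ⟨D, e, ⟨p₀, hp₀⟩, hsrc, htgt, he, -, hiso⟩ := h
  by_cases hb : b = 0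
  · refine ⟨?_, Or.inl hb⟩
    have h := (hsrc hp₀).1
    rw [hb, zero_mul, add_zero] at h
    by_contra ha
    have : a * p₀ 0 ^ 2 ≤ 0 := mul_nonpos_of_nonpos_of_nonneg (not_lt.1 ha) (sq_nonneg _)
    linarith
  · obtain ⟨Ω, x₀, B, hpre, hD, hN, hq, hNpos, hκ, hW, hj⟩ :=
      exists_preVS a b D e p₀ hp₀ hsrc htgt he hiso
    have hf : B.f ^ 2 * Nring Ω a b = 1 := by rw [← hN]; exact B.hf
    by_cases hab : a + b = 0
    · refine ⟨?_, Or.inr hab⟩
      by_contra ha
      have ha' : a < 0 := lt_of_le_of_ne (not_lt.1 ha) (fun h0 => hb (by linarith))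
      apply no_vsring_aux x₀ B.toVSRing hD a b ha' hab B.f hf rfl
      · rw [← hN]; exact hNpos x₀
      · show 0 < ev x₀ (B.N * B.W ^ 2)
        rw [map_mul, map_pow]
        exact mul_pos (hNpos x₀) (pow_pos (hW x₀) 2)
      · show 0 < ev x₀ (B.κ * (B.π * (B.r * B.κ) + B.κ))
        have : B.κ * (B.π * (B.r * B.κ) + B.κ) = B.κ ^ 2 * (1 + B.π * B.r) := by ring
        rw [this, map_mul, map_pow]
        exact mul_pos (pow_pos (hκ x₀) 2) (hj x₀)
    · exact (no_vsring hpre x₀ B.toVSRing hD a b hb hab B.f hf rfl hq).elim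

end Pool.Agent.H83.VS
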