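import Pool.Agent.H83.VS.Chart
import Pool.Agent.H83.VS.Assemble

/-!
# From a local isometry to the data in the differential ring
-/

open scoped ContDiff Topology

namespace Pool.Agent.H83.VS

open Sm

theorem VSData.smooth_F (D : VSData) : ContDiffOn ℝ ∞ D.F D.J := by
  rw [contDiffOn_infty_iff_deriv_of_isOpen D.isOpen_J]
  refine ⟨fun y hy => (D.hasDerivAt_F y hy).differentiableAt.differentiableWithinAt, ?_⟩
  exact D.smooth_P.congr fun y hy => (D.hasDerivAt_F y hy).deriv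

theorem smooth_of_hasDerivAt {G g : ℝ → ℝ} {S : Set ℝ} (hS : IsOpen S)
    (hG : ∀ y ∈ S, HasDerivAt G (g y) y) (hg : ContDiffOn ℝ ∞ g S) : ContDiffOn ℝ ∞ G S := by
  rw [contDiffOn_infty_iff_deriv_of_isOpen hS]
  refine ⟨fun y hy => (hG y hy).differentiableAt.differentiableWithinAt, ?_⟩
  exact hg.congr fun y hy => (hG y hy).deriv

/-- The chart: near a point of the source there are smooth polar coordinates. -/
theorem exists_chart (a b : ℝ) (D : VSData)
    (e : OpenPartialHomeomorph (Fin 4 → ℝ) (Fin 4 → ℝ)) (p₀ : Fin 4 → ℝ) (hp₀ : p₀ ∈ e.source)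
    (hsrc : e.source ⊆ soRegion a b) (htgt : e.target ⊆ D.region) (δ : ℝ) (hδ : 0 < δ) :
    ∃ (Ω : TopologicalSpace.Opens (Fin 4 → ℝ)) (G : (Fin 4 → ℝ) → Fin 4 → ℝ) (x₀ : Fin 4 → ℝ),
      IsPreconnected (Ω : Set (Fin 4 → ℝ)) ∧ x₀ ∈ Ω ∧ ContDiffOn ℝ ∞ G Ω ∧
      (∀ x ∈ Ω, polar (G x) = x) ∧ (∀ x ∈ Ω, G x ∈ e.source) ∧
      ∀ x ∈ Ω, D.m (e (G x) 0, e (G x) 1) ∈ Metric.ball (D.m (e p₀ 0, e p₀ 1)) δ := by
  have hreg := hsrc hp₀
  have hC : ContDiffAt ℝ ∞ polar p₀ := contDiff_polar.contDiffAt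
  have hD' := polarEquiv_hasFDerivAt hreg.2.1 hreg.2.2
  let H := hC.toOpenPartialHomeomorph polar hD' (by simp)
  have hH : ∀ x, H x = polar x := fun x => by
    rw [ContDiffAt.toOpenPartialHomeomorph_coe]
  have hp₀H : p₀ ∈ H.source := hC.mem_toOpenPartialHomeomorph_source hD' (by simp)
  -- the good set in the source
  let S : Set (Fin 4 → ℝ) := e.source ∩
    (fun p => D.m (e p 0, e p 1)) ⁻¹' Metric.ball (D.m (e p₀ 0, e p₀ 1)) δ
  have hcont : ContinuousOn (fun p => D.m (e p 0, e p 1)) e.source := by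
    have h1 : ContinuousOn (fun p => (e p 0, e p 1)) e.source := by
      have := e.continuousOn
      fun_prop
    refine D.smooth_m.continuousOn.comp h1 fun p hp => ?_
    exact (htgt (e.map_source hp)).1
  have hS : IsOpen S := hcont.isOpen_inter_preimage e.open_source Metric.isOpen_ball
  have hp₀S : p₀ ∈ S := ⟨hp₀, Metric.mem_ball_self hδ⟩
  have hO : IsOpen (H.symm.source ∩ H.symm ⁻¹' S) := H.symm.isOpen_inter_preimage hS
  have hx₀ : H p₀ ∈ H.symm.source ∩ H.symm ⁻¹' S := by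
    refine ⟨H.map_source hp₀H, ?_⟩
    rw [Set.mem_preimage, H.left_inv hp₀H]
    exact hp₀S
  obtain ⟨ε, hε, hball⟩ := Metric.isOpen_iff.1 hO _ hx₀
  refine ⟨⟨Metric.ball (H p₀) ε, Metric.isOpen_ball⟩, H.symm, H p₀,
    (convex_ball _ _).isPreconnected, Metric.mem_ball_self hε, ?_, ?_, ?_, ?_⟩
  · intro x hx
    have hx' := hball hx
    have hxt : x ∈ H.target := hx'.1
    have hxs : H.symm x ∈ e.source := hx'.2.1
    have hr := hsrc hxs
    have h1 := polarEquiv_hasFDerivAt hr.2.1 hr.2.2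
    apply ContDiffAt.contDiffWithinAt
    have hfun : (H : (Fin 4 → ℝ) → (Fin 4 → ℝ)) = polar := funext hH
    refine H.contDiffAt_symm (f₀' := polarEquiv hr.2.1 hr.2.2) hxt ?_ ?_
    · rw [hfun]
      exact h1
    · rw [hfun]
      exact contDiff_polar.contDiffAt
  · intro x hx
    have hx' := hball hx
    rw [← hH]
    exact H.right_inv hx'.1
  · intro x hx
    exact (hball hx).2.1
  · intro x hx
    exact (hball hx).2.2

section comp

variable {Ω : TopologicalSpace.Opens (Fin 4 → ℝ)}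

/-- Composition with a function of one variable. -/
noncomputable def c1 (φ : ℝ → ℝ) {S : Set ℝ} (hφ : ContDiffOn ℝ ∞ φ S) {g : (Fin 4 → ℝ) → ℝ}
    (hg : ContDiffOn ℝ ∞ g Ω) (hm : ∀ x ∈ Ω, g x ∈ S) : Sm Ω :=
  of (fun x => φ (g x)) (hφ.comp hg hm)

theorem ev_c1 (φ : ℝ → ℝ) {S : Set ℝ} (hφ : ContDiffOn ℝ ∞ φ S) {g : (Fin 4 → ℝ) → ℝ}
    (hg : ContDiffOn ℝ ∞ g Ω) (hm : ∀ x ∈ Ω, g x ∈ S) (x : Ω) :
    ev x (c1 φ hφ hg hm) = φ (g x) := rfl

theorem ev_D_c1 (φ : ℝ → ℝ) {S : Set ℝ} (hφ : ContDiffOn ℝ ∞ φ S) {g : (Fin 4 → ℝ) → ℝ}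
    (hg : ContDiffOn ℝ ∞ g Ω) (hm : ∀ x ∈ Ω, g x ∈ S) (v : Fin 4 → ℝ) (x : Ω) {φ' : ℝ}
    (h : HasDerivAt φ φ' (g x)) :
    ev x (D v (c1 φ hφ hg hm)) = φ' * ev x (D v (of g hg)) :=
  ev_D_of_comp _ hg v x h

end comp

theorem hasDerivAt_kappa (D : VSData) {y : ℝ} (hy : y ∈ D.J) :
    HasDerivAt (fun y => Real.exp (- D.F y / 2)) (- (D.P y / 2) * Real.exp (- D.F y / 2)) y := by
  exact (((D.hasDerivAt_F y hy).fun_neg.div_const 2).exp).congr_deriv (by ring)

theorem hasDerivAt_W (D : VSData) {y : ℝ} (hy : y ∈ D.I) :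
    HasDerivAt (fun y => Real.exp (- D.ψ y / 2))
      (- (deriv D.ψ y / 2) * Real.exp (- D.ψ y / 2)) y := by
  have h0 : HasDerivAt D.ψ (deriv D.ψ y) y :=
    ((D.smooth_ψ.contDiffAt (D.isOpen_I.mem_nhds hy)).differentiableAt (by simp)).hasDerivAt
  exact ((h0.fun_neg.div_const 2).exp).congr_deriv (by ring)

theorem smooth_dψ (D : VSData) : ContDiffOn ℝ ∞ (deriv D.ψ) D.I :=
  ((contDiffOn_infty_iff_deriv_of_isOpen D.isOpen_I).1 D.smooth_ψ).2

theorem smooth_ddψ (D : VSData) : ContDiffOn ℝ ∞ (deriv (deriv D.ψ)) D.I :=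
  ((contDiffOn_infty_iff_deriv_of_isOpen D.isOpen_I).1 (smooth_dψ D)).2

theorem smooth_dP (D : VSData) : ContDiffOn ℝ ∞ (deriv D.P) D.J :=
  ((contDiffOn_infty_iff_deriv_of_isOpen D.isOpen_J).1 D.smooth_P).2

theorem hasDerivAt_h (D : VSData) {y : ℝ} (hy : y ∈ D.I) :
    HasDerivAt (fun y => - (1 / 2) * deriv D.ψ y * Real.exp (D.ψ y / 2))
      (- (1 / 2) * (deriv (deriv D.ψ) y + deriv D.ψ y ^ 2 / 2) * Real.exp (D.ψ y / 2)) y := by
  have h0 : HasDerivAt D.ψ (deriv D.ψ y) y :=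
    ((D.smooth_ψ.contDiffAt (D.isOpen_I.mem_nhds hy)).differentiableAt (by simp)).hasDerivAt
  have h1 : HasDerivAt (deriv D.ψ) (deriv (deriv D.ψ) y) y :=
    (((smooth_dψ D).contDiffAt (D.isOpen_I.mem_nhds hy)).differentiableAt (by simp)).hasDerivAt
  exact ((h1.const_mul (- (1 / 2) : ℝ)).fun_mul ((h0.div_const 2).exp)).congr_deriv (by ring)

theorem rbar_eq (D : VSData) (x : Fin 4 → ℝ) :
    D.rbar x = x 1 * (Real.exp (D.ψ (x 0) / 2) * Real.exp (- D.F (D.m (x 0, x 1)) / 2)) := by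
  have h : (D.ψ (x 0) - D.F (D.m (x 0, x 1))) / 2
      = D.ψ (x 0) / 2 + - D.F (D.m (x 0, x 1)) / 2 := by ring
  rw [VSData.rbar, ← Real.exp_add, h]

theorem exists_preVS (a b : ℝ) (D : VSData)
    (e : OpenPartialHomeomorph (Fin 4 → ℝ) (Fin 4 → ℝ)) (p₀ : Fin 4 → ℝ) (hp₀ : p₀ ∈ e.source)
    (hsrc : e.source ⊆ soRegion a b) (htgt : e.target ⊆ D.region)
    (he : ContDiffOn ℝ ∞ e e.source)
    (hiso : ∀ x ∈ e.source, ∀ v w : Fin 4 → ℝ,
      D.metric (e x) (fderiv ℝ e x v) (fderiv ℝ e x w) = soMetric a b x v w) :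
    ∃ (Ω : TopologicalSpace.Opens (Fin 4 → ℝ)) (_ : Ω) (B : PreVS (Sm Ω)),
      IsPreconnected (Ω : Set (Fin 4 → ℝ)) ∧ (∀ v f, B.D v f = Sm.D v f) ∧
      B.N = Nring Ω a b ∧
      (∀ x : Ω, (x : Fin 4 → ℝ) 1 ^ 2 + (x : Fin 4 → ℝ) 2 ^ 2 + (x : Fin 4 → ℝ) 3 ^ 2 ≠ 0) ∧
      (∀ x : Ω, 0 < ev x B.N) ∧ (∀ x : Ω, 0 < ev x B.κ) ∧ (∀ x : Ω, 0 < ev x B.W) ∧
      (∀ x : Ω, 0 < ev x (1 + B.π * B.r)) := by
  have hreg₀ := htgt (e.map_source hp₀)
  obtain ⟨δ, hδ, hball⟩ := Metric.isOpen_iff.1 D.isOpen_J _ (D.mem_J _ hreg₀.1)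
  obtain ⟨Ω, G, x₀, hpre, hx₀, hG, hpol, hGs, hGm⟩ := exists_chart a b D e p₀ hp₀ hsrc htgt δ hδ
  have hHs : ContDiffOn ℝ ∞ (fun x => e (G x)) Ω := he.comp hG hGs
  have hH : ∀ i, ContDiffOn ℝ ∞ (fun x => e (G x) i) Ω := contDiffOn_pi.1 hHs
  have hreg : ∀ x ∈ Ω, e (G x) ∈ D.region := fun x hx => htgt (e.map_source (hGs x hx))
  have hm : ContDiffOn ℝ ∞ (fun x => D.m (e (G x) 0, e (G x) 1)) Ω :=
    D.smooth_m.comp ((hH 0).prodMk (hH 1)) fun x hx => (hreg x hx).1
  have hmJ : ∀ x ∈ Ω, D.m (e (G x) 0, e (G x) 1) ∈ D.J := fun x hx => hball (hGm x hx)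
  have htI : ∀ x ∈ Ω, e (G x) 0 ∈ D.I := fun x hx => D.mem_I _ (hreg x hx).1
  have hκs : ContDiffOn ℝ ∞ (fun y => Real.exp (- D.F y / 2)) D.J :=
    Real.contDiff_exp.comp_contDiffOn (D.smooth_F.neg.div_const 2)
  obtain ⟨Up, hUp⟩ := exists_primitive (fun y => - Real.exp (- D.F y / 2))
    (D.m (e p₀ 0, e p₀ 1)) δ (hκs.neg.continuousOn.mono hball)
  have hUps : ContDiffOn ℝ ∞ Up (Metric.ball (D.m (e p₀ 0, e p₀ 1)) δ) :=
    smooth_of_hasDerivAt Metric.isOpen_ball hUp (hκs.neg.mono hball)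
  -- polar coordinates
  have hx0 : ∀ x ∈ Ω, G x 0 = x 0 := fun x hx => by
    have := congrFun (hpol x hx) 0
    simpa [polar] using this
  have hq : ∀ x ∈ Ω, x 1 ^ 2 + x 2 ^ 2 + x 3 ^ 2 = G x 1 ^ 2 := fun x hx => by
    have h1 : G x 1 * Real.sin (G x 2) * Real.cos (G x 3) = x 1 := by
      simpa [polar] using congrFun (hpol x hx) 1
    have h2 : G x 1 * Real.sin (G x 2) * Real.sin (G x 3) = x 2 := by
      simpa [polar] using congrFun (hpol x hx) 2
    have h3 : G x 1 * Real.cos (G x 2) = x 3 := by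
      simpa [polar] using congrFun (hpol x hx) 3
    rw [← h1, ← h2, ← h3]
    linear_combination (G x 1 ^ 2 * Real.sin (G x 2) ^ 2) * Real.sin_sq_add_cos_sq (G x 3)
      + G x 1 ^ 2 * Real.sin_sq_add_cos_sq (G x 2)
  have hNeq : ∀ x ∈ Ω, a * x 0 ^ 2 + b * (x 1 ^ 2 + x 2 ^ 2 + x 3 ^ 2)
      = a * G x 0 ^ 2 + b * G x 1 ^ 2 := fun x hx => by rw [hx0 x hx, hq x hx]
  have hNpos : ∀ x ∈ Ω, 0 < a * x 0 ^ 2 + b * (x 1 ^ 2 + x 2 ^ 2 + x 3 ^ 2) := fun x hx => by
    rw [hNeq x hx]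
    exact (hsrc (hGs x hx)).1
  -- the isometry in cartesian coordinates
  have hcart : ∀ x ∈ Ω, ∀ v w : Fin 4 → ℝ,
      D.metric (e (G x)) (fderiv ℝ (fun x => e (G x)) x v) (fderiv ℝ (fun x => e (G x)) x w)
        = (a * x 0 ^ 2 + b * (x 1 ^ 2 + x 2 ^ 2 + x 3 ^ 2)) * eta v w := by
    intro x hx v w
    have hGd : DifferentiableAt ℝ G x :=
      (hG.contDiffAt (Ω.2.mem_nhds hx)).differentiableAt (by simp)
    have hed : DifferentiableAt ℝ e (G x) :=
      (he.contDiffAt (e.open_source.mem_nhds (hGs x hx))).differentiableAt (by simp)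
    have hpd : DifferentiableAt ℝ polar (G x) := contDiff_polar.differentiable (by simp) _
    have h1 : fderiv ℝ (fun x => e (G x)) x = (fderiv ℝ e (G x)).comp (fderiv ℝ G x) :=
      fderiv_comp x hed hGd
    have h2 : (fderiv ℝ polar (G x)).comp (fderiv ℝ G x) = ContinuousLinearMap.id ℝ _ := by
      rw [← fderiv_comp x hpd hGd]
      have : polar ∘ G =ᶠ[𝓝 x] id := by
        filter_upwards [Ω.2.mem_nhds hx] with y hy using hpol y hy
      rw [this.fderiv_eq, fderiv_id]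
    have h3 : ∀ v, fderiv ℝ polar (G x) (fderiv ℝ G x v) = v := fun v => by
      have := congrArg (fun L => L v) h2
      exact this
    rw [h1, ContinuousLinearMap.comp_apply, ContinuousLinearMap.comp_apply,
      hiso _ (hGs x hx), hNeq x hx, soMetric, ← polar_pullback, h3, h3]
  have hcomp : ∀ (x : Ω) (v : Fin 4 → ℝ) (i : Fin 4),
      (fderiv ℝ (fun x => e (G x)) x v) i = ev x (Sm.D v (of (fun x => e (G x) i) (hH i))) := by
    intro x v i
    rw [ev_D_of]
    have h : DifferentiableAt ℝ (fun x => e (G x)) x :=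
      (hHs.contDiffAt (Ω.2.mem_nhds x.2)).differentiableAt (by simp)
    have := (ContinuousLinearMap.proj (R := ℝ) (φ := fun _ : Fin 4 => ℝ) i).hasFDerivAt.comp
      (x : Fin 4 → ℝ) h.hasFDerivAt
    have h2 : fderiv ℝ (fun x => e (G x) i) x = _ := this.fderiv
    rw [h2]
    rfl
  have hrne : ∀ x ∈ Ω, e (G x) 1 ≠ 0 := fun x hx => (hreg x hx).2.1
  have hjpos : ∀ x ∈ Ω, 0 < 1 + D.P (D.m (e (G x) 0, e (G x) 1)) * e (G x) 1 := fun x hx =>
    D.pos _ (hreg x hx).1
  have hPs : ContDiffOn ℝ ∞ (fun x => D.P (D.m (e (G x) 0, e (G x) 1))) Ω :=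
    D.smooth_P.comp hm hmJ
  have hjs : ContDiffOn ℝ ∞
      (fun x => (1 + D.P (D.m (e (G x) 0, e (G x) 1)) * e (G x) 1)⁻¹) Ω :=
    (contDiffOn_const.add (hPs.mul (hH 1))).inv fun x hx => (hjpos x hx).ne'
  have hNs : ContDiffOn ℝ ∞
      (fun x : Fin 4 → ℝ => a * x 0 ^ 2 + b * (x 1 ^ 2 + x 2 ^ 2 + x 3 ^ 2)) Ω := by
    fun_prop
  have hfs : ContDiffOn ℝ ∞
      (fun x : Fin 4 → ℝ => (√(a * x 0 ^ 2 + b * (x 1 ^ 2 + x 2 ^ 2 + x 3 ^ 2)))⁻¹) Ω :=
    (hNs.sqrt fun x hx => (hNpos x hx).ne').inv fun x hx => (Real.sqrt_pos.2 (hNpos x hx)).ne'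
  have hWs : ContDiffOn ℝ ∞ (fun y => Real.exp (- D.ψ y / 2)) D.I :=
    Real.contDiff_exp.comp_contDiffOn (D.smooth_ψ.neg.div_const 2)
  have hEs : ContDiffOn ℝ ∞ (fun y => Real.exp (D.ψ y / 2)) D.I :=
    Real.contDiff_exp.comp_contDiffOn (D.smooth_ψ.div_const 2)
  have hκis : ContDiffOn ℝ ∞ (fun y => Real.exp (D.F y / 2)) D.J :=
    Real.contDiff_exp.comp_contDiffOn (D.smooth_F.div_const 2)
  have hhs : ContDiffOn ℝ ∞ (fun y => - (1 / 2) * deriv D.ψ y * Real.exp (D.ψ y / 2)) D.I :=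
    (contDiffOn_const.mul (smooth_dψ D)).mul hEs
  have hh's : ContDiffOn ℝ ∞ (fun y => - (1 / 2) * (deriv (deriv D.ψ) y + deriv D.ψ y ^ 2 / 2)
      * Real.exp (D.ψ y / 2)) D.I :=
    (contDiffOn_const.mul ((smooth_ddψ D).add (((smooth_dψ D).pow 2).div_const 2))).mul hEs
  let Gang : Angles (Sm Ω) DD := anglesOf (fun x => e (G x) 2) (fun x => e (G x) 3) (hH 2) (hH 3)
  have key_m : ∀ (v : Fin 4 → ℝ) (x : Ω),
      (1 + D.P (D.m (e (G x) 0, e (G x) 1)) * e (G x) 1) * ev x (Sm.D v (of _ hm))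
        = ev x (Sm.D v (of _ (hH 1)))
          - Real.exp (D.F (D.m (e (G x) 0, e (G x) 1)) / 2) ^ 2
            * Real.exp (- D.ψ (e (G x) 0) / 2) ^ 2 * ev x (Sm.D v (of _ (hH 0))) := by
    intro v x
    rw [ev_D_of, ev_D_of, ev_D_of]
    have hU := (hreg x x.2).1
    have h := fderiv_two (m := D.m) (t := fun x => e (G x) 0) (r := fun x => e (G x) 1) (x := x)
      (((D.smooth_m.contDiffAt (D.isOpen_U.mem_nhds hU))).differentiableAt (by simp))
      (differentiableAt_of (hH 0) x) (differentiableAt_of (hH 1) x)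
      (D.deriv_r _ hU) (D.deriv_t _ hU) v
    rw [h]
    have e1 : Real.exp (D.F (D.m (e (G x) 0, e (G x) 1)) / 2) ^ 2
        = Real.exp (D.F (D.m (e (G x) 0, e (G x) 1))) := by
      rw [← Real.exp_nat_mul]; congr 1; push_cast; ring
    have e2 : Real.exp (- D.ψ (e (G x) 0) / 2) ^ 2 = Real.exp (- D.ψ (e (G x) 0)) := by
      rw [← Real.exp_nat_mul]; congr 1; push_cast; ring
    rw [e1, e2]
    have hj := (hjpos x x.2).ne'
    field_simp
    ring
  let B : PreVS (Sm Ω) :=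
    { D := DD
      comm := D_comm
      G := Gang
      N := Nring Ω a b
      f := of _ hfs
      hf := by
        apply Sm.ext
        intro x
        rw [map_mul, map_pow, ev_of, ev_N, map_one, inv_pow, Real.sq_sqrt (hNpos x x.2).le,
          inv_mul_cancel₀ (hNpos x x.2).ne']
      t := of _ (hH 0)
      r := of _ (hH 1)
      rinv := of (fun x => (e (G x) 1)⁻¹) ((hH 1).inv hrne)
      m := of _ hm
      u := c1 Up hUps hm hGm
      κ := c1 _ hκs hm hmJ
      κinv := c1 _ hκis hm hmJ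
      π := c1 _ D.smooth_P hm hmJ
      π' := c1 _ (smooth_dP D) hm hmJ
      W := c1 _ hWs (hH 0) htI
      E := c1 _ hEs (hH 0) htI
      h := c1 _ hhs (hH 0) htI
      h' := c1 _ hh's (hH 0) htI
      jinv := of _ hjs
      hj := by
        apply Sm.ext
        intro x
        simp only [map_mul, map_add, map_one, ev_c1, ev_of]
        exact mul_inv_cancel₀ (hjpos x x.2).ne'
      hrinv := by
        apply Sm.ext
        intro x
        rw [map_mul, ev_of, ev_of, map_one]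
        exact mul_inv_cancel₀ (hrne x x.2)
      hκinv := by
        apply Sm.ext
        intro x
        rw [map_mul, ev_c1, ev_c1, map_one, ← Real.exp_add]
        rw [show (- D.F (D.m (e (G x) 0, e (G x) 1)) / 2 + D.F (D.m (e (G x) 0, e (G x) 1)) / 2)
          = 0 by ring, Real.exp_zero]
      hEW := by
        apply Sm.ext
        intro x
        rw [map_mul, ev_c1, ev_c1, map_one, ← Real.exp_add]
        rw [show (D.ψ (e (G x) 0) / 2 + - D.ψ (e (G x) 0) / 2) = 0 by ring, Real.exp_zero]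
      hm := fun v => by
        apply Sm.ext
        intro x
        simp only [map_mul, map_add, map_sub, map_pow, map_one, ev_c1, DD_apply]
        rw [ev_of (fun x => e (G x) 1)]
        exact key_m v x
      hu := fun v => by
        apply Sm.ext
        intro x
        rw [DD_apply, ev_D_c1 Up hUps hm hGm v x (hUp _ (hGm x x.2)), map_mul, map_neg, ev_c1]
      hκ := fun v => by
        apply Sm.ext
        intro x
        simp only [map_mul, map_neg, map_ofNat, DD_apply]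
        rw [ev_D_c1 _ hκs hm hmJ v x (hasDerivAt_kappa D (hmJ x x.2)), ev_c1, ev_c1]
        ring
      hπ := fun v => by
        apply Sm.ext
        intro x
        have h0 : HasDerivAt D.P (deriv D.P (D.m (e (G x) 0, e (G x) 1)))
            (D.m (e (G x) 0, e (G x) 1)) :=
          ((D.smooth_P.contDiffAt (D.isOpen_J.mem_nhds (hmJ x x.2))).differentiableAt
            (by simp)).hasDerivAt
        rw [DD_apply, ev_D_c1 _ D.smooth_P hm hmJ v x h0, map_mul, ev_c1]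
      hW := fun v => by
        apply Sm.ext
        intro x
        simp only [map_mul, map_pow, DD_apply]
        rw [ev_D_c1 _ hWs (hH 0) htI v x (hasDerivAt_W D (htI x x.2)), ev_c1, ev_c1]
        have e1 : Real.exp (D.ψ (e (G x) 0) / 2) * Real.exp (- D.ψ (e (G x) 0) / 2) = 1 := by
          rw [← Real.exp_add, show (D.ψ (e (G x) 0) / 2 + - D.ψ (e (G x) 0) / 2) = 0 by ring,
            Real.exp_zero]
        linear_combination (deriv D.ψ (e (G x) 0) / 2 * Real.exp (- D.ψ (e (G x) 0) / 2)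
          * ev x (Sm.D v (of _ (hH 0)))) * e1
      hh := fun v => by
        apply Sm.ext
        intro x
        rw [DD_apply, ev_D_c1 _ hhs (hH 0) htI v x (hasDerivAt_h D (htI x x.2)), map_mul, ev_c1]
      hg := fun v w => by
        apply Sm.ext
        intro x
        have h := hcart x x.2 v w
        rw [VSData.metric, rbar_eq] at h
        have hE : Real.exp (D.ψ (e (G x) 0) / 2) * Real.exp (- D.ψ (e (G x) 0) / 2) = 1 := by
          rw [← Real.exp_add, show (D.ψ (e (G x) 0) / 2 + - D.ψ (e (G x) 0) / 2) = 0 by ring,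
            Real.exp_zero]
        have hK : Real.exp (- D.F (D.m (e (G x) 0, e (G x) 1)) / 2)
            * Real.exp (D.F (D.m (e (G x) 0, e (G x) 1)) / 2) = 1 := by
          rw [← Real.exp_add, show (- D.F (D.m (e (G x) 0, e (G x) 1)) / 2
            + D.F (D.m (e (G x) 0, e (G x) 1)) / 2) = 0 by ring, Real.exp_zero]
        have hr := hrne x x.2
        have hj := (hjpos x x.2).ne'
        have hang : ev x (Gang.ang v w)
            = (fderiv ℝ (fun x => e (G x)) x v) 2 * (fderiv ℝ (fun x => e (G x)) x w) 2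
              + Real.sin (e (G x) 2) ^ 2 * ((fderiv ℝ (fun x => e (G x)) x v) 3
                * (fderiv ℝ (fun x => e (G x)) x w) 3) := by
          rw [hcomp, hcomp, hcomp, hcomp]
          rfl
        have ht : ∀ v, ev x (Sm.D v (of _ (hH 0))) = (fderiv ℝ (fun x => e (G x)) x v) 0 :=
          fun v => (hcomp x v 0).symm
        have hr' : ∀ v, ev x (Sm.D v (of _ (hH 1))) = (fderiv ℝ (fun x => e (G x)) x v) 1 :=
          fun v => (hcomp x v 1).symm
        simp only [map_mul, map_add, map_sub, map_pow, map_one, ev_c1, DD_apply, hang, ev_N,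
          AlgHom.commutes, Algebra.algebraMap_self, RingHom.id_apply]
        rw [ht, ht, hr', hr', ev_of]
        generalize (fderiv ℝ (fun x => e (G x)) x v) = V at h ⊢
        generalize (fderiv ℝ (fun x => e (G x)) x w) = V' at h ⊢
        generalize Real.exp (D.ψ (e (G x) 0) / 2) = cE at *
        generalize Real.exp (- D.ψ (e (G x) 0) / 2) = cW at *
        generalize Real.exp (- D.F (D.m (e (G x) 0, e (G x) 1)) / 2) = cK at *
        generalize Real.exp (D.F (D.m (e (G x) 0, e (G x) 1)) / 2) = cK' at *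
        generalize Real.sin (e (G x) 2) = cs at *
        generalize D.P (D.m (e (G x) 0, e (G x) 1)) = cP at *
        generalize e (G x) 1 = r0 at *
        have e1 : r0 / (r0 * (cE * cK)) = cK' * cW := by
          have hne : cE * cK ≠ 0 := by
            intro h0
            have : (cE * cK) * (cW * cK') = 1 := by
              linear_combination cK * cK' * hE + hK
            rw [h0, zero_mul] at this
            exact zero_ne_one this
          rw [div_eq_iff (mul_ne_zero hr hne)]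
          linear_combination (- r0 * cK * cK') * hE - r0 * hK
        have e2 : r0 * (cE * cK) / r0 = cE * cK := by
          field_simp
        rw [e1, e2] at h
        have h' : ((cK' * cW) ^ 2 * (V 0 * V' 0) - (cE * cK) ^ 2 * (V 1 * V' 1))
            = (1 + cP * r0) * ((cK' * cW) ^ 2 / (1 + cP * r0) * (V 0 * V' 0)
              - (cE * cK) ^ 2 / (1 + cP * r0) * (V 1 * V' 1)) := by
          field_simp
        linear_combination h' + (1 + cP * r0) * h }
  refine ⟨Ω, ⟨x₀, hx₀⟩, B, hpre, fun v f => rfl, rfl, ?_, ?_, ?_, ?_, ?_⟩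
  · intro x
    rw [hq x x.2]
    exact pow_ne_zero 2 (hsrc (hGs x x.2)).2.1
  · intro x
    show 0 < ev x (Nring Ω a b)
    rw [ev_N]
    exact hNpos x x.2
  · intro x
    exact Real.exp_pos _
  · intro x
    exact Real.exp_pos _
  · intro x
    exact hjpos x x.2

end Pool.Agent.H83.VS
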