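import Mathlib

/-!
# The differential ring of smooth functions on an open set

`Sm Ω` is the algebra of smooth real functions on the open set `Ω` of a normed space and
`Sm.D v` the derivation `∂_v` in the direction of a constant vector `v`.
-/

open scoped ContDiff Topology

namespace Pool.Agent.H83.VS

variable {V : Type*} [NormedAddCommGroup V] [NormedSpace ℝ V]

/-- The algebra of smooth functions on an open set `Ω`. -/
def Sm (Ω : TopologicalSpace.Opens V) : Subalgebra ℝ (Ω → ℝ) where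
  carrier := {f | ∃ g : V → ℝ, ContDiffOn ℝ ∞ g Ω ∧ ∀ x : Ω, g x = f x}
  mul_mem' := by
    rintro f₁ f₂ ⟨g₁, h₁, e₁⟩ ⟨g₂, h₂, e₂⟩
    exact ⟨fun x => g₁ x * g₂ x, h₁.mul h₂, fun x => by simp [e₁, e₂]⟩
  add_mem' := by
    rintro f₁ f₂ ⟨g₁, h₁, e₁⟩ ⟨g₂, h₂, e₂⟩
    exact ⟨fun x => g₁ x + g₂ x, h₁.add h₂, fun x => by simp [e₁, e₂]⟩
  algebraMap_mem' := fun c => ⟨fun _ => c, contDiffOn_const, fun x => rfl⟩

namespace Sm

variable {Ω : TopologicalSpace.Opens V}

/-- Evaluation at a point. -/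
def ev (x : Ω) : Sm Ω →ₐ[ℝ] ℝ :=
  (Pi.evalAlgHom ℝ (fun _ : Ω => ℝ) x).comp (Sm Ω).val

/-- The smooth function given by a total function that is smooth on `Ω`. -/
def of (g : V → ℝ) (hg : ContDiffOn ℝ ∞ g Ω) : Sm Ω :=
  ⟨fun x => g x, g, hg, fun _ => rfl⟩

@[simp] theorem ev_of (g : V → ℝ) (hg : ContDiffOn ℝ ∞ g Ω) (x : Ω) : ev x (of g hg) = g x := rfl

theorem ext {f g : Sm Ω} (h : ∀ x, ev x f = ev x g) : f = g :=
  Subtype.ext (funext h)

/-- A total representative. -/
noncomputable def rep (f : Sm Ω) : V → ℝ := f.2.choose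

theorem rep_smooth (f : Sm Ω) : ContDiffOn ℝ ∞ (rep f) Ω := f.2.choose_spec.1

theorem rep_apply (f : Sm Ω) (x : Ω) : rep f x = ev x f := f.2.choose_spec.2 x

theorem of_rep (f : Sm Ω) : of (rep f) (rep_smooth f) = f :=
  ext fun x => rep_apply f x

theorem differentiableAt_of {g : V → ℝ} (hg : ContDiffOn ℝ ∞ g Ω) (x : Ω) :
    DifferentiableAt ℝ g x :=
  ((hg.contDiffAt (Ω.2.mem_nhds x.2)).differentiableAt (by simp))

theorem smooth_fderiv {g : V → ℝ} (hg : ContDiffOn ℝ ∞ g Ω) (v : V) :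
    ContDiffOn ℝ ∞ (fun x => fderiv ℝ g x v) Ω :=
  (hg.fderiv_of_isOpen Ω.2 (by simp)).clm_apply contDiffOn_const

theorem fderiv_congr {g₁ g₂ : V → ℝ} (h : ∀ x : Ω, g₁ x = g₂ x) (x : Ω) :
    fderiv ℝ g₁ x = fderiv ℝ g₂ x := by
  apply Filter.EventuallyEq.fderiv_eq
  filter_upwards [Ω.2.mem_nhds x.2] with y hy using h ⟨y, hy⟩

/-- Directional derivative as a derivation. -/
noncomputable def D (v : V) : Derivation ℝ (Sm Ω) (Sm Ω) :=
  Derivation.mk'
    { toFun := fun f => of (fun x => fderiv ℝ (rep f) x v) (smooth_fderiv (rep_smooth f) v)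
      map_add' := by
        intro f g
        apply ext
        intro x
        rw [map_add, ev_of, ev_of, ev_of,
          fderiv_congr (g₁ := rep (f + g)) (g₂ := fun x => rep f x + rep g x)
            (fun x => by simp [rep_apply]) x,
          fderiv_fun_add (differentiableAt_of (rep_smooth f) x)
            (differentiableAt_of (rep_smooth g) x)]
        rfl
      map_smul' := by
        intro c f
        apply ext
        intro x
        rw [map_smul, ev_of, ev_of,
          fderiv_congr (g₁ := rep (c • f)) (g₂ := fun x => c • rep f x)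
            (fun x => by simp [rep_apply]) x,
          fderiv_fun_const_smul (differentiableAt_of (rep_smooth f) x)]
        rfl }
    (by
      intro f g
      apply ext
      intro x
      simp only [LinearMap.coe_mk, AddHom.coe_mk, map_add, smul_eq_mul, map_mul, ev_of]
      rw [fderiv_congr (g₁ := rep (f * g)) (g₂ := fun x => rep f x * rep g x)
            (fun x => by simp [rep_apply]) x,
          fderiv_fun_mul (differentiableAt_of (rep_smooth f) x)
            (differentiableAt_of (rep_smooth g) x)]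
      simp [rep_apply])

theorem ev_D_of (g : V → ℝ) (hg : ContDiffOn ℝ ∞ g Ω) (v : V) (x : Ω) :
    ev x (D v (of g hg)) = fderiv ℝ g x v := by
  show fderiv ℝ (rep (of g hg)) x v = _
  rw [fderiv_congr (fun x => by rw [rep_apply, ev_of]) x]

theorem D_of (g : V → ℝ) (hg : ContDiffOn ℝ ∞ g Ω) (v : V) :
    D v (of g hg) = of (fun x => fderiv ℝ g x v) (smooth_fderiv hg v) :=
  ext fun x => ev_D_of g hg v x

theorem D_comm (v w : V) (f : Sm Ω) : D v (D w f) = D w (D v f) := by
  obtain ⟨g, hg, hf⟩ : ∃ (g : V → ℝ) (hg : ContDiffOn ℝ ∞ g Ω), f = of g hg :=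
    ⟨rep f, rep_smooth f, (of_rep f).symm⟩
  rw [hf, D_of g hg w, D_of g hg v]
  apply ext
  intro x
  rw [ev_D_of, ev_D_of]
  have hx : ContDiffAt ℝ ∞ g x := hg.contDiffAt (Ω.2.mem_nhds x.2)
  have hsym : IsSymmSndFDerivAt ℝ g x := by
    apply ContDiffAt.isSymmSndFDerivAt (n := ∞) hx
    rw [minSmoothness_of_isRCLikeNormedField]
    exact (WithTop.coe_le_coe.2 le_top : ((2 : ℕ∞) : WithTop ℕ∞) ≤ ((⊤ : ℕ∞) : WithTop ℕ∞))
  have hd : DifferentiableAt ℝ (fderiv ℝ g) x :=
    ((hg.fderiv_of_isOpen Ω.2 (m := ∞) (by simp)).contDiffAt (Ω.2.mem_nhds x.2)).differentiableAt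
      (by simp)
  have h1 : ∀ w : V, fderiv ℝ (fun y => fderiv ℝ g y w) x = (fderiv ℝ (fderiv ℝ g) x).flip w := by
    intro w
    have := fderiv_clm_apply (𝕜 := ℝ) hd (differentiableAt_const w)
    ext z
    rw [this]
    simp
  rw [h1, h1]
  exact hsym.eq v w

theorem D_add (v w : V) : (D (v + w) : Derivation ℝ (Sm Ω) (Sm Ω)) = D v + D w := by
  ext f : 1
  apply ext
  intro x
  show fderiv ℝ (rep f) x (v + w) = _
  rw [map_add]
  rfl

theorem D_smul (c : ℝ) (v : V) : (D (c • v) : Derivation ℝ (Sm Ω) (Sm Ω)) = c • D v := by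
  ext f : 1
  apply ext
  intro x
  show fderiv ℝ (rep f) x (c • v) = _
  rw [map_smul]
  rfl

/-- The linear family of all directional derivatives. -/
noncomputable def DD : V →ₗ[ℝ] Derivation ℝ (Sm Ω) (Sm Ω) where
  toFun := D
  map_add' := D_add
  map_smul' := D_smul

@[simp] theorem DD_apply (v : V) : (DD v : Derivation ℝ (Sm Ω) (Sm Ω)) = D v := rfl

/-- Chain rule for the composition with a function of one variable. -/
theorem ev_D_comp (f : Sm Ω) (φ : ℝ → ℝ) (h : ContDiffOn ℝ ∞ (fun x => φ (rep f x)) Ω)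
    (v : V) (x : Ω) {φ' : ℝ} (hφ : HasDerivAt φ φ' (ev x f)) :
    ev x (D v (of (fun x => φ (rep f x)) h)) = φ' * ev x (D v f) := by
  rw [ev_D_of]
  rw [← rep_apply] at hφ
  have h1 : HasFDerivAt (rep f) (fderiv ℝ (rep f) x) x :=
    (differentiableAt_of (rep_smooth f) x).hasFDerivAt
  have h2 := hφ.comp_hasFDerivAt (x : V) h1
  have h3 : fderiv ℝ (fun x => φ (rep f x)) x = φ' • fderiv ℝ (rep f) x := h2.fderiv
  rw [h3]
  rfl

theorem const_of_D_eq_zero (hc : IsPreconnected (Ω : Set V)) (f : Sm Ω)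
    (h : ∀ v, D v f = 0) : ∃ c : ℝ, f = algebraMap ℝ (Sm Ω) c := by
  by_cases hne : (Ω : Set V).Nonempty
  swap
  · refine ⟨0, ext fun x => ?_⟩
    exact absurd ⟨x, x.2⟩ hne
  obtain ⟨x₀, hx₀⟩ := hne
  refine ⟨rep f x₀, ext fun x => ?_⟩
  have hd : DifferentiableOn ℝ (rep f) Ω := (rep_smooth f).differentiableOn (by simp)
  have hz : (Ω : Set V).EqOn (fderiv ℝ (rep f)) 0 := by
    intro y hy
    ext v
    have := congrArg (ev ⟨y, hy⟩) (h v)
    rw [map_zero] at this
    exact this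
  have := IsOpen.is_const_of_fderiv_eq_zero Ω.2 hc hd hz x.2 hx₀
  rw [← rep_apply, this]
  rfl

end Sm

end Pool.Agent.H83.VS
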